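import Mathlib

open MvPolynomial

namespace H598R5

theorem ae {κ : Type} (x : κ → ℂ) (p : MvPolynomial κ ℂ) : aeval x p = eval x p := by
  rw [← coe_aeval_eq_eval]; rfl

/-- A dominant polynomial map has, in its image, a nonempty relatively open subset of the
Zariski closure of the image. -/
theorem chev {σ τ : Type} [Finite σ] [Finite τ] (J : Ideal (MvPolynomial τ ℂ))
    (X : Set (τ → ℂ)) (hX : X.Nonempty) (hXJ : X = zeroLocus ℂ J)
    (φ : σ → MvPolynomial τ ℂ) :
    ∃ u : MvPolynomial σ ℂ, (∃ x ∈ X, eval (fun s => eval x (φ s)) u ≠ 0) ∧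
      ∀ y : σ → ℂ, (∀ p : MvPolynomial σ ℂ, (∀ x ∈ X, eval (fun s => eval x (φ s)) p = 0) →
        eval y p = 0) → eval y u ≠ 0 → ∃ x ∈ X, (fun s => eval x (φ s)) = y := by
  classical
  -- replace `J` by its radical
  set J' : Ideal (MvPolynomial τ ℂ) := vanishingIdeal ℂ X with hJ'
  have hXJ' : X = zeroLocus ℂ J' := by
    apply le_antisymm
    · exact zeroLocus_vanishingIdeal_le X
    · conv_rhs => rw [hXJ]
      apply zeroLocus_anti_mono
      rw [hJ', hXJ]
      exact le_vanishingIdeal_zeroLocus J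
  let f0 : MvPolynomial σ ℂ →ₐ[ℂ] MvPolynomial τ ℂ := aeval φ
  have hf0 : ∀ (x : τ → ℂ) (p : MvPolynomial σ ℂ), eval x (f0 p) = eval (fun s => eval x (φ s)) p := by
    intro x p
    have : ((aeval x : MvPolynomial τ ℂ →ₐ[ℂ] ℂ).comp f0) = aeval (fun s => eval x (φ s)) := by
      apply MvPolynomial.algHom_ext
      intro i
      simp [f0]
    have h2 := DFunLike.congr_fun this p
    simpa [coe_aeval_eq_eval] using h2
  let π : MvPolynomial τ ℂ →+* (MvPolynomial τ ℂ ⧸ J') := Ideal.Quotient.mk J'
  let f : MvPolynomial σ ℂ →+* (MvPolynomial τ ℂ ⧸ J') := π.comp f0.toRingHom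
  have hffin : f.FiniteType := by
    have h1 : (f.comp (C : ℂ →+* MvPolynomial σ ℂ)).FiniteType := by
      have h2 : f.comp (C : ℂ →+* MvPolynomial σ ℂ) = π.comp (C : ℂ →+* MvPolynomial τ ℂ) := by
        ext z
        simp [f, f0]
      rw [h2]
      apply RingHom.FiniteType.comp
      · exact RingHom.FiniteType.of_surjective _ Ideal.Quotient.mk_surjective
      · have : (algebraMap ℂ (MvPolynomial τ ℂ)).FiniteType := by
          rw [RingHom.finiteType_algebraMap]
          infer_instance
        exact this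
    exact RingHom.FiniteType.of_comp_finiteType h1
  have hfp : f.FinitePresentation := (RingHom.FinitePresentation.of_finiteType).mp hffin
  have hker : ∀ p : MvPolynomial σ ℂ, p ∈ RingHom.ker f ↔
      ∀ x ∈ X, eval (fun s => eval x (φ s)) p = 0 := by
    intro p
    rw [RingHom.mem_ker]
    show π (f0 p) = 0 ↔ _
    rw [Ideal.Quotient.eq_zero_iff_mem, hJ', mem_vanishingIdeal_iff]
    simp only [ae]
    constructor
    · intro h x hx
      rw [← hf0]
      exact h x hx
    · intro h x hx
      have := h x hx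
      rw [← hf0] at this
      exact this
  set I := RingHom.ker f with hI
  have hItop : I ≠ ⊤ := by
    obtain ⟨x, hx⟩ := hX
    intro h
    have : (1 : MvPolynomial σ ℂ) ∈ I := h ▸ Submodule.mem_top
    have := (hker 1).mp this x hx
    simp at this
  obtain ⟨q, hq⟩ := Ideal.nonempty_minimalPrimes hItop
  haveI hqp : q.IsPrime := hq.1.1
  obtain ⟨P0, hP0, -, hP0q⟩ := Ideal.exists_comap_eq_of_mem_minimalPrimes f (I := ⊥) q
    (by rw [← RingHom.ker_eq_comap_bot]; exact hq)
  have hcons := PrimeSpectrum.isConstructible_range_comap hfp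
  obtain ⟨D, hD⟩ := PrimeSpectrum.exists_constructibleSetData_iff.mpr hcons
  have hqT : (⟨q, hqp⟩ : PrimeSpectrum (MvPolynomial σ ℂ)) ∈ D.toSet := by
    rw [hD]
    exact ⟨⟨P0, hP0⟩, by ext1; exact hP0q⟩
  simp only [PrimeSpectrum.ConstructibleSetData.toSet, Set.mem_iUnion] at hqT
  obtain ⟨Cd, hCd, hqC⟩ := hqT
  simp only [PrimeSpectrum.BasicConstructibleSetData.toSet, Set.mem_sdiff,
    PrimeSpectrum.mem_zeroLocus] at hqC
  obtain ⟨hqC1, hqC2⟩ := hqC
  have hfq : Cd.f ∉ q := by
    intro h
    exact hqC2 (by simpa using h)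
  -- the other minimal primes
  have hfinmin : (I.minimalPrimes).Finite := Ideal.finite_minimalPrimes_of_isNoetherianRing _ I
  let s : Finset (Ideal (MvPolynomial σ ℂ)) := hfinmin.toFinset.erase q
  have hs : ¬ (s.inf id ≤ q) := by
    intro h
    rw [Ideal.IsPrime.inf_le' hqp] at h
    obtain ⟨q', hq', hle⟩ := h
    simp only [s, Finset.mem_erase, Set.Finite.mem_toFinset] at hq'
    have := hq.2 hq'.2.1 hle
    exact hq'.1 (le_antisymm hle this)
  obtain ⟨h, hh1, hh2⟩ := SetLike.not_le_iff_exists.mp hs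
  refine ⟨Cd.f * h, ?_, ?_⟩
  · by_contra hcon
    push Not at hcon
    have : Cd.f * h ∈ I := (hker _).mpr hcon
    have := hq.1.2 this
    rcases hqp.mem_or_mem this with h1 | h1
    · exact hfq h1
    · exact hh2 h1
  · intro y hy hyu
    set m : Ideal (MvPolynomial σ ℂ) := vanishingIdeal ℂ {y} with hm
    haveI hmmax : m.IsMaximal := by rw [hm]; infer_instance
    have hmem : ∀ p : MvPolynomial σ ℂ, p ∈ m ↔ eval y p = 0 := by
      intro p
      rw [hm, mem_vanishingIdeal_singleton_iff, ae]
    have hIm : I ≤ m := by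
      intro p hp
      rw [hmem]
      exact hy p ((hker p).mp hp)
    have hum : Cd.f * h ∉ m := by
      rw [hmem]; exact hyu
    have hfm : Cd.f ∉ m := fun h' => hum (Ideal.mul_mem_right _ _ h')
    have hhm : h ∉ m := fun h' => hum (Ideal.mul_mem_left _ _ h')
    obtain ⟨q', hq', hq'm⟩ := Ideal.exists_minimalPrimes_le hIm
    have hq'q : q' = q := by
      by_contra hne
      apply hhm
      apply hq'm
      have : q' ∈ s := by
        simp only [s, Finset.mem_erase, Set.Finite.mem_toFinset]
        exact ⟨hne, hq'⟩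
      exact (Finset.inf_le (f := id) this) hh1
    rw [hq'q] at hq'm
    have hmT : (⟨m, hmmax.isPrime⟩ : PrimeSpectrum (MvPolynomial σ ℂ)) ∈ D.toSet := by
      simp only [PrimeSpectrum.ConstructibleSetData.toSet, Set.mem_iUnion]
      refine ⟨Cd, hCd, ?_⟩
      simp only [PrimeSpectrum.BasicConstructibleSetData.toSet, Set.mem_sdiff,
        PrimeSpectrum.mem_zeroLocus]
      refine ⟨fun a ha => hq'm (hqC1 ha), ?_⟩
      intro h'
      exact hfm (h' (by simp))
    rw [hD] at hmT
    obtain ⟨P, hP⟩ := hmT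
    have hPm : P.asIdeal.comap f = m := by
      have := congrArg PrimeSpectrum.asIdeal hP
      simpa using this
    obtain ⟨n, hn, hPn⟩ := Ideal.exists_le_maximal P.asIdeal P.2.ne_top
    have hnm : n.comap f = m := by
      symm
      apply hmmax.eq_of_le
      · exact (Ideal.comap_ne_top _ hn.ne_top)
      · rw [← hPm]; exact Ideal.comap_mono hPn
    have hn' : (n.comap π).IsMaximal :=
      Ideal.comap_isMaximal_of_surjective π Ideal.Quotient.mk_surjective
    obtain ⟨x, hx⟩ := (isMaximal_iff_eq_vanishingIdeal_singleton).mp hn'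
    have hxmem : ∀ p : MvPolynomial τ ℂ, π p ∈ n ↔ eval x p = 0 := by
      intro p
      rw [← Ideal.mem_comap, hx, mem_vanishingIdeal_singleton_iff, ae]
    refine ⟨x, ?_, ?_⟩
    · rw [hXJ', mem_zeroLocus_iff]
      intro p hp
      rw [ae]
      apply (hxmem p).mp
      have : π p = 0 := Ideal.Quotient.eq_zero_iff_mem.mpr hp
      rw [this]
      exact n.zero_mem
    · funext i
      have h1 : (MvPolynomial.X i - C (y i) : MvPolynomial σ ℂ) ∈ m := by
        rw [hmem]; simp
      rw [← hnm, Ideal.mem_comap] at h1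
      have h2 : π (f0 (MvPolynomial.X i - C (y i))) ∈ n := h1
      rw [hxmem, hf0] at h2
      simp at h2
      exact sub_eq_zero.mp h2

end H598R5
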