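import Mathlib
import Pool.Agent.H598R5.Chev

open MvPolynomial

namespace H598R5

/-- polynomial functions -/
def IsPoly {τ : Type} (F : (τ → ℂ) → ℂ) : Prop := ∃ p : MvPolynomial τ ℂ, ∀ z, eval z p = F z

theorem IsPoly.const {τ : Type} (a : ℂ) : IsPoly (fun _ : τ → ℂ => a) := ⟨C a, by simp⟩

theorem IsPoly.coord {τ : Type} (i : τ) : IsPoly (fun z : τ → ℂ => z i) := ⟨X i, by simp⟩

theorem IsPoly.add {τ : Type} {F H : (τ → ℂ) → ℂ} (hF : IsPoly F) (hH : IsPoly H) :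
    IsPoly (fun z => F z + H z) := by
  obtain ⟨p, hp⟩ := hF
  obtain ⟨q, hq⟩ := hH
  exact ⟨p + q, fun z => by simp [hp, hq]⟩

theorem IsPoly.sub {τ : Type} {F H : (τ → ℂ) → ℂ} (hF : IsPoly F) (hH : IsPoly H) :
    IsPoly (fun z => F z - H z) := by
  obtain ⟨p, hp⟩ := hF
  obtain ⟨q, hq⟩ := hH
  exact ⟨p - q, fun z => by simp [hp, hq]⟩

theorem IsPoly.mul {τ : Type} {F H : (τ → ℂ) → ℂ} (hF : IsPoly F) (hH : IsPoly H) :
    IsPoly (fun z => F z * H z) := by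
  obtain ⟨p, hp⟩ := hF
  obtain ⟨q, hq⟩ := hH
  exact ⟨p * q, fun z => by simp [hp, hq]⟩

theorem IsPoly.sum {τ κ : Type} (s : Finset κ) {F : κ → (τ → ℂ) → ℂ} (hF : ∀ i ∈ s, IsPoly (F i)) :
    IsPoly (fun z => ∑ i ∈ s, F i z) := by
  classical
  induction s using Finset.induction_on with
  | empty => simpa using IsPoly.const (τ := τ) 0
  | insert a s ha ih =>
    simp only [Finset.sum_insert ha]
    exact (hF a (Finset.mem_insert_self _ _)).add
      (ih fun i hi => hF i (Finset.mem_insert_of_mem hi))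

theorem IsPoly.prod {τ κ : Type} (s : Finset κ) {F : κ → (τ → ℂ) → ℂ} (hF : ∀ i ∈ s, IsPoly (F i)) :
    IsPoly (fun z => ∏ i ∈ s, F i z) := by
  classical
  induction s using Finset.induction_on with
  | empty => simpa using IsPoly.const (τ := τ) 1
  | insert a s ha ih =>
    simp only [Finset.prod_insert ha]
    exact (hF a (Finset.mem_insert_self _ _)).mul
      (ih fun i hi => hF i (Finset.mem_insert_of_mem hi))

theorem IsPoly.comp {σ τ : Type} {F : (σ → ℂ) → ℂ} (hF : IsPoly F) {Φ : (τ → ℂ) → (σ → ℂ)}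
    (hΦ : ∀ s, IsPoly (fun z => Φ z s)) : IsPoly (fun z => F (Φ z)) := by
  obtain ⟨p, hp⟩ := hF
  choose q hq using hΦ
  refine ⟨bind₁ q p, fun z => ?_⟩
  show eval z (bind₁ q p) = F (Φ z)
  rw [← hp, ← ae, ← ae, aeval_bind₁]
  congr 2
  funext i
  rw [ae, hq]

/-- `chev` in terms of polynomial functions. -/
theorem chev' {σ τ κ : Type} [Finite σ] [Finite τ] (E : κ → (τ → ℂ) → ℂ) (hE : ∀ i, IsPoly (E i))
    (X : Set (τ → ℂ)) (hX : X.Nonempty) (hXE : X = {z | ∀ i, E i z = 0})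
    (Φ : (τ → ℂ) → (σ → ℂ)) (hΦ : ∀ s, IsPoly (fun z => Φ z s)) :
    ∃ u : MvPolynomial σ ℂ, (∃ x ∈ X, eval (Φ x) u ≠ 0) ∧
      ∀ y : σ → ℂ, (∀ p : MvPolynomial σ ℂ, (∀ x ∈ X, eval (Φ x) p = 0) →
        eval y p = 0) → eval y u ≠ 0 → ∃ x ∈ X, Φ x = y := by
  choose e he using hE
  choose φ hφ using hΦ
  have h1 : ∀ x, (fun s => eval x (φ s)) = Φ x := by
    intro x; funext s; exact hφ s x
  have h2 : X = zeroLocus ℂ (Ideal.span (Set.range e)) := by
    rw [zeroLocus_span, hXE]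
    ext z
    simp only [Set.mem_ofPred_eq, Set.forall_mem_range, ae, he]
  obtain ⟨u, hu1, hu2⟩ := chev _ X hX h2 φ
  simp only [h1] at hu1 hu2
  exact ⟨u, hu1, hu2⟩

/-- A group with affine coordinates. -/
structure Coord (GG : Type) [Group GG] (σ : Type) where
  c : GG → (σ → ℂ)
  inj : Function.Injective c
  Δ : (σ → ℂ) → ℂ
  Δpoly : IsPoly Δ
  range : ∀ y, Δ y ≠ 0 ↔ ∃ g, c g = y
  M : (σ → ℂ) → (σ → ℂ) → (σ → ℂ)
  Mpoly : ∀ s, IsPoly (fun z : (σ ⊕ σ) → ℂ => M (fun a => z (Sum.inl a)) (fun a => z (Sum.inr a)) s)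
  mul : ∀ g h, c (g * h) = M (c g) (c h)

variable {GG σ : Type} [Group GG] [Finite σ] (K : Coord GG σ)

theorem Coord.Mcomp {τ : Type} {A B : (τ → ℂ) → (σ → ℂ)} (hA : ∀ s, IsPoly (fun z => A z s))
    (hB : ∀ s, IsPoly (fun z => B z s)) (s : σ) : IsPoly (fun z => K.M (A z) (B z) s) := by
  have := (K.Mpoly s).comp (Φ := fun z => Sum.elim (A z) (B z)) (by
    rintro (t | t)
    · exact hA t
    · exact hB t)
  simpa using this

/-- Zariski closed subsets. -/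
def Coord.Closed (Y : Set GG) : Prop :=
  ∃ S : Set (MvPolynomial σ ℂ), Y = {g | ∀ p ∈ S, eval (K.c g) p = 0}

/-- vanishing ideal -/
noncomputable def Coord.V (Y : Set GG) : Ideal (MvPolynomial σ ℂ) := vanishingIdeal ℂ (K.c '' Y)

theorem Coord.mem_V {Y : Set GG} {p : MvPolynomial σ ℂ} :
    p ∈ K.V Y ↔ ∀ y ∈ Y, eval (K.c y) p = 0 := by
  unfold Coord.V
  rw [mem_vanishingIdeal_iff]
  simp [ae]

theorem Coord.Closed.eq {Y : Set GG} (h : K.Closed Y) : Y = {g | ∀ p ∈ K.V Y, eval (K.c g) p = 0} := by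
  obtain ⟨S, hS⟩ := h
  ext g
  constructor
  · intro hg p hp
    exact K.mem_V.mp hp g hg
  · intro hg
    rw [hS]
    intro p hp
    apply hg p
    rw [K.mem_V]
    intro y hy
    rw [hS] at hy
    exact hy p hp

theorem Coord.transl (g b : GG) (p : MvPolynomial σ ℂ) :
    ∃ q : MvPolynomial σ ℂ, ∀ y, eval (K.c y) q = eval (K.c (g * y * b)) p := by
  have h1 : IsPoly (fun w : σ → ℂ => eval (K.M (K.M (K.c g) w) (K.c b)) p) := by
    have h0 : IsPoly (fun w : σ → ℂ => eval w p) := ⟨p, fun _ => rfl⟩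
    apply h0.comp (Φ := fun w => K.M (K.M (K.c g) w) (K.c b))
    apply K.Mcomp
    · apply K.Mcomp
      · intro s; exact IsPoly.const _
      · intro s; exact IsPoly.coord s
    · intro s; exact IsPoly.const _
  obtain ⟨q, hq⟩ := h1
  exact ⟨q, fun y => by rw [hq, K.mul, K.mul]⟩

/-- **Closed double coset.** -/
theorem closed_coset (G B : Subgroup GG) (hG : K.Closed (G : Set GG)) (hB : K.Closed (B : Set GG)) :
    ∃ x : GG, K.Closed {y | ∃ g ∈ G, ∃ b ∈ B, y = g * x * b} := by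
  classical
  let P : Ideal (MvPolynomial σ ℂ) → Prop := fun I => ∃ Y : Set GG, Y.Nonempty ∧
    (∀ g ∈ G, ∀ b ∈ B, ∀ y ∈ Y, g * y * b ∈ Y) ∧ K.Closed Y ∧ I = K.V Y
  have hne : {I | P I}.Nonempty := by
    refine ⟨K.V Set.univ, Set.univ, ⟨1, trivial⟩, fun _ _ _ _ _ _ => trivial, ⟨∅, by simp⟩, rfl⟩
  obtain ⟨I0, ⟨Y0, hY0ne, hY0st, hY0c, rfl⟩, hmax⟩ := (wellFounded_gt (α := Ideal (MvPolynomial σ ℂ))).has_min _ hne
  have hmax' : ∀ Y : Set GG, Y.Nonempty → (∀ g ∈ G, ∀ b ∈ B, ∀ y ∈ Y, g * y * b ∈ Y) → K.Closed Y →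
      K.V Y0 ≤ K.V Y → K.V Y = K.V Y0 := by
    intro Y h1 h2 h3 h4
    by_contra hne
    exact hmax (K.V Y) ⟨Y, h1, h2, h3, rfl⟩ (lt_of_le_of_ne h4 (Ne.symm hne))
  obtain ⟨x, hx⟩ := hY0ne
  set O : Set GG := {y | ∃ g ∈ G, ∃ b ∈ B, y = g * x * b} with hO
  have hOY : O ⊆ Y0 := by
    rintro y ⟨g, hg, b, hb, rfl⟩
    exact hY0st g hg b hb x hx
  have hOst : ∀ g ∈ G, ∀ b ∈ B, ∀ y ∈ O, g * y * b ∈ O := by
    rintro g hg b hb y ⟨g', hg', b', hb', rfl⟩
    exact ⟨g * g', G.mul_mem hg hg', b' * b, B.mul_mem hb' hb, by group⟩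
  have hOne : O.Nonempty := ⟨x, 1, G.one_mem, 1, B.one_mem, by simp⟩
  have hVOY : K.V O = K.V Y0 := by
    set Z : Set GG := {y | ∀ p ∈ K.V O, eval (K.c y) p = 0} with hZ
    have hOZ : O ⊆ Z := by
      intro y hy p hp
      exact K.mem_V.mp hp y hy
    have hZV : K.V Z = K.V O := by
      apply le_antisymm
      · intro p hp
        rw [K.mem_V] at hp ⊢
        intro y hy
        exact hp y (hOZ hy)
      · intro p hp
        rw [K.mem_V]
        intro y hy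
        exact hy p hp
    rw [← hZV]
    apply hmax' Z (hOne.mono hOZ) _ ⟨_, rfl⟩
    · rw [hZV]
      intro p hp
      rw [K.mem_V] at hp ⊢
      intro y hy
      exact hp y (hOY hy)
    · intro g hg b hb y hy p hp
      obtain ⟨q, hq⟩ := K.transl g b p
      rw [← hq]
      apply hy
      rw [K.mem_V]
      intro w hw
      rw [hq]
      exact K.mem_V.mp hp _ (hOst g hg b hb w hw)
  obtain ⟨SG, hSG⟩ := hG
  obtain ⟨SB, hSB⟩ := hB
  -- the affine variety `G × B`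
  let τ := (σ ⊕ Unit) ⊕ (σ ⊕ Unit)
  let a1 : (τ → ℂ) → (σ → ℂ) := fun z s => z (Sum.inl (Sum.inl s))
  let a2 : (τ → ℂ) → (σ → ℂ) := fun z s => z (Sum.inr (Sum.inl s))
  have ha1 : ∀ s, IsPoly (fun z => a1 z s) := fun s => IsPoly.coord _
  have ha2 : ∀ s, IsPoly (fun z => a2 z s) := fun s => IsPoly.coord _
  let κ := (SG ⊕ SB) ⊕ (Unit ⊕ Unit)
  let E : κ → (τ → ℂ) → ℂ := fun i => match i with
    | Sum.inl (Sum.inl p) => fun z => eval (a1 z) p.1
    | Sum.inl (Sum.inr p) => fun z => eval (a2 z) p.1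
    | Sum.inr (Sum.inl _) => fun z => z (Sum.inl (Sum.inr ())) * K.Δ (a1 z) - 1
    | Sum.inr (Sum.inr _) => fun z => z (Sum.inr (Sum.inr ())) * K.Δ (a2 z) - 1
  have hE : ∀ i, IsPoly (E i) := by
    rintro ((p | p) | (p | p))
    · exact IsPoly.comp (F := fun w => eval w p.1) ⟨p.1, fun _ => rfl⟩ ha1
    · exact IsPoly.comp (F := fun w => eval w p.1) ⟨p.1, fun _ => rfl⟩ ha2
    · exact ((IsPoly.coord _).mul (K.Δpoly.comp ha1)).sub (IsPoly.const 1)
    · exact ((IsPoly.coord _).mul (K.Δpoly.comp ha2)).sub (IsPoly.const 1)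
  let Φ : (τ → ℂ) → (σ → ℂ) := fun z => K.M (K.M (a1 z) (K.c x)) (a2 z)
  have hΦ : ∀ s, IsPoly (fun z => Φ z s) := by
    apply K.Mcomp
    · apply K.Mcomp
      · exact ha1
      · intro s; exact IsPoly.const _
    · exact ha2
  set XX : Set (τ → ℂ) := {z | ∀ i, E i z = 0} with hXX
  have hXmem : ∀ z ∈ XX, ∃ g ∈ G, ∃ b ∈ B, Φ z = K.c (g * x * b) := by
    intro z hz
    have e1 := hz (Sum.inr (Sum.inl ()))
    have e2 := hz (Sum.inr (Sum.inr ()))
    simp only [E] at e1 e2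
    have d1 : K.Δ (a1 z) ≠ 0 := by
      intro h; rw [h] at e1; simp at e1
    have d2 : K.Δ (a2 z) ≠ 0 := by
      intro h; rw [h] at e2; simp at e2
    obtain ⟨g, hg⟩ := (K.range _).mp d1
    obtain ⟨b, hb⟩ := (K.range _).mp d2
    refine ⟨g, ?_, b, ?_, ?_⟩
    · have : g ∈ (G : Set GG) := by
        rw [hSG]
        intro p hp
        have := hz (Sum.inl (Sum.inl ⟨p, hp⟩))
        simp only [E] at this
        rw [hg]; exact this
      exact this
    · have : b ∈ (B : Set GG) := by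
        rw [hSB]
        intro p hp
        have := hz (Sum.inl (Sum.inr ⟨p, hp⟩))
        simp only [E] at this
        rw [hb]; exact this
      exact this
    · show K.M (K.M (a1 z) (K.c x)) (a2 z) = _
      rw [K.mul, K.mul, hg, hb]
  have hXmem' : ∀ g ∈ G, ∀ b ∈ B, ∃ z ∈ XX, Φ z = K.c (g * x * b) := by
    intro g hg b hb
    refine ⟨Sum.elim (Sum.elim (K.c g) (fun _ => (K.Δ (K.c g))⁻¹))
      (Sum.elim (K.c b) (fun _ => (K.Δ (K.c b))⁻¹)), ?_, ?_⟩
    · rintro ((p | p) | (p | p))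
      · show eval (K.c g) p.1 = 0
        have : g ∈ (G : Set GG) := hg
        rw [hSG] at this
        exact this p.1 p.2
      · show eval (K.c b) p.1 = 0
        have : b ∈ (B : Set GG) := hb
        rw [hSB] at this
        exact this p.1 p.2
      · show (K.Δ (K.c g))⁻¹ * K.Δ (K.c g) - 1 = 0
        have : K.Δ (K.c g) ≠ 0 := (K.range _).mpr ⟨g, rfl⟩
        rw [inv_mul_cancel₀ this, sub_self]
      · show (K.Δ (K.c b))⁻¹ * K.Δ (K.c b) - 1 = 0
        have : K.Δ (K.c b) ≠ 0 := (K.range _).mpr ⟨b, rfl⟩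
        rw [inv_mul_cancel₀ this, sub_self]
    · show K.M (K.M (K.c g) (K.c x)) (K.c b) = _
      rw [K.mul, K.mul]
  have hXne : XX.Nonempty := by
    obtain ⟨z, hz, -⟩ := hXmem' 1 G.one_mem 1 B.one_mem
    exact ⟨z, hz⟩
  obtain ⟨u, ⟨z0, hz0, hu0⟩, hu⟩ := chev' E hE XX hXne rfl Φ hΦ
  have key : ∀ y ∈ Y0, eval (K.c y) u ≠ 0 → y ∈ O := by
    intro y hy huy
    obtain ⟨z, hz, hzy⟩ := hu (K.c y) (by
      intro p hp
      have : p ∈ K.V O := by
        rw [K.mem_V]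
        rintro w ⟨g, hg, b, hb, rfl⟩
        obtain ⟨z, hz, hzw⟩ := hXmem' g hg b hb
        rw [← hzw]
        exact hp z hz
      rw [hVOY, K.mem_V] at this
      exact this y hy) huy
    obtain ⟨g, hg, b, hb, hgb⟩ := hXmem z hz
    rw [hzy] at hgb
    exact ⟨g, hg, b, hb, K.inj hgb⟩
  -- the complement
  set Y1 : Set GG := {y | y ∈ Y0 ∧ ∀ g ∈ G, ∀ b ∈ B, eval (K.c (g * y * b)) u = 0} with hY1
  have hY1c : K.Closed Y1 := by
    choose T hT using fun (g b : GG) => K.transl g b u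
    refine ⟨(K.V Y0 : Set (MvPolynomial σ ℂ)) ∪ {q | ∃ g ∈ G, ∃ b ∈ B, q = T g b}, ?_⟩
    ext y
    constructor
    · rintro ⟨hy, hy2⟩ p (hp | ⟨g, hg, b, hb, rfl⟩)
      · exact K.mem_V.mp hp y hy
      · rw [hT]; exact hy2 g hg b hb
    · intro hy
      refine ⟨?_, ?_⟩
      · rw [hY0c.eq]
        intro p hp
        exact hy p (Or.inl hp)
      · intro g hg b hb
        rw [← hT]
        exact hy _ (Or.inr ⟨g, hg, b, hb, rfl⟩)
  have hY1st : ∀ g ∈ G, ∀ b ∈ B, ∀ y ∈ Y1, g * y * b ∈ Y1 := by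
    rintro g hg b hb y ⟨hy, hy2⟩
    refine ⟨hY0st g hg b hb y hy, ?_⟩
    intro g' hg' b' hb'
    have := hy2 (g' * g) (G.mul_mem hg' hg) (b * b') (B.mul_mem hb hb')
    rw [show g' * (g * y * b) * b' = g' * g * y * (b * b') by group]
    exact this
  have hY1e : ¬ Y1.Nonempty := by
    intro hne1
    have h1 : K.V Y1 = K.V Y0 := by
      apply hmax' Y1 hne1 hY1st hY1c
      intro p hp
      rw [K.mem_V] at hp ⊢
      intro y hy
      exact hp y hy.1
    have h2 : u ∈ K.V Y1 := by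
      rw [K.mem_V]
      intro y hy
      have := hy.2 1 G.one_mem 1 B.one_mem
      simpa using this
    rw [h1, K.mem_V] at h2
    obtain ⟨g, hg, b, hb, hgb⟩ := hXmem z0 hz0
    rw [hgb] at hu0
    exact hu0 (h2 _ (hOY ⟨g, hg, b, hb, rfl⟩))
  refine ⟨x, ?_⟩
  have hYO : Y0 = O := by
    apply le_antisymm _ hOY
    intro y hy
    by_contra hyO
    apply hY1e
    refine ⟨y, hy, ?_⟩
    intro g hg b hb
    by_contra hne2
    have h3 := key _ (hY0st g hg b hb y hy) hne2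
    apply hyO
    have h4 := hOst g⁻¹ (G.inv_mem hg) b⁻¹ (B.inv_mem hb) _ h3
    rwa [show g⁻¹ * (g * y * b) * b⁻¹ = y by group] at h4
  rw [← hO, ← hYO]
  exact hY0c

end H598R5
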