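import Mathlib

open Matrix Filter Topology Module

namespace H598R5

theorem det_blk {κ : Type} [Fintype κ] [DecidableEq κ] (M : Matrix κ κ ℂ) (hM : M.det ≠ 0)
    (b c : κ → ℂ) (y : ℂ) :
    (fromBlocks M (Matrix.of fun i (_ : Unit) => b i) (Matrix.of fun (_ : Unit) i => c i)
      (Matrix.of fun (_ _ : Unit) => y)).det = y * M.det - c ⬝ᵥ (M.adjugate *ᵥ b) := by
  letI : Invertible M := M.invertibleOfIsUnitDet (isUnit_iff_ne_zero.mpr hM)
  rw [det_fromBlocks₁₁, Matrix.det_unique (n := Unit)]
  have h1 : (⅟M : Matrix κ κ ℂ) = (M.det)⁻¹ • M.adjugate := by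
    rw [invOf_eq_nonsing_inv, Matrix.inv_def, Ring.inverse_eq_inv']
  rw [h1]
  have h2 : ((Matrix.of fun (_ : Unit) i => c i) * ((M.det)⁻¹ • M.adjugate) *
      (Matrix.of fun i (_ : Unit) => b i)) default default = (M.det)⁻¹ * (c ⬝ᵥ (M.adjugate *ᵥ b)) := by
    rw [Matrix.mul_smul, Matrix.smul_mul, Matrix.smul_apply, smul_eq_mul, Matrix.mul_assoc]
    congr 1
  rw [Matrix.sub_apply, h2]
  simp only [Matrix.of_apply]
  field_simp

theorem lim0 {f : ℂ → ℂ} (hf : Continuous f) (h : ∀ᶠ t in 𝓝[≠] (0 : ℂ), f t = 0) : f 0 = 0 := by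
  have h1 : Tendsto f (𝓝[≠] 0) (𝓝 (f 0)) := (hf.tendsto 0).mono_left nhdsWithin_le_nhds
  have h2 : Tendsto f (𝓝[≠] 0) (𝓝 0) := by
    apply (tendsto_const_nhds (x := (0 : ℂ))).congr'
    filter_upwards [h] with t ht
    exact ht.symm
  exact tendsto_nhds_unique h1 h2

theorem block_zero {n : ℕ} (p : Fin n → Prop) [DecidablePred p] (Y : Matrix (Fin n) (Fin n) ℂ)
    (hr : ∀ t : ℂ, (diagonal (fun i => if p i then (1 : ℂ) else 0) + t • Y).rank ≤
      Fintype.card {i // p i}) (j k : Fin n) (hj : ¬ p j) (hk : ¬ p k) :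
    Y j k = 0 ∧ ∑ i : {i // p i}, Y j i * Y i k = 0 := by
  classical
  set e : Fin n → ℂ := fun i => if p i then (1 : ℂ) else 0 with he
  let I := {i // p i}
  let ρ : I ⊕ Unit → Fin n := Sum.elim (fun i => i.1) (fun _ => j)
  let γ : I ⊕ Unit → Fin n := Sum.elim (fun i => i.1) (fun _ => k)
  let A : Matrix I I ℂ := Matrix.of fun a b => Y a.1 b.1
  let b : I → ℂ := fun i => Y i.1 k
  let c : I → ℂ := fun i => Y j i.1
  have hN : ∀ t : ℂ, ((diagonal e + t • Y).submatrix ρ γ).det = 0 := by
    intro t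
    by_contra hne
    have hu : IsUnit ((diagonal e + t • Y).submatrix ρ γ) := by
      rw [Matrix.isUnit_iff_isUnit_det]; exact isUnit_iff_ne_zero.mpr hne
    have h1 := Matrix.rank_of_isUnit _ hu
    have h2 : ((diagonal e + t • Y).submatrix ρ γ) =
        ((1 : Matrix (Fin n) (Fin n) ℂ).submatrix ρ id) * ((diagonal e + t • Y) *
          ((1 : Matrix (Fin n) (Fin n) ℂ).submatrix id γ)) := by
      ext a b
      simp [Matrix.mul_apply, Matrix.one_apply]
    have h3 : ((diagonal e + t • Y).submatrix ρ γ).rank ≤ Fintype.card I := by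
      rw [h2]
      exact ((Matrix.rank_mul_le_right _ _).trans (Matrix.rank_mul_le_left _ _)).trans (hr t)
    rw [h1] at h3
    simp at h3
  have hblk : ∀ t : ℂ, (diagonal e + t • Y).submatrix ρ γ =
      fromBlocks (1 + t • A) (Matrix.of fun i (_ : Unit) => t * b i)
        (Matrix.of fun (_ : Unit) i => t * c i) (Matrix.of fun (_ _ : Unit) => t * Y j k) := by
    intro t
    ext a a'
    rcases a with a | a <;> rcases a' with a' | a'
    · simp only [Matrix.submatrix_apply, ρ, γ, Sum.elim_inl, fromBlocks_apply₁₁, Matrix.add_apply,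
        Matrix.smul_apply, A, Matrix.of_apply]
      congr 1
      rw [Matrix.diagonal_apply, Matrix.one_apply]
      by_cases h : a = a'
      · rw [if_pos (by rw [h]), if_pos h]
        simp [he, a.2]
      · rw [if_neg (fun h' => h (Subtype.ext h')), if_neg h]
    · simp only [Matrix.submatrix_apply, ρ, γ, Sum.elim_inl, Sum.elim_inr, fromBlocks_apply₁₂,
        Matrix.add_apply, Matrix.smul_apply, Matrix.of_apply, b]
      rw [Matrix.diagonal_apply, if_neg (fun h : (a : Fin n) = k => hk (h ▸ a.2))]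
      simp
    · simp only [Matrix.submatrix_apply, ρ, γ, Sum.elim_inl, Sum.elim_inr, fromBlocks_apply₂₁,
        Matrix.add_apply, Matrix.smul_apply, Matrix.of_apply, c]
      rw [Matrix.diagonal_apply, if_neg (fun h : j = (a' : Fin n) => hj (h ▸ a'.2))]
      simp
    · simp only [Matrix.submatrix_apply, ρ, γ, Sum.elim_inr, fromBlocks_apply₂₂,
        Matrix.add_apply, Matrix.smul_apply, Matrix.of_apply]
      rw [Matrix.diagonal_apply]
      simp [he, hj]
  have hd : Continuous fun t : ℂ => (1 + t • A).det := by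
    apply Continuous.matrix_det; fun_prop
  have hadj : Continuous fun t : ℂ => c ⬝ᵥ ((1 + t • A).adjugate *ᵥ b) := by
    have h1 : Continuous fun t : ℂ => (1 + t • A).adjugate := by
      apply Continuous.matrix_adjugate; fun_prop
    exact Continuous.dotProduct continuous_const (h1.matrix_mulVec continuous_const)
  have hd0 : ∀ᶠ t in 𝓝[≠] (0 : ℂ), (1 + t • A).det ≠ 0 := by
    apply nhdsWithin_le_nhds
    apply hd.continuousAt.eventually_ne
    simp
  have hmain : ∀ t : ℂ, t ≠ 0 → (1 + t • A).det ≠ 0 →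
      Y j k * (1 + t • A).det - t * (c ⬝ᵥ ((1 + t • A).adjugate *ᵥ b)) = 0 := by
    intro t ht hdt
    have h1 := hN t
    rw [hblk t, det_blk _ hdt] at h1
    have h2 : (fun i => t * c i) ⬝ᵥ ((1 + t • A).adjugate *ᵥ fun i => t * b i) =
        t * (t * (c ⬝ᵥ ((1 + t • A).adjugate *ᵥ b))) := by
      have e1 : (fun i => t * c i) = t • c := rfl
      have e2 : (fun i => t * b i) = t • b := rfl
      rw [e1, e2, Matrix.mulVec_smul, smul_dotProduct, dotProduct_smul, smul_eq_mul, smul_eq_mul]
    rw [h2] at h1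
    have h3 : t * (Y j k * (1 + t • A).det - t * (c ⬝ᵥ ((1 + t • A).adjugate *ᵥ b))) = 0 := by
      rw [← h1]; ring
    exact (mul_eq_zero.mp h3).resolve_left ht
  have hy : Y j k = 0 := by
    have := lim0 (f := fun t => Y j k * (1 + t • A).det - t * (c ⬝ᵥ ((1 + t • A).adjugate *ᵥ b)))
      ((continuous_const.mul hd).sub (continuous_id.mul hadj)) (by
        filter_upwards [hd0, self_mem_nhdsWithin] with t h1 h2
        exact hmain t h2 h1)
    simpa using this
  refine ⟨hy, ?_⟩
  have := lim0 (f := fun t => c ⬝ᵥ ((1 + t • A).adjugate *ᵥ b)) hadj (by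
    filter_upwards [hd0, self_mem_nhdsWithin] with t h1 h2
    have h3 := hmain t h2 h1
    rw [hy, zero_mul, zero_sub, neg_eq_zero] at h3
    exact (mul_eq_zero.mp h3).resolve_left h2)
  simp only [zero_smul, add_zero, adjugate_one, one_mulVec] at this
  exact this

/-- isotropic subspaces for a swap form -/
theorem isotropic {ι : Type} [Fintype ι] [DecidableEq ι] (σ : ι → ι) (hσ : ∀ p, σ (σ p) = p)
    (W : Submodule ℂ (ι → ℂ)) (hW : ∀ w ∈ W, ∀ w' ∈ W, ∑ p, w p * w' (σ p) = 0) :
    2 * finrank ℂ W ≤ Fintype.card ι := by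
  let B : LinearMap.BilinForm ℂ (ι → ℂ) := LinearMap.mk₂ ℂ (fun w w' => ∑ p, w p * w' (σ p))
    (by intro a b c; simp [add_mul, Finset.sum_add_distrib])
    (by intro a b c; simp [Finset.mul_sum, mul_assoc])
    (by intro a b c; simp [mul_add, Finset.sum_add_distrib])
    (by intro a b c; simp only [Pi.smul_apply, smul_eq_mul, Finset.mul_sum]
        apply Finset.sum_congr rfl; intro p _; ring)
  have hB : ∀ w w', B w w' = ∑ p, w p * w' (σ p) := fun _ _ => rfl
  have hsymm : ∀ w w', B w w' = B w' w := by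
    intro w w'
    rw [hB, hB]
    let τ : Equiv.Perm ι := ⟨σ, σ, hσ, hσ⟩
    rw [← Equiv.sum_comp τ]
    apply Finset.sum_congr rfl
    intro p _
    show w (σ p) * w' (σ (σ p)) = _
    rw [hσ]; ring
  have hnd : B.Nondegenerate := by
    have key : ∀ w, (∀ w', B w w' = 0) → w = 0 := by
      intro w hw
      funext p
      have := hw (Pi.single (σ p) 1)
      rw [hB, Finset.sum_eq_single p] at this
      · simpa using this
      · intro q _ hqp
        rw [Pi.single_apply, if_neg, mul_zero]
        intro h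
        apply hqp
        rw [← hσ q, h, hσ]
      · intro h; exact absurd (Finset.mem_univ _) h
    refine ⟨key, ?_⟩
    intro w hw
    apply key
    intro w'
    rw [hsymm]; exact hw w'
  have h1 := LinearMap.BilinForm.finrank_orthogonal hnd W
  have h2 : W ≤ B.orthogonal W := by
    intro w hw
    rw [LinearMap.BilinForm.mem_orthogonal_iff]
    intro w' hw'
    exact hW w' hw' w hw
  have h3 := Submodule.finrank_mono h2
  have h4 : finrank ℂ (ι → ℂ) = Fintype.card ι := Module.finrank_fintype_fun_eq_card ℂ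
  have h5 := Submodule.finrank_le W
  omega

end H598R5
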