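import Mathlib
import Pool.Agent.H598R5.Dieu

open Matrix Filter Topology Module

namespace H598R5

/-- if `c M b = 0` for all invertible `M` then `c = 0` or `b = 0` -/
theorem cMb {κ : Type} [Fintype κ] [DecidableEq κ] (b c : κ → ℂ)
    (h : ∀ M : Matrix κ κ ℂ, M.det ≠ 0 → c ⬝ᵥ (M *ᵥ b) = 0) : c = 0 ∨ b = 0 := by
  by_contra hcon
  push Not at hcon
  obtain ⟨i, hi⟩ := Function.ne_iff.mp hcon.1
  obtain ⟨l, hl⟩ := Function.ne_iff.mp hcon.2
  have h1 : c ⬝ᵥ b = 0 := by simpa using h 1 (by simp)
  let E : Matrix κ κ ℂ := Matrix.single i l 1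
  have hd : Continuous fun t : ℂ => (1 + t • E).det := by
    apply Continuous.matrix_det; fun_prop
  have hd0 : ∀ᶠ t in 𝓝[≠] (0 : ℂ), (1 + t • E).det ≠ 0 := by
    apply nhdsWithin_le_nhds
    apply hd.continuousAt.eventually_ne
    simp
  obtain ⟨t, ht1, ht2⟩ := (hd0.and self_mem_nhdsWithin).exists
  have h2 := h _ ht1
  rw [Matrix.add_mulVec, one_mulVec, dotProduct_add, h1, zero_add, Matrix.smul_mulVec,
    dotProduct_smul, smul_eq_mul] at h2
  have h3 : c ⬝ᵥ (E *ᵥ b) = c i * b l := by
    rw [dotProduct, Finset.sum_eq_single i]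
    · congr 1
      rw [mulVec, dotProduct, Finset.sum_eq_single l]
      · simp [E, Matrix.single_apply]
      · intro q _ hq
        simp [E, Matrix.single_apply, hq.symm]
      · intro hq; exact absurd (Finset.mem_univ _) hq
    · intro q _ hq
      have : (E *ᵥ b) q = 0 := by
        rw [mulVec, dotProduct]
        apply Finset.sum_eq_zero
        intro q' _
        simp [E, Matrix.single_apply, hq.symm]
      rw [this, mul_zero]
    · intro hq; exact absurd (Finset.mem_univ _) hq
  rw [h3] at h2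
  rcases mul_eq_zero.mp h2 with h4 | h4
  · exact ht2 h4
  · rcases mul_eq_zero.mp h4 with h5 | h5
    · exact hi h5
    · exact hl h5

theorem nf {n : ℕ} (p : Fin n → Prop) [DecidablePred p] (L : Submodule ℂ (Matrix (Fin n) (Fin n) ℂ))
    (hX0 : diagonal (fun i => if p i then (1 : ℂ) else 0) ∈ L)
    (hr : ∀ X ∈ L, X.rank ≤ Fintype.card {i // p i}) (hp : ∃ j, ¬ p j) :
    finrank ℂ L ≤ Fintype.card {i // p i} * n ∧
    (n * n - n ≤ finrank ℂ L → (∃ j0, ∀ Y ∈ L, ∀ i, Y i j0 = 0) ∨ (∃ j0, ∀ Y ∈ L, ∀ i, Y j0 i = 0)) := by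
  classical
  let I := {i // p i}
  let J := {i // ¬ p i}
  set r := Fintype.card I with hrdef
  set s := Fintype.card J with hsdef
  have hrs : r + s = n := by
    have h1 : s = Fintype.card (Fin n) - r := Fintype.card_subtype_compl p
    have h2 : r ≤ Fintype.card (Fin n) := Fintype.card_subtype_le p
    rw [Fintype.card_fin] at h1 h2
    omega
  have hs1 : 1 ≤ s := by
    obtain ⟨j, hj⟩ := hp
    exact Fintype.card_pos_iff.mpr ⟨⟨j, hj⟩⟩
  have hblock : ∀ Y ∈ L, ∀ j k : Fin n, ¬ p j → ¬ p k →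
      Y j k = 0 ∧ ∑ i : {i // p i}, Y j i * Y i k = 0 := by
    intro Y hY j k hj hk
    apply block_zero p Y _ j k hj hk
    intro t
    exact hr _ (L.add_mem hX0 (L.smul_mem t hY))
  let Pi : Matrix (Fin n) (Fin n) ℂ →ₗ[ℂ] ((I × J) ⊕ (I × J) → ℂ) :=
    { toFun := fun Y => Sum.elim (fun q => Y q.1 q.2) (fun q => Y q.2 q.1)
      map_add' := by intro Y Y'; funext q; rcases q with q | q <;> rfl
      map_smul' := by intro c Y; funext q; rcases q with q | q <;> rfl }
  let Ab : Matrix (Fin n) (Fin n) ℂ →ₗ[ℂ] (I × I → ℂ) :=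
    { toFun := fun Y => fun q => Y q.1 q.2
      map_add' := by intro Y Y'; rfl
      map_smul' := by intro c Y; rfl }
  let PL := Pi.domRestrict L
  have hiso : 2 * finrank ℂ (LinearMap.range PL) ≤ Fintype.card ((I × J) ⊕ (I × J)) := by
    apply isotropic Sum.swap (fun q => Sum.swap_swap q)
    rintro w ⟨⟨Y, hY⟩, rfl⟩ w' ⟨⟨Y', hY'⟩, rfl⟩
    rw [Fintype.sum_sum_type]
    show ∑ q : I × J, Y q.1 q.2 * Y' q.2 q.1 + ∑ q : I × J, Y q.2 q.1 * Y' q.1 q.2 = 0
    rw [← Finset.sum_add_distrib, Fintype.sum_prod_type_right]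
    apply Finset.sum_eq_zero
    rintro ⟨j, hj⟩ _
    have h1 := (hblock Y hY j j hj hj).2
    have h2 := (hblock Y' hY' j j hj hj).2
    have h3 := (hblock (Y + Y') (L.add_mem hY hY') j j hj hj).2
    have h4 : ∑ i : I, (Y + Y') j i * (Y + Y') i j = ∑ i : I, Y j i * Y i j + ∑ i : I, Y' j i * Y' i j +
        ∑ i : I, (Y i j * Y' j i + Y j i * Y' i j) := by
      rw [← Finset.sum_add_distrib, ← Finset.sum_add_distrib]
      apply Finset.sum_congr rfl
      intro i _
      simp only [Matrix.add_apply]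
      ring
    rw [h3, h1, h2, zero_add, zero_add] at h4
    exact h4.symm
  have hiso' : finrank ℂ (LinearMap.range PL) ≤ r * s := by
    rw [Fintype.card_sum, Fintype.card_prod] at hiso
    have h1 : 2 * finrank ℂ (LinearMap.range PL) ≤ r * s + r * s := hiso
    omega
  let AK := Ab.comp (L.subtype.comp (LinearMap.ker PL).subtype)
  have hAKinj : Function.Injective AK := by
    rw [injective_iff_map_eq_zero]
    rintro ⟨⟨Y, hY⟩, hYk⟩ h0
    have hYk' : Pi Y = 0 := hYk
    have h0' : Ab Y = 0 := h0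
    apply Subtype.ext
    apply Subtype.ext
    show Y = 0
    ext a b
    by_cases ha : p a <;> by_cases hb : p b
    · exact congrFun h0' (⟨a, ha⟩, ⟨b, hb⟩)
    · exact congrFun hYk' (Sum.inl (⟨a, ha⟩, ⟨b, hb⟩))
    · exact congrFun hYk' (Sum.inr (⟨b, hb⟩, ⟨a, ha⟩))
    · exact (hblock Y hY a b ha hb).1
  have hker : finrank ℂ (LinearMap.ker PL) ≤ r * r := by
    have := LinearMap.finrank_le_finrank_of_injective hAKinj
    rw [Module.finrank_fintype_fun_eq_card, Fintype.card_prod] at this
    exact this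
  have hsum := LinearMap.finrank_range_add_finrank_ker PL
  have hn : r * n = r * s + r * r := by rw [← hrs]; ring
  refine ⟨by omega, ?_⟩
  intro hdim
  -- `s = 1`
  have hs : s = 1 := by
    by_contra hne
    have h2 : 2 ≤ s := by omega
    have h3 : n * n - n ≤ r * n := by omega
    have h4 : n * n - n = (n - 1) * n := by
      rw [Nat.sub_mul, one_mul]
    rw [h4] at h3
    have h5 : 0 < n := by omega
    have h6 := Nat.le_of_mul_le_mul_right h3 h5
    omega
  have hkereq : finrank ℂ (LinearMap.ker PL) = r * r := by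
    have h4 : n * n - n = r * n := by
      have : n = r + 1 := by omega
      rw [this]
      rw [show (r + 1) * (r + 1) = r * (r + 1) + (r + 1) by ring]
      omega
    rw [h4, hn] at hdim
    omega
  have hAKsurj : Function.Surjective AK := by
    have hfe : finrank ℂ (LinearMap.ker PL) = finrank ℂ (I × I → ℂ) := by
      rw [hkereq, Module.finrank_fintype_fun_eq_card, Fintype.card_prod]
    rw [← LinearMap.range_eq_top]
    apply Submodule.eq_top_of_finrank_eq
    rw [LinearMap.finrank_range_of_inj hAKinj, hfe]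
  have hJ1 : Fintype.card J = 1 := hs
  obtain ⟨⟨j0, hj0⟩, hj0u⟩ := Fintype.card_eq_one_iff.mp hJ1
  have hpj : ∀ i, ¬ p i → i = j0 := by
    intro i hi
    have := hj0u ⟨i, hi⟩
    exact congrArg Subtype.val this
  have hei : Function.Bijective (Sum.elim (fun i : I => (i : Fin n)) (fun _ : Unit => j0)) := by
    constructor
    · rintro (a | a) (b | b) hab
      · exact congrArg _ (Subtype.ext hab)
      · exact absurd (show p j0 from (show (a : Fin n) = j0 from hab) ▸ a.2) hj0
      · exact absurd (show p j0 from (show j0 = (b : Fin n) from hab).symm ▸ b.2) hj0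
      · rfl
    · intro i
      by_cases hi : p i
      · exact ⟨Sum.inl ⟨i, hi⟩, rfl⟩
      · exact ⟨Sum.inr (), (hpj i hi).symm⟩
  let eI : I ⊕ Unit ≃ Fin n := Equiv.ofBijective _ hei
  have hbc : ∀ Y ∈ L, (∀ i : I, Y j0 i = 0) ∨ (∀ i : I, Y i j0 = 0) := by
    intro Y hY
    let b : I → ℂ := fun i => Y i j0
    let c : I → ℂ := fun i => Y j0 i
    have key : ∀ M : Matrix I I ℂ, M.det ≠ 0 → c ⬝ᵥ (M *ᵥ b) = 0 := by
      intro M hM
      have hMu : IsUnit M.det := isUnit_iff_ne_zero.mpr hM
      obtain ⟨⟨⟨Z, hZ⟩, hZk⟩, hZA⟩ := hAKsurj (fun q => (M⁻¹) q.1 q.2 - Y q.1 q.2)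
      have hZk' : Pi Z = 0 := hZk
      have hZA' : Ab Z = (fun q => (M⁻¹) q.1 q.2 - Y q.1 q.2) := hZA
      have hYZ := L.add_mem hY hZ
      have hsub : (Y + Z).submatrix eI eI = fromBlocks M⁻¹ (Matrix.of fun i (_ : Unit) => b i)
          (Matrix.of fun (_ : Unit) i => c i) (Matrix.of fun (_ _ : Unit) => 0) := by
        ext a a'
        rcases a with a | a <;> rcases a' with a' | a'
        · show Y a a' + Z a a' = M⁻¹ a a'
          have := congrFun hZA' (a, a')
          have h7 : Z a a' = M⁻¹ a a' - Y a a' := this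
          rw [h7]; ring
        · show Y a j0 + Z a j0 = Y a j0
          have : Z a j0 = 0 := congrFun hZk' (Sum.inl (a, ⟨j0, hj0⟩))
          rw [this, add_zero]
        · show Y j0 a' + Z j0 a' = Y j0 a'
          have : Z j0 a' = 0 := congrFun hZk' (Sum.inr (a', ⟨j0, hj0⟩))
          rw [this, add_zero]
        · show (Y + Z) j0 j0 = 0
          exact (hblock _ hYZ j0 j0 hj0 hj0).1
      have hdet : (Y + Z).det = 0 := by
        by_contra hne
        have hu : IsUnit (Y + Z) := by
          rw [Matrix.isUnit_iff_isUnit_det]; exact isUnit_iff_ne_zero.mpr hne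
        have h1 := Matrix.rank_of_isUnit _ hu
        have h2 := hr _ hYZ
        rw [h1, Fintype.card_fin] at h2
        have : Fintype.card {i // p i} = r := rfl
        omega
      have hMi : (M⁻¹).det ≠ 0 := by
        rw [Matrix.det_nonsing_inv, Ring.inverse_eq_inv']
        exact inv_ne_zero hM
      have h3 := det_blk M⁻¹ hMi b c 0
      rw [← hsub, Matrix.det_submatrix_equiv_self, hdet, zero_mul, zero_sub] at h3
      have h4 : c ⬝ᵥ ((M⁻¹).adjugate *ᵥ b) = 0 := neg_eq_zero.mp h3.symm
      have h5 : (M⁻¹).adjugate = (M⁻¹).det • M := by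
        have h6 : (M⁻¹).adjugate * M⁻¹ = (M⁻¹).det • 1 := Matrix.adjugate_mul _
        calc (M⁻¹).adjugate = (M⁻¹).adjugate * (M⁻¹ * M) := by
              rw [Matrix.nonsing_inv_mul _ hMu, mul_one]
          _ = (M⁻¹).det • M := by rw [← Matrix.mul_assoc, h6, Matrix.smul_mul, one_mul]
      rw [h5, Matrix.smul_mulVec, dotProduct_smul, smul_eq_mul] at h4
      exact (mul_eq_zero.mp h4).resolve_left hMi
    rcases cMb b c key with h | h
    · left; intro i; exact congrFun h i
    · right; intro i; exact congrFun h i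
  by_cases hall : ∀ Y ∈ L, ∀ i : I, Y i j0 = 0
  · left
    refine ⟨j0, ?_⟩
    intro Y hY i
    by_cases hi : p i
    · exact hall Y hY ⟨i, hi⟩
    · rw [hpj i hi]; exact (hblock Y hY j0 j0 hj0 hj0).1
  · right
    push Not at hall
    obtain ⟨Y1, hY1, i1, hi1⟩ := hall
    refine ⟨j0, ?_⟩
    intro Y hY i
    by_cases hi : p i
    · by_contra hne
      have hY1c : ∀ i : I, Y1 j0 i = 0 := by
        rcases hbc Y1 hY1 with h | h
        · exact h
        · exact absurd (h i1) hi1
      have hYb : ∀ i : I, Y i j0 = 0 := by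
        rcases hbc Y hY with h | h
        · exact absurd (h ⟨i, hi⟩) hne
        · exact h
      rcases hbc (Y1 + Y) (L.add_mem hY1 hY) with h | h
      · have := h ⟨i, hi⟩
        rw [Matrix.add_apply, hY1c, zero_add] at this
        exact hne this
      · have := h i1
        rw [Matrix.add_apply, hYb, add_zero] at this
        exact hi1 this
    · rw [hpj i hi]; exact (hblock Y hY j0 j0 hj0 hj0).1

/-- **Dieudonné's theorem** for the maximal dimension. -/
theorem dieu {n : ℕ} (hn : 1 ≤ n) (L : Submodule ℂ (Matrix (Fin n) (Fin n) ℂ))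
    (hL : ∀ X ∈ L, X.det = 0) :
    finrank ℂ L ≤ n * n - n ∧ (n * n - n ≤ finrank ℂ L →
      (∃ u : Fin n → ℂ, u ≠ 0 ∧ ∀ X ∈ L, X *ᵥ u = 0) ∨
      (∃ w : Fin n → ℂ, w ≠ 0 ∧ ∀ X ∈ L, w ᵥ* X = 0)) := by
  classical
  obtain ⟨X0, hX0, hmax⟩ : ∃ X0 ∈ L, ∀ X ∈ L, X.rank ≤ X0.rank := by
    have hfin : (Set.range fun X : L => (X : Matrix (Fin n) (Fin n) ℂ).rank).Finite := by
      apply (Set.finite_Iic n).subset
      rintro _ ⟨X, rfl⟩
      have := Matrix.rank_le_card_width (X : Matrix (Fin n) (Fin n) ℂ)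
      rwa [Fintype.card_fin] at this
    obtain ⟨_, ⟨X0, rfl⟩, h⟩ := Set.exists_max_image _ id hfin ⟨_, ⟨0, rfl⟩⟩
    exact ⟨X0, X0.2, fun X hX => h _ ⟨⟨X, hX⟩, rfl⟩⟩
  obtain ⟨l1, l2, D, hD⟩ := Matrix.Pivot.exists_list_transvec_mul_mul_list_transvec_eq_diagonal X0
  set P := (List.map TransvectionStruct.toMatrix l1).prod with hP
  set Q := (List.map TransvectionStruct.toMatrix l2).prod with hQ
  have hPd : P.det = 1 := TransvectionStruct.det_toMatrix_prod l1
  have hQd : Q.det = 1 := TransvectionStruct.det_toMatrix_prod l2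
  let p : Fin n → Prop := fun i => D i ≠ 0
  set S : Matrix (Fin n) (Fin n) ℂ := diagonal (fun i => if D i = 0 then 1 else (D i)⁻¹) with hS
  have hSd : S.det ≠ 0 := by
    rw [hS, Matrix.det_diagonal, Finset.prod_ne_zero_iff]
    intro i _
    split_ifs with h
    · exact one_ne_zero
    · exact inv_ne_zero h
  set P' := S * P with hP'
  have hP'd : P'.det ≠ 0 := by rw [hP', Matrix.det_mul, hPd, mul_one]; exact hSd
  have hP'u : IsUnit P'.det := isUnit_iff_ne_zero.mpr hP'd
  have hQu : IsUnit Q.det := by rw [hQd]; exact isUnit_one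
  let Φ : Matrix (Fin n) (Fin n) ℂ →ₗ[ℂ] Matrix (Fin n) (Fin n) ℂ :=
    { toFun := fun X => P' * X * Q
      map_add' := by intro a b; rw [Matrix.mul_add, Matrix.add_mul]
      map_smul' := by intro c a; rw [Matrix.mul_smul, Matrix.smul_mul]; rfl }
  have hΦ : ∀ X, Φ X = P' * X * Q := fun _ => rfl
  have hΦinj : Function.Injective Φ := by
    intro a b hab
    rw [hΦ, hΦ] at hab
    have h1 : P' * a = P' * b := by
      have := congrArg (· * Q⁻¹) hab
      simp only [Matrix.mul_assoc, Matrix.mul_nonsing_inv _ hQu, Matrix.mul_one] at this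
      exact this
    have := congrArg (P'⁻¹ * ·) h1
    simp only [← Matrix.mul_assoc, Matrix.nonsing_inv_mul _ hP'u, Matrix.one_mul] at this
    exact this
  have hrk : ∀ X, (Φ X).rank = X.rank := by
    intro X
    rw [hΦ, Matrix.rank_mul_eq_left_of_isUnit_det _ _ hQu, Matrix.rank_mul_eq_right_of_isUnit_det _ _ hP'u]
  have hcard : X0.rank = Fintype.card {i // p i} := by
    have h1 : (diagonal D).rank = X0.rank := by
      rw [← hD, Matrix.rank_mul_eq_left_of_isUnit_det _ _ hQu,
        Matrix.rank_mul_eq_right_of_isUnit_det _ _ (by rw [hPd]; exact isUnit_one)]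
    rw [← h1, Matrix.rank_diagonal]
  have hΦ0 : Φ X0 = diagonal (fun i => if p i then (1 : ℂ) else 0) := by
    rw [hΦ, hP', Matrix.mul_assoc, Matrix.mul_assoc, ← Matrix.mul_assoc P, hD, hS,
      Matrix.diagonal_mul_diagonal]
    congr 1
    funext i
    by_cases h : D i = 0
    · simp [p, h]
    · simp [p, h]
  set L' := L.map Φ with hL'
  have hfr : finrank ℂ L' = finrank ℂ L := by
    rw [hL']
    exact (Submodule.equivMapOfInjective Φ hΦinj L).finrank_eq.symm
  have hrlt : Fintype.card {i // p i} < n := by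
    rw [← hcard]
    by_contra hge
    push Not at hge
    have h1 := Matrix.rank_le_card_width X0
    rw [Fintype.card_fin] at h1
    have h2 : X0.rank = Fintype.card (Fin n) := by rw [Fintype.card_fin]; omega
    have h3 : IsUnit X0 := by
      rw [← Matrix.linearIndependent_rows_iff_isUnit]
      rw [linearIndependent_iff_card_eq_finrank_span, ← h2, Matrix.rank_eq_finrank_span_row]
      rfl
    rw [Matrix.isUnit_iff_isUnit_det, hL X0 hX0] at h3
    simp at h3
  have hp : ∃ j, ¬ p j := by
    by_contra hall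
    push Not at hall
    have : Fintype.card {i // p i} = n := by
      rw [Fintype.card_subtype, Finset.filter_true_of_mem (fun i _ => hall i), Finset.card_univ,
        Fintype.card_fin]
    omega
  obtain ⟨h1, h2⟩ := nf p L' (by rw [← hΦ0]; exact Submodule.mem_map_of_mem hX0) (by
    rintro _ ⟨X, hX, rfl⟩
    rw [hrk, ← hcard]
    exact hmax X hX) hp
  have h4 : n * n - n = (n - 1) * n := by rw [Nat.sub_mul, one_mul]
  refine ⟨?_, ?_⟩
  · rw [← hfr, h4]
    exact h1.trans (Nat.mul_le_mul_right n (by omega))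
  · intro hdim
    rw [← hfr] at hdim
    rcases h2 hdim with ⟨j0, hj0⟩ | ⟨j0, hj0⟩
    · left
      refine ⟨Q *ᵥ Pi.single j0 1, ?_, ?_⟩
      · intro h0
        have : (Pi.single j0 1 : Fin n → ℂ) = 0 := by
          have h6 : Q⁻¹ *ᵥ (Q *ᵥ (Pi.single j0 1 : Fin n → ℂ)) = Pi.single j0 1 := by
            rw [Matrix.mulVec_mulVec, Matrix.nonsing_inv_mul _ hQu, Matrix.one_mulVec]
          rw [← h6, h0, Matrix.mulVec_zero]
        have := congrFun this j0
        simp at this
      · intro X hX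
        have h5 : (P' * X * Q) *ᵥ Pi.single j0 1 = 0 := by
          funext i
          rw [Matrix.mulVec_single_one]
          exact hj0 _ (Submodule.mem_map_of_mem hX) i
        rw [Matrix.mul_assoc, ← Matrix.mulVec_mulVec] at h5
        have := congrArg (P'⁻¹ *ᵥ ·) h5
        simp only [Matrix.mulVec_mulVec, Matrix.mulVec_zero] at this
        rw [← Matrix.mul_assoc, Matrix.nonsing_inv_mul _ hP'u, Matrix.one_mul,
          ← Matrix.mulVec_mulVec] at this
        exact this
    · right
      refine ⟨Pi.single j0 1 ᵥ* P', ?_, ?_⟩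
      · intro h0
        have : (Pi.single j0 1 : Fin n → ℂ) = 0 := by
          have h6 : ((Pi.single j0 1 : Fin n → ℂ) ᵥ* P') ᵥ* P'⁻¹ = Pi.single j0 1 := by
            rw [Matrix.vecMul_vecMul, Matrix.mul_nonsing_inv _ hP'u, Matrix.vecMul_one]
          rw [← h6, h0, Matrix.zero_vecMul]
        have := congrFun this j0
        simp at this
      · intro X hX
        have h5 : Pi.single j0 1 ᵥ* (P' * X * Q) = 0 := by
          funext i
          rw [Matrix.single_one_vecMul]
          exact hj0 _ (Submodule.mem_map_of_mem hX) i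
        rw [← Matrix.vecMul_vecMul, ← Matrix.vecMul_vecMul] at h5
        have := congrArg (· ᵥ* Q⁻¹) h5
        simp only [Matrix.zero_vecMul] at this
        rw [Matrix.vecMul_vecMul _ Q, Matrix.mul_nonsing_inv _ hQu, Matrix.vecMul_one] at this
        exact this

end H598R5
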