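import Mathlib
import Pool.Agent.H598R5.Coset

open MvPolynomial

namespace H598R5

variable {GG σ : Type} [Group GG] [Finite σ] (K : Coord GG σ)

/-- The image of a homomorphism of algebraic groups is closed. -/
theorem image_closed {τ κ : Type} [Finite τ] (E : κ → (τ → ℂ) → ℂ) (hE : ∀ i, IsPoly (E i))
    (Φ : (τ → ℂ) → (σ → ℂ)) (hΦ : ∀ s, IsPoly (fun z => Φ z s)) (R : Subgroup GG)
    (h1 : ∀ z : τ → ℂ, (∀ i, E i z = 0) → ∃ r ∈ R, Φ z = K.c r)
    (h2 : ∀ r ∈ R, ∃ z : τ → ℂ, (∀ i, E i z = 0) ∧ Φ z = K.c r) : K.Closed (R : Set GG) := by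
  classical
  obtain ⟨u, ⟨z0, hz0, hu0⟩, hu⟩ := chev' E hE {z | ∀ i, E i z = 0}
    (by obtain ⟨z, hz, -⟩ := h2 1 R.one_mem; exact ⟨z, hz⟩) rfl Φ hΦ
  set Z : Set GG := {y | ∀ p ∈ K.V R, eval (K.c y) p = 0} with hZ
  have hRZ : ∀ r ∈ R, r ∈ Z := fun r hr p hp => K.mem_V.mp hp r hr
  -- `Z` is stable under multiplication by `R`
  have hst : ∀ g ∈ R, ∀ b ∈ R, ∀ y ∈ Z, g * y * b ∈ Z := by
    intro g hg b hb y hy p hp
    obtain ⟨q, hq⟩ := K.transl g b p
    rw [← hq]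
    apply hy
    rw [K.mem_V]
    intro w hw
    rw [hq]
    exact K.mem_V.mp hp _ (R.mul_mem (R.mul_mem hg hw) hb)
  have hmulZ : ∀ y ∈ Z, ∀ z ∈ Z, z * y ∈ Z := by
    intro y hy z hz p hp
    obtain ⟨q, hq⟩ := K.transl 1 y p
    have : eval (K.c z) q = eval (K.c (z * y)) p := by rw [hq, one_mul]
    rw [← this]
    apply hz
    rw [K.mem_V]
    intro w hw
    rw [hq]
    have := hst w hw 1 R.one_mem y hy p hp
    simpa using this
  have hinvZ : ∀ y ∈ Z, y⁻¹ ∈ Z := by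
    intro y hy
    let I : ℕ → Ideal (MvPolynomial σ ℂ) := fun k => K.V ((fun z => y ^ k * z) '' Z)
    obtain ⟨J, ⟨k, rfl⟩, hmax⟩ := (wellFounded_gt (α := Ideal (MvPolynomial σ ℂ))).has_min
      (Set.range I) ⟨_, 0, rfl⟩
    have hle : I k ≤ I (k + 1) := by
      intro p hp
      rw [K.mem_V] at hp ⊢
      rintro _ ⟨z, hz, rfl⟩
      apply hp
      exact ⟨y * z, hmulZ z hz y hy, by simp only [pow_succ]; group⟩
    have heq : I (k + 1) = I k := by
      by_contra hne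
      exact hmax (I (k + 1)) ⟨_, rfl⟩ (lt_of_le_of_ne hle (Ne.symm hne))
    intro p hp
    obtain ⟨q, hq⟩ := K.transl (y ^ (k + 1))⁻¹ 1 p
    have hqI : q ∈ I (k + 1) := by
      show q ∈ K.V _
      rw [K.mem_V]
      rintro _ ⟨z, hz, rfl⟩
      rw [hq]
      have : (y ^ (k + 1))⁻¹ * (y ^ (k + 1) * z) * 1 = z := by group
      simp only at this ⊢
      rw [this]
      exact hz p hp
    rw [heq] at hqI
    have h3 := K.mem_V.mp hqI (y ^ k * 1) ⟨1, hRZ 1 R.one_mem, rfl⟩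
    rw [hq] at h3
    have : (y ^ (k + 1))⁻¹ * (y ^ k * 1) * 1 = y⁻¹ := by
      rw [pow_succ]; group
    rwa [this] at h3
  have hZR : Z ⊆ (R : Set GG) := by
    intro y hy
    obtain ⟨r0, hr0, hr0'⟩ := h1 z0 hz0
    rw [hr0'] at hu0
    -- some `r` with `u (y r) ≠ 0`
    have hex : ∃ r ∈ R, eval (K.c (y * r)) u ≠ 0 := by
      by_contra hall
      push Not at hall
      obtain ⟨q, hq⟩ := K.transl y 1 u
      have hqV : q ∈ K.V R := by
        rw [K.mem_V]
        intro r hr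
        rw [hq, mul_one]
        exact hall r hr
      have h4 : y⁻¹ * r0 ∈ Z := by
        have := hst 1 R.one_mem r0 hr0 y⁻¹ (hinvZ y hy)
        simpa using this
      have h5 := h4 q hqV
      rw [hq] at h5
      apply hu0
      rw [← h5]
      congr 2
      group
    obtain ⟨r, hr, hur⟩ := hex
    have hyr : y * r ∈ Z := by
      have := hst 1 R.one_mem r hr y hy
      simpa using this
    obtain ⟨z, hz, hzy⟩ := hu (K.c (y * r)) (by
      intro p hp
      apply hyr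
      rw [K.mem_V]
      intro w hw
      obtain ⟨z, hz, hzw⟩ := h2 w hw
      rw [← hzw]
      exact hp z hz) hur
    obtain ⟨r', hr', hzr'⟩ := h1 z hz
    rw [hzy] at hzr'
    have h6 := K.inj hzr'
    have : y = r' * r⁻¹ := by rw [← h6]; group
    rw [this]
    exact R.mul_mem hr' (R.inv_mem hr)
  refine ⟨(K.V R : Set (MvPolynomial σ ℂ)), ?_⟩
  apply le_antisymm
  · intro r hr p hp
    exact K.mem_V.mp hp r hr
  · exact hZR

end H598R5
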