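import Mathlib

open Polynomial Filter Topology

namespace H598R5

theorem decay_step {E : Type*} [NormedAddCommGroup E] [NormedSpace ℂ E] (f : E →ₗ[ℂ] E) (a : ℂ)
    (ha : ‖a‖ < 1) (v : E) (h : ∃ C ρ : ℝ, 0 ≤ ρ ∧ ρ < 1 ∧ ∀ N : ℕ, ‖(f ^ N) (f v - a • v)‖ ≤ C * ρ ^ N) :
    ∃ C ρ : ℝ, 0 ≤ ρ ∧ ρ < 1 ∧ ∀ N : ℕ, ‖(f ^ N) v‖ ≤ C * ρ ^ N := by
  obtain ⟨C, ρ, hρ0, hρ1, hC⟩ := h
  set r : ℝ := (max ρ ‖a‖ + 1) / 2 with hr
  have hm : max ρ ‖a‖ < 1 := max_lt hρ1 ha
  have hr1 : r < 1 := by rw [hr]; linarith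
  have hr2 : max ρ ‖a‖ < r := by rw [hr]; linarith
  have hrρ : ρ < r := lt_of_le_of_lt (le_max_left _ _) hr2
  have hra : ‖a‖ < r := lt_of_le_of_lt (le_max_right _ _) hr2
  have hr0 : 0 < r := lt_of_le_of_lt hρ0 hrρ
  have hC0 : 0 ≤ C := by
    have := hC 0
    simp only [pow_zero, mul_one] at this
    exact le_trans (norm_nonneg _) this
  set C' : ℝ := max ‖v‖ (C / (r - ‖a‖)) with hC'
  have hd : 0 < r - ‖a‖ := by linarith
  have hCC : C ≤ C' * (r - ‖a‖) := by
    have h1 : C / (r - ‖a‖) ≤ C' := le_max_right _ _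
    rw [div_le_iff₀ hd] at h1
    exact h1
  refine ⟨C', r, hr0.le, hr1, ?_⟩
  intro N
  induction N with
  | zero => simp only [pow_zero, mul_one]; exact le_max_left _ _
  | succ N ih =>
    have h1 : (f ^ (N + 1)) v = a • (f ^ N) v + (f ^ N) (f v - a • v) := by
      rw [pow_succ, Module.End.mul_apply, map_sub, map_smul]
      abel
    rw [h1]
    have h2 : ρ ^ N ≤ r ^ N := pow_le_pow_left₀ hρ0 hrρ.le N
    have h3 : (0 : ℝ) ≤ r ^ N := pow_nonneg hr0.le N
    calc ‖a • (f ^ N) v + (f ^ N) (f v - a • v)‖ ≤ ‖a • (f ^ N) v‖ + ‖(f ^ N) (f v - a • v)‖ :=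
          norm_add_le _ _
      _ ≤ ‖a‖ * (C' * r ^ N) + C * r ^ N := by
          rw [norm_smul]
          refine add_le_add (mul_le_mul_of_nonneg_left ih (norm_nonneg _)) ?_
          exact (hC N).trans (mul_le_mul_of_nonneg_left h2 hC0)
      _ ≤ ‖a‖ * (C' * r ^ N) + (C' * (r - ‖a‖)) * r ^ N := by
          gcongr
      _ = C' * r ^ (N + 1) := by ring

theorem decay {E : Type*} [NormedAddCommGroup E] [NormedSpace ℂ E] (f : E →ₗ[ℂ] E)
    (M : Multiset ℂ) (hM : ∀ a ∈ M, ‖a‖ < 1) : ∀ v : E,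
    aeval f (M.map (fun a => X - C a)).prod v = 0 →
    ∃ C ρ : ℝ, 0 ≤ ρ ∧ ρ < 1 ∧ ∀ N : ℕ, ‖(f ^ N) v‖ ≤ C * ρ ^ N := by
  induction M using Multiset.induction_on with
  | empty =>
    intro v hv
    simp at hv
    exact ⟨0, 0, le_refl _, by norm_num, by intro N; simp [hv]⟩
  | cons a M ih =>
    intro v hv
    apply decay_step f a (hM a (Multiset.mem_cons_self _ _))
    apply ih (fun b hb => hM b (Multiset.mem_cons_of_mem hb))
    rw [Multiset.map_cons, Multiset.prod_cons, mul_comm, map_mul, Module.End.mul_apply] at hv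
    have : aeval f (X - C a) v = f v - a • v := by simp
    rw [this] at hv
    exact hv

theorem coprime_aux (M1 M2 : Multiset ℂ) (h1 : ∀ a ∈ M1, ‖a‖ < 1) (h2 : ∀ a ∈ M2, ¬ ‖a‖ < 1) :
    IsCoprime ((M1.map (fun a => X - C a)).prod) ((M2.map (fun a => X - C a)).prod) := by
  induction M1 using Multiset.induction_on with
  | empty => simpa using isCoprime_one_left
  | cons a M1 ih =>
    rw [Multiset.map_cons, Multiset.prod_cons]
    apply IsCoprime.mul_left
    · clear ih
      induction M2 using Multiset.induction_on with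
      | empty => simpa using isCoprime_one_right
      | cons b M2 ih =>
        rw [Multiset.map_cons, Multiset.prod_cons]
        apply IsCoprime.mul_right
        · apply isCoprime_X_sub_C_of_isUnit_sub
          rw [isUnit_iff_ne_zero, sub_ne_zero]
          intro hab
          have := h1 a (Multiset.mem_cons_self _ _)
          rw [hab] at this
          exact h2 b (Multiset.mem_cons_self _ _) this
        · exact ih (fun b hb => h2 b (Multiset.mem_cons_of_mem hb))
    · exact ih (fun b hb => h1 b (Multiset.mem_cons_of_mem hb))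

/-- existence of a stable vector with prescribed top coordinates -/
theorem stable {ι : Type} [Fintype ι] [DecidableEq ι] (f : (ι → ℂ) →ₗ[ℂ] (ι → ℂ)) (S : Set ι)
    (L : Submodule ℂ (ι → ℂ)) (χ : ι → ℂ)
    (hf : ∀ v ∈ L, f v ∈ L ∧ ∀ s ∈ S, f v s = χ s * v s) (hχ : ∀ s ∈ S, ‖χ s‖ < 1)
    (w : ι → ℂ) (hw : w ∈ L) :
    ∃ v ∈ L, (∀ s ∈ S, v s = w s) ∧ Tendsto (fun N : ℕ => (f ^ N) v) atTop (𝓝 0) := by
  classical
  have hq : ∀ q : ℂ[X], ∀ v ∈ L, aeval f q v ∈ L ∧ ∀ s ∈ S, aeval f q v s = q.eval (χ s) * v s := by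
    intro q
    induction q using Polynomial.induction_on' with
    | add p q hp hq =>
      intro v hv
      refine ⟨?_, ?_⟩
      · rw [map_add, LinearMap.add_apply]
        exact L.add_mem (hp v hv).1 (hq v hv).1
      · intro s hs
        rw [map_add, LinearMap.add_apply, Pi.add_apply, (hp v hv).2 s hs, (hq v hv).2 s hs, eval_add,
          add_mul]
    | monomial n a =>
      have hpow : ∀ n : ℕ, ∀ v ∈ L, (f ^ n) v ∈ L ∧ ∀ s ∈ S, (f ^ n) v s = (χ s) ^ n * v s := by
        intro n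
        induction n with
        | zero => intro v hv; simpa using hv
        | succ n ih =>
          intro v hv
          rw [pow_succ, Module.End.mul_apply]
          obtain ⟨h1, h2⟩ := ih _ (hf v hv).1
          refine ⟨h1, ?_⟩
          intro s hs
          rw [h2 s hs, (hf v hv).2 s hs, pow_succ]
          ring
      intro v hv
      rw [aeval_monomial, Module.End.mul_apply]
      obtain ⟨h1, h2⟩ := hpow n v hv
      refine ⟨?_, ?_⟩
      · rw [Module.algebraMap_end_apply]
        exact L.smul_mem _ h1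
      · intro s hs
        rw [Module.algebraMap_end_apply, Pi.smul_apply, h2 s hs, eval_monomial, smul_eq_mul]
        ring
  set p := f.charpoly with hp
  have hp0 : aeval f p = 0 := LinearMap.aeval_self_charpoly f
  have hmonic : p.Monic := LinearMap.charpoly_monic f
  have hroots : p = (p.roots.map (fun a => X - C a)).prod := by
    have := IsAlgClosed.splits p
    exact this.eq_prod_roots_of_monic hmonic
  set M1 := p.roots.filter (fun a => ‖a‖ < 1) with hM1
  set M2 := p.roots.filter (fun a => ¬ ‖a‖ < 1) with hM2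
  have h1 : ∀ a ∈ M1, ‖a‖ < 1 := fun a ha => (Multiset.mem_filter.mp ha).2
  have h2 : ∀ a ∈ M2, ¬ ‖a‖ < 1 := fun a ha => (Multiset.mem_filter.mp ha).2
  set p1 := (M1.map (fun a => X - C a)).prod with hp1
  set p2 := (M2.map (fun a => X - C a)).prod with hp2
  have hpp : p = p1 * p2 := by
    rw [hp1, hp2, ← Multiset.prod_add, ← Multiset.map_add, hM1, hM2, Multiset.filter_add_not]
    exact hroots
  obtain ⟨a, b, hab⟩ := coprime_aux M1 M2 h1 h2
  have hp2ne : ∀ s ∈ S, p2.eval (χ s) ≠ 0 := by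
    intro s hs h0
    rw [hp2, Polynomial.eval_multiset_prod, Multiset.prod_eq_zero_iff] at h0
    rw [Multiset.map_map, Multiset.mem_map] at h0
    obtain ⟨c, hc, hc0⟩ := h0
    simp only [Function.comp, eval_sub, eval_X, eval_C] at hc0
    have : χ s = c := sub_eq_zero.mp hc0
    exact h2 c hc (this ▸ hχ s hs)
  refine ⟨aeval f (b * p2) w, (hq _ w hw).1, ?_, ?_⟩
  · intro s hs
    rw [(hq _ w hw).2 s hs]
    have hz : p.eval (χ s) * w s = 0 := by
      rw [← (hq p w hw).2 s hs, hp0]; simp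
    rw [hpp, eval_mul] at hz
    have hz2 : p1.eval (χ s) * w s = 0 := by
      have : p2.eval (χ s) * (p1.eval (χ s) * w s) = 0 := by rw [← hz]; ring
      rcases mul_eq_zero.mp this with h | h
      · exact absurd h (hp2ne s hs)
      · exact h
    have he : (b * p2).eval (χ s) = 1 - (a * p1).eval (χ s) := by
      have := congrArg (fun q => q.eval (χ s)) hab
      simp only [eval_add, eval_one] at this
      linear_combination this
    rw [he, sub_mul, one_mul, eval_mul, mul_assoc, hz2, mul_zero, sub_zero]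
  · obtain ⟨Cc, ρ, hρ0, hρ1, hC⟩ := decay f M1 h1 (aeval f (b * p2) w) (by
      rw [← hp1, ← Module.End.mul_apply, ← map_mul]
      have : p1 * (b * p2) = b * p := by rw [hpp]; ring
      rw [this, map_mul, hp0, mul_zero]
      rfl)
    rw [tendsto_zero_iff_norm_tendsto_zero]
    apply squeeze_zero (fun N => norm_nonneg _) hC
    have := (tendsto_pow_atTop_nhds_zero_of_lt_one hρ0 hρ1).const_mul Cc
    simpa using this

end H598R5
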