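import Mathlib
import Pool.Agent.H598R5.Stable

open Matrix Filter Topology
open scoped Kronecker

namespace H598R5

/-- index set of the coordinates of an `m`-tuple of `n × n` matrices -/
abbrev Idx (m n : ℕ) : Type := Fin m × Fin n × Fin n

/-- the matrix `∑ c_i X_i` of the tuple `v` -/
def sl {m n : ℕ} (c : Fin m → ℂ) (v : Idx m n → ℂ) : Matrix (Fin n) (Fin n) ℂ :=
  Matrix.of fun j k => ∑ i, c i * v (i, j, k)

/-- singular tuples -/
def SING (m n : ℕ) : Set (Idx m n → ℂ) := {v | ∀ c : Fin m → ℂ, (sl c v).det = 0}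

abbrev GG (m n : ℕ) : Type := GL (Fin m) ℂ × GL (Fin n) ℂ × GL (Fin n) ℂ

/-- the matrix of the action -/
def T {m n : ℕ} (g : GG m n) : Matrix (Idx m n) (Idx m n) ℂ :=
  (g.1 : Matrix (Fin m) (Fin m) ℂ) ⊗ₖ
    ((g.2.1 : Matrix (Fin n) (Fin n) ℂ) ⊗ₖ (g.2.2 : Matrix (Fin n) (Fin n) ℂ))

variable {m n : ℕ}

theorem T_mul (g h : GG m n) : T (g * h) = T g * T h := by
  unfold T
  rw [← Matrix.mul_kronecker_mul, ← Matrix.mul_kronecker_mul]
  rfl

theorem T_one : T (1 : GG m n) = 1 := by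
  unfold T
  simp

theorem T_apply (g : GG m n) (s t : Idx m n) : T g s t =
    (g.1 : Matrix (Fin m) (Fin m) ℂ) s.1 t.1 * ((g.2.1 : Matrix (Fin n) (Fin n) ℂ) s.2.1 t.2.1 *
      (g.2.2 : Matrix (Fin n) (Fin n) ℂ) s.2.2 t.2.2) := rfl

theorem T_mulVec (g : GG m n) (v : Idx m n → ℂ) (i : Fin m) (j k : Fin n) :
    (T g *ᵥ v) (i, j, k) = ∑ i', ∑ j', ∑ k', (g.1 : Matrix (Fin m) (Fin m) ℂ) i i' *
      ((g.2.1 : Matrix (Fin n) (Fin n) ℂ) j j' * (g.2.2 : Matrix (Fin n) (Fin n) ℂ) k k') *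
        v (i', j', k') := by
  rw [Matrix.mulVec, dotProduct, Fintype.sum_prod_type]
  apply Finset.sum_congr rfl
  intro i' _
  rw [Fintype.sum_prod_type]
  rfl

theorem sl_T (g : GG m n) (c : Fin m → ℂ) (v : Idx m n → ℂ) :
    sl c (T g *ᵥ v) = (g.2.1 : Matrix (Fin n) (Fin n) ℂ) *
      sl (c ᵥ* (g.1 : Matrix (Fin m) (Fin m) ℂ)) v * (g.2.2 : Matrix (Fin n) (Fin n) ℂ)ᵀ := by
  ext j k
  rw [Matrix.mul_apply]
  simp only [Matrix.mul_apply, sl, Matrix.of_apply, Matrix.transpose_apply, T_mulVec,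
    Matrix.vecMul, dotProduct]
  simp only [Finset.mul_sum, Finset.sum_mul]
  -- LHS: i, i', j', k'    RHS: k', j', i', i
  rw [Finset.sum_comm]
  conv_lhs => enter [2, i']; rw [Finset.sum_comm]
  conv_lhs => enter [2, i', 2, j']; rw [Finset.sum_comm]
  conv_lhs => rw [Finset.sum_comm]
  conv_lhs => enter [2, j']; rw [Finset.sum_comm]
  rw [Finset.sum_comm]
  apply Finset.sum_congr rfl
  intro k' _
  apply Finset.sum_congr rfl
  intro j' _
  apply Finset.sum_congr rfl
  intro i' _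
  apply Finset.sum_congr rfl
  intro i _
  ring

theorem SING_T {v : Idx m n → ℂ} (hv : v ∈ SING m n) (g : GG m n) : T g *ᵥ v ∈ SING m n := by
  intro c
  rw [sl_T, Matrix.det_mul, Matrix.det_mul, hv, mul_zero, zero_mul]

theorem SING_T_iff {v : Idx m n → ℂ} (g : GG m n) : T g *ᵥ v ∈ SING m n ↔ v ∈ SING m n := by
  constructor
  · intro h
    have := SING_T h g⁻¹
    rwa [Matrix.mulVec_mulVec, ← T_mul, inv_mul_cancel, T_one, Matrix.one_mulVec] at this
  · exact fun h => SING_T h g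

def cond (i j : ℕ) : Prop := (i ≤ 2 ∧ j ≤ 2 ∧ i ≠ j) ∨ (i = 1 ∧ 3 ≤ j)

instance (i j : ℕ) : Decidable (cond i j) := by unfold cond; infer_instance

noncomputable def cf (s : ℂ) (i j : ℕ) : ℂ := if i = 2 ∧ j = 0 then s else 1

/-- the test tensors -/
noncomputable def eps (m n : ℕ) (s : ℂ) : Idx m n → ℂ := fun p =>
  if cond p.1 p.2.1 ∧ (p.1 : ℕ) + p.2.1 + p.2.2 = n then cf s p.1 p.2.1 else 0

/-- extension by zero -/
noncomputable def ext0 {n : ℕ} (x : Fin n → ℂ) (a : ℕ) : ℂ := if h : a < n then x ⟨a, h⟩ else 0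

theorem rowsum (hn : 3 ≤ n) (s : ℂ) (i : Fin m) (j : Fin n) (x : Fin n → ℂ) :
    ∑ k, eps m n s (i, j, k) * x k =
      if cond i j then cf s i j * ext0 x (n - i - j) else 0 := by
  by_cases h : cond i j
  · rw [if_pos h]
    have hj := j.2
    have h1 : n - (i : ℕ) - j < n := by unfold cond at h; omega
    have h2 : (i : ℕ) + j ≤ n := by unfold cond at h; omega
    rw [Finset.sum_eq_single ⟨n - (i : ℕ) - j, h1⟩]
    · unfold eps ext0
      rw [dif_pos h1, if_pos]
      exact ⟨h, by simp only; omega⟩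
    · intro k _ hk
      unfold eps
      rw [if_neg, zero_mul]
      rintro ⟨-, h3⟩
      apply hk
      apply Fin.ext
      simp only at h3 ⊢
      omega
    · intro h3; exact absurd (Finset.mem_univ _) h3
  · rw [if_neg h]
    apply Finset.sum_eq_zero
    intro k _
    unfold eps
    rw [if_neg, zero_mul]
    rintro ⟨h3, -⟩
    exact h h3

theorem sl_eps_mulVec (hn : 3 ≤ n) (s : ℂ) (c : Fin m → ℂ) (j : Fin n) (x : Fin n → ℂ) :
    (sl c (eps m n s) *ᵥ x) j =
      ∑ i : Fin m, c i * (if cond i j then cf s i j * ext0 x (n - i - j) else 0) := by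
  rw [Matrix.mulVec, dotProduct]
  simp only [sl, Matrix.of_apply, Finset.sum_mul]
  rw [Finset.sum_comm]
  apply Finset.sum_congr rfl
  intro i _
  rw [← rowsum hn s i j x, Finset.mul_sum]
  apply Finset.sum_congr rfl
  intro k _
  ring

theorem sum3 {m : ℕ} (hm : 3 ≤ m) (F : Fin m → ℂ) (hF : ∀ i : Fin m, 3 ≤ (i : ℕ) → F i = 0) :
    ∑ i, F i = F ⟨0, by omega⟩ + F ⟨1, by omega⟩ + F ⟨2, by omega⟩ := by
  obtain ⟨m, rfl⟩ : ∃ m', m = m' + 3 := ⟨m - 3, by omega⟩
  rw [Fin.sum_univ_succ, Fin.sum_univ_succ, Fin.sum_univ_succ]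
  have : ∑ i : Fin m, F i.succ.succ.succ = 0 := by
    apply Finset.sum_eq_zero
    intro i _
    apply hF
    simp
  rw [this]
  simp only [add_zero]
  rw [← add_assoc]
  rfl

theorem row0 (hm : 3 ≤ m) (hn : 3 ≤ n) (s : ℂ) (c : Fin m → ℂ) (x : Fin n → ℂ) :
    (sl c (eps m n s) *ᵥ x) ⟨0, by omega⟩ =
      c ⟨1, by omega⟩ * ext0 x (n - 1) + c ⟨2, by omega⟩ * (s * ext0 x (n - 2)) := by
  rw [sl_eps_mulVec hn, sum3 hm]
  · simp [cond, cf]
  · intro i hi
    rw [if_neg, mul_zero]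
    unfold cond; simp only; omega

theorem row1 (hm : 3 ≤ m) (hn : 3 ≤ n) (s : ℂ) (c : Fin m → ℂ) (x : Fin n → ℂ) :
    (sl c (eps m n s) *ᵥ x) ⟨1, by omega⟩ =
      c ⟨0, by omega⟩ * ext0 x (n - 1) + c ⟨2, by omega⟩ * (ext0 x (n - 3)) := by
  rw [sl_eps_mulVec hn, sum3 hm]
  · simp [cond, cf, Nat.sub_sub]
  · intro i hi
    rw [if_neg, mul_zero]
    unfold cond; simp only; omega

theorem row2 (hm : 3 ≤ m) (hn : 3 ≤ n) (s : ℂ) (c : Fin m → ℂ) (x : Fin n → ℂ) :
    (sl c (eps m n s) *ᵥ x) ⟨2, by omega⟩ =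
      c ⟨0, by omega⟩ * ext0 x (n - 2) + c ⟨1, by omega⟩ * (ext0 x (n - 3)) := by
  rw [sl_eps_mulVec hn, sum3 hm]
  · simp [cond, cf, Nat.sub_sub]
  · intro i hi
    rw [if_neg, mul_zero]
    unfold cond; simp only; omega

theorem row3 (hm : 3 ≤ m) (hn : 3 ≤ n) (s : ℂ) (c : Fin m → ℂ) (x : Fin n → ℂ) (j : Fin n)
    (hj : 3 ≤ (j : ℕ)) :
    (sl c (eps m n s) *ᵥ x) j = c ⟨1, by omega⟩ * ext0 x (n - 1 - j) := by
  rw [sl_eps_mulVec hn, sum3 hm]
  · have h0 : ¬ cond 0 j := by unfold cond; omega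
    have h1 : cond 1 j := by unfold cond; omega
    have h2 : ¬ cond 2 j := by unfold cond; omega
    simp only [if_neg h0, if_pos h1, if_neg h2, cf]
    simp
  · intro i hi
    rw [if_neg, mul_zero]
    unfold cond; omega

theorem eps_SING (hm : 3 ≤ m) (hn : 3 ≤ n) : eps m n (-1) ∈ SING m n := by
  intro c
  by_cases hc : c ⟨0, by omega⟩ = 0 ∧ c ⟨1, by omega⟩ = 0 ∧ c ⟨2, by omega⟩ = 0
  · obtain ⟨h0, h1, h2⟩ := hc
    have : sl c (eps m n (-1)) = 0 := by
      ext j k
      simp only [sl, Matrix.of_apply, Matrix.zero_apply]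
      rw [sum3 hm]
      · rw [h0, h1, h2]; simp
      · intro i hi
        have : ¬ cond i j := by unfold cond; omega
        unfold eps
        rw [if_neg, mul_zero]
        rintro ⟨h3, -⟩
        exact this h3
    rw [this]
    haveI : Nonempty (Fin n) := ⟨⟨0, by omega⟩⟩
    exact Matrix.det_zero
  · rw [← Matrix.exists_mulVec_eq_zero_iff]
    let x : Fin n → ℂ := fun k => if (k : ℕ) = n - 1 then c ⟨2, by omega⟩ else
      if (k : ℕ) = n - 2 then c ⟨1, by omega⟩ else
      if (k : ℕ) = n - 3 then - c ⟨0, by omega⟩ else 0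
    have e1 : ext0 x (n - 1) = c ⟨2, by omega⟩ := by
      unfold ext0
      rw [dif_pos (by omega)]
      simp [x]
    have e2 : ext0 x (n - 2) = c ⟨1, by omega⟩ := by
      unfold ext0
      rw [dif_pos (by omega)]
      simp only [x]
      rw [if_neg (by omega), if_pos trivial]
    have e3 : ext0 x (n - 3) = - c ⟨0, by omega⟩ := by
      unfold ext0
      rw [dif_pos (by omega)]
      simp only [x]
      rw [if_neg (by omega), if_neg (by omega), if_pos trivial]
    refine ⟨x, ?_, ?_⟩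
    · intro hx
      apply hc
      refine ⟨?_, ?_, ?_⟩
      · have : ext0 x (n - 3) = 0 := by rw [hx]; unfold ext0; simp
        rw [e3] at this; exact neg_eq_zero.mp this
      · have : ext0 x (n - 2) = 0 := by rw [hx]; unfold ext0; simp
        rw [e2] at this; exact this
      · have : ext0 x (n - 1) = 0 := by rw [hx]; unfold ext0; simp
        rw [e1] at this; exact this
    · funext j
      obtain ⟨j, hj⟩ := j
      show (sl c (eps m n (-1)) *ᵥ x) ⟨j, hj⟩ = 0
      by_cases h3 : 3 ≤ j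
      · rw [row3 hm hn _ _ _ _ h3]
        have : ext0 x (n - 1 - j) = 0 := by
          unfold ext0
          rw [dif_pos (by omega)]
          simp only [x]
          rw [if_neg (by omega), if_neg (by omega), if_neg (by omega)]
        simp only at this ⊢
        rw [this, mul_zero]
      · interval_cases j
        · rw [row0 hm hn, e1, e2]; ring
        · rw [row1 hm hn, e1, e3]; ring
        · rw [row2 hm hn, e2, e3]; ring

theorem det_eps_ne (hm : 3 ≤ m) (hn : 3 ≤ n) :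
    (sl (fun _ => 1) (eps m n 1)).det ≠ 0 := by
  intro h
  rw [← Matrix.exists_mulVec_eq_zero_iff] at h
  obtain ⟨x, hx, hx0⟩ := h
  apply hx
  have h0 := congrFun hx0 ⟨0, by omega⟩
  have h1 := congrFun hx0 ⟨1, by omega⟩
  have h2 := congrFun hx0 ⟨2, by omega⟩
  rw [row0 hm hn] at h0
  rw [row1 hm hn] at h1
  rw [row2 hm hn] at h2
  simp only [one_mul, Pi.zero_apply] at h0 h1 h2
  have a1 : ext0 x (n - 1) = 0 := by linear_combination (1/2 : ℂ) * (h0 + h1 - h2)
  have a2 : ext0 x (n - 2) = 0 := by linear_combination (1/2 : ℂ) * (h0 - h1 + h2)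
  have a3 : ext0 x (n - 3) = 0 := by linear_combination (1/2 : ℂ) * (h1 + h2 - h0)
  funext k
  have hk : ext0 x k = x k := by
    unfold ext0; rw [dif_pos k.2]
  rw [← hk]
  by_cases c1 : (k : ℕ) = n - 1
  · rw [c1, a1]; rfl
  by_cases c2 : (k : ℕ) = n - 2
  · rw [c2, a2]; rfl
  by_cases c3 : (k : ℕ) = n - 3
  · rw [c3, a3]; rfl
  have hk2 := k.2
  have h3 := congrFun hx0 ⟨n - 1 - k, by omega⟩
  rw [row3 hm hn _ _ _ _ (by simp only; omega)] at h3
  simp only [one_mul, Pi.zero_apply] at h3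
  have : n - 1 - (n - 1 - (k : ℕ)) = k := by omega
  rw [this] at h3
  rw [h3]; rfl

/-- tensors with prescribed top part are nonsingular -/
theorem top_nonsing (hm : 3 ≤ m) (hn : 3 ≤ n) (v : Idx m n → ℂ)
    (hv : ∀ p : Idx m n, n ≤ (p.1 : ℕ) + p.2.1 + p.2.2 → v p = eps m n 1 p) : v ∉ SING m n := by
  intro hS
  let N : ℂ → Matrix (Fin n) (Fin n) ℂ := fun s => Matrix.of fun j k =>
    ∑ i : Fin m, v (i, j, k) * s ^ (n - ((i : ℕ) + j + k))
  have hcont : Continuous fun s => (N s).det := by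
    apply Continuous.matrix_det
    apply continuous_matrix
    intro j k
    show Continuous fun s : ℂ => ∑ i : Fin m, v (i, j, k) * s ^ (n - ((i : ℕ) + j + k))
    fun_prop
  have hzero : ∀ s : ℂ, s ≠ 0 → (N s).det = 0 := by
    intro s hs
    have hN : N s = Matrix.diagonal (fun j : Fin n => s ^ n * (s ^ (j : ℕ))⁻¹) *
        sl (fun i => (s ^ (i : ℕ))⁻¹) v * Matrix.diagonal (fun k : Fin n => (s ^ (k : ℕ))⁻¹) := by
      ext j k
      rw [Matrix.mul_diagonal, Matrix.diagonal_mul]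
      simp only [N, sl, Matrix.of_apply]
      rw [Finset.mul_sum, Finset.sum_mul]
      apply Finset.sum_congr rfl
      intro i _
      by_cases h : n < (i : ℕ) + j + k
      · rw [hv _ (le_of_lt h)]
        have : eps m n 1 (i, j, k) = 0 := by
          unfold eps
          rw [if_neg]
          rintro ⟨-, h3⟩
          simp only at h3
          omega
        rw [this]; ring
      · have h4 : s ^ n = s ^ (n - ((i : ℕ) + j + k)) * (s ^ (i : ℕ) * s ^ (j : ℕ) * s ^ (k : ℕ)) := by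
          rw [← pow_add, ← pow_add, ← pow_add]
          congr 1
          omega
        rw [h4]
        have p1 : s ^ (i : ℕ) ≠ 0 := pow_ne_zero _ hs
        have p2 : s ^ (j : ℕ) ≠ 0 := pow_ne_zero _ hs
        have p3 : s ^ (k : ℕ) ≠ 0 := pow_ne_zero _ hs
        field_simp
    rw [hN, Matrix.det_mul, Matrix.det_mul, hS, mul_zero, zero_mul]
  have h0 : (N 0).det = 0 := by
    have h1 : (fun s : ℂ => (N s).det) = fun _ => 0 := by
      apply Continuous.ext_on (dense_compl_singleton (0 : ℂ)) hcont continuous_const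
      intro s hs
      exact hzero s hs
    exact congrFun h1 0
  apply det_eps_ne hm hn
  rw [← h0]
  congr 1
  ext j k
  simp only [N, sl, Matrix.of_apply]
  apply Finset.sum_congr rfl
  intro i _
  by_cases h : n ≤ (i : ℕ) + j + k
  · rw [hv _ h]
    have : n - ((i : ℕ) + j + k) = 0 := by omega
    rw [this]; ring
  · have h1 : n - ((i : ℕ) + j + k) ≠ 0 := by omega
    rw [zero_pow h1]
    have : eps m n 1 (i, j, k) = 0 := by
      unfold eps
      rw [if_neg]
      rintro ⟨-, h3⟩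
      simp only at h3
      omega
    rw [this]; ring

end H598R5
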