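import Mathlib

open Topology

namespace H598R5

section general

variable {GG : Type} [Group GG] [TopologicalSpace GG] [IsTopologicalGroup GG] [T2Space GG]
  [LocallyCompactSpace GG] [SigmaCompactSpace GG]

/-- the double coset as a homogeneous space of `G × B` -/
def actY (G B : Subgroup GG) (x : GG) : MulAction (G × B) {y : GG // ∃ g ∈ G, ∃ b ∈ B, y = g * x * b} where
  smul p y := ⟨p.1 * y.1 * (p.2 : GG)⁻¹, by
    obtain ⟨y, g, hg, b, hb, rfl⟩ := y
    exact ⟨p.1 * g, G.mul_mem p.1.2 hg, b * (p.2 : GG)⁻¹, B.mul_mem hb (B.inv_mem p.2.2), by group⟩⟩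
  one_smul y := by
    apply Subtype.ext
    show ((1 : G × B).1 : GG) * y.1 * (((1 : G × B).2 : B) : GG)⁻¹ = y.1
    simp
  mul_smul p q y := by
    apply Subtype.ext
    show (((p * q).1 : G) : GG) * y.1 * (((p * q).2 : B) : GG)⁻¹ =
      p.1 * (q.1 * y.1 * (q.2 : GG)⁻¹) * (p.2 : GG)⁻¹
    simp only [Prod.fst_mul, Prod.snd_mul, Subgroup.coe_mul, mul_inv_rev]
    group

theorem lemmaT (G B : Subgroup GG) (hG : IsClosed (G : Set GG)) (hB : IsClosed (B : Set GG))
    (K : Set GG) (hK : IsCompact K) (hKB : ∀ a : GG, ∃ k ∈ K, ∃ b ∈ B, a = k * b) (x : GG)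
    (hY : IsClosed {y | ∃ g ∈ G, ∃ b ∈ B, y = g * x * b}) :
    ∃ D : Set GG, IsCompact D ∧ ∀ g ∈ G, ∃ d ∈ D, d ∈ G ∧ x⁻¹ * (d⁻¹ * g) * x ∈ B := by
  classical
  letI act := actY G B x
  let Y := {y : GG // ∃ g ∈ G, ∃ b ∈ B, y = g * x * b}
  haveI : LocallyCompactSpace G := hG.isClosedEmbedding_subtypeVal.locallyCompactSpace
  haveI : LocallyCompactSpace B := hB.isClosedEmbedding_subtypeVal.locallyCompactSpace
  haveI : SigmaCompactSpace G := hG.isClosedEmbedding_subtypeVal.sigmaCompactSpace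
  haveI : SigmaCompactSpace B := hB.isClosedEmbedding_subtypeVal.sigmaCompactSpace
  haveI : LocallyCompactSpace Y := hY.isClosedEmbedding_subtypeVal.locallyCompactSpace
  haveI : ContinuousSMul (G × B) Y := by
    constructor
    apply Continuous.subtype_mk
    exact ((continuous_subtype_val.comp (continuous_fst.comp continuous_fst)).mul
      (continuous_subtype_val.comp continuous_snd)).mul
      (continuous_subtype_val.comp (continuous_snd.comp continuous_fst)).inv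
  haveI : MulAction.IsPretransitive (G × B) Y := by
    constructor
    rintro ⟨y, g, hg, b, hb, rfl⟩ ⟨y', g', hg', b', hb', rfl⟩
    refine ⟨(⟨g' * g⁻¹, G.mul_mem hg' (G.inv_mem hg)⟩, ⟨b'⁻¹ * b, B.mul_mem (B.inv_mem hb') hb⟩), ?_⟩
    apply Subtype.ext
    show g' * g⁻¹ * (g * x * b) * (b'⁻¹ * b)⁻¹ = g' * x * b'
    group
  let y0 : Y := ⟨x, 1, G.one_mem, 1, B.one_mem, by simp⟩
  have hopen : IsOpenMap (fun p : G × B => p • y0) := isOpenMap_smul_of_sigmaCompact y0
  let E : CompactExhaustion (G × B) := default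
  -- compact piece of `Y`
  have hC : IsCompact ((Subtype.val : Y → GG) ⁻¹' K) :=
    hY.isClosedEmbedding_subtypeVal.isCompact_preimage hK
  have hcov : ((Subtype.val : Y → GG) ⁻¹' K) ⊆
      ⋃ n : ℕ, (fun p : G × B => p • y0) '' (interior (E n)) := by
    intro y _
    obtain ⟨p, hp⟩ := MulAction.exists_smul_eq (G × B) y0 y
    have : p ∈ ⋃ n, interior (E n) := by
      have hp' : p ∈ (⋃ n, E n) := by rw [E.iUnion_eq]; trivial
      obtain ⟨n, hn⟩ := Set.mem_iUnion.mp hp'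
      exact Set.mem_iUnion.mpr ⟨n + 1, E.subset_interior_succ n hn⟩
    obtain ⟨n, hn⟩ := Set.mem_iUnion.mp this
    exact Set.mem_iUnion.mpr ⟨n, p, hn, hp⟩
  obtain ⟨N, hN⟩ := hC.elim_directed_cover _ (fun n => hopen _ isOpen_interior) hcov (by
    apply Monotone.directed_le
    intro a b hab
    exact Set.image_mono (interior_mono (E.subset hab)))
  refine ⟨(fun p : G × B => (p.1 : GG)) '' (E N), (E.isCompact N).image (by fun_prop), ?_⟩
  intro g hg
  obtain ⟨k, hk, b, hb, hkb⟩ := hKB (g * x)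
  have hkY : ∃ g' ∈ G, ∃ b' ∈ B, k = g' * x * b' :=
    ⟨g, hg, b⁻¹, B.inv_mem hb, by rw [hkb]; group⟩
  obtain ⟨p, hp, hpk⟩ := hN (show (⟨k, hkY⟩ : Y) ∈ (Subtype.val : Y → GG) ⁻¹' K from hk)
  have hpk' : (p.1 : GG) * x * (p.2 : GG)⁻¹ = k := congrArg Subtype.val hpk
  refine ⟨p.1, ⟨p, interior_subset hp, rfl⟩, p.1.2, ?_⟩
  have : x⁻¹ * ((p.1 : GG)⁻¹ * g) * x = (p.2 : GG)⁻¹ * b := by
    have h1 : g * x = k * b := hkb
    calc x⁻¹ * ((p.1 : GG)⁻¹ * g) * x = x⁻¹ * (p.1 : GG)⁻¹ * (g * x) := by group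
      _ = x⁻¹ * (p.1 : GG)⁻¹ * (((p.1 : GG) * x * (p.2 : GG)⁻¹) * b) := by rw [h1, hpk']
      _ = (p.2 : GG)⁻¹ * b := by group
  rw [this]
  exact B.mul_mem (B.inv_mem p.2.2) hb

end general

open Matrix

instance lcM (n : ℕ) : LocallyCompactSpace (Matrix (Fin n) (Fin n) ℂ) :=
  inferInstanceAs (LocallyCompactSpace (Fin n → Fin n → ℂ))
instance scM (n : ℕ) : SigmaCompactSpace (Matrix (Fin n) (Fin n) ℂ) :=
  inferInstanceAs (SigmaCompactSpace (Fin n → Fin n → ℂ))
instance lcMop (n : ℕ) : LocallyCompactSpace (Matrix (Fin n) (Fin n) ℂ)ᵐᵒᵖ :=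
  MulOpposite.opHomeomorph.symm.isClosedEmbedding.locallyCompactSpace
instance scMop (n : ℕ) : SigmaCompactSpace (Matrix (Fin n) (Fin n) ℂ)ᵐᵒᵖ :=
  MulOpposite.opHomeomorph.symm.isClosedEmbedding.sigmaCompactSpace
instance lcGL (n : ℕ) : LocallyCompactSpace (GL (Fin n) ℂ) :=
  (Units.isClosedEmbedding_embedProduct (α := Matrix (Fin n) (Fin n) ℂ)).locallyCompactSpace
instance scGL (n : ℕ) : SigmaCompactSpace (GL (Fin n) ℂ) :=
  (Units.isClosedEmbedding_embedProduct (α := Matrix (Fin n) (Fin n) ℂ)).sigmaCompactSpace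

/-- unitary matrices in `GL` -/
def UU (n : ℕ) : Set (GL (Fin n) ℂ) := {U | (U : Matrix (Fin n) (Fin n) ℂ)ᴴ * U = 1}

theorem UU_compact (n : ℕ) : IsCompact (UU n) := by
  have h1 : IsCompact {A : Matrix (Fin n) (Fin n) ℂ | ∀ i j, ‖A i j‖ ≤ 1} := by
    have : IsCompact (Set.univ.pi (fun _ : Fin n => Set.univ.pi (fun _ : Fin n =>
        Metric.closedBall (0 : ℂ) 1))) :=
      isCompact_univ_pi fun _ => isCompact_univ_pi fun _ => isCompact_closedBall _ _
    have h2 : {A : Matrix (Fin n) (Fin n) ℂ | ∀ i j, ‖A i j‖ ≤ 1} =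
        (Set.univ.pi (fun _ : Fin n => Set.univ.pi (fun _ : Fin n =>
        Metric.closedBall (0 : ℂ) 1)) : Set (Fin n → Fin n → ℂ)) := by
      apply Set.ext
      intro A
      constructor
      · intro h i _ j _
        rw [Metric.mem_closedBall, dist_zero_right]
        exact h i j
      · intro h i j
        have := h i trivial j trivial
        rw [Metric.mem_closedBall, dist_zero_right] at this
        exact this
    rw [h2]
    exact this
  have h2 : IsCompact (MulOpposite.unop ⁻¹' {A : Matrix (Fin n) (Fin n) ℂ | ∀ i j, ‖A i j‖ ≤ 1}) :=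
    MulOpposite.opHomeomorph.symm.isClosedEmbedding.isCompact_preimage h1
  have h3 := (Units.isClosedEmbedding_embedProduct (α := Matrix (Fin n) (Fin n) ℂ)).isCompact_preimage
    (h1.prod h2)
  apply h3.of_isClosed_subset
  · have hc : Continuous fun U : GL (Fin n) ℂ => (U : Matrix (Fin n) (Fin n) ℂ)ᴴ * U := by
      have : Continuous fun U : GL (Fin n) ℂ => (U : Matrix (Fin n) (Fin n) ℂ) := Units.continuous_val
      exact this.matrix_conjTranspose.matrix_mul this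
    exact isClosed_singleton.preimage hc
  · intro U hU
    have hU1 : (U : Matrix (Fin n) (Fin n) ℂ)ᴴ * U = 1 := hU
    have hinv : ((U⁻¹ : GL (Fin n) ℂ) : Matrix (Fin n) (Fin n) ℂ) = (U : Matrix (Fin n) (Fin n) ℂ)ᴴ := by
      have h4 : (U : Matrix (Fin n) (Fin n) ℂ) * ((U⁻¹ : GL (Fin n) ℂ) : Matrix (Fin n) (Fin n) ℂ) = 1 :=
        U.mul_inv
      calc ((U⁻¹ : GL (Fin n) ℂ) : Matrix (Fin n) (Fin n) ℂ)
          = ((U : Matrix (Fin n) (Fin n) ℂ)ᴴ * U) * ((U⁻¹ : GL (Fin n) ℂ) : Matrix (Fin n) (Fin n) ℂ) := by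
            rw [hU1, one_mul]
        _ = (U : Matrix (Fin n) (Fin n) ℂ)ᴴ := by rw [mul_assoc, h4, mul_one]
    have hmem : (U : Matrix (Fin n) (Fin n) ℂ) ∈ Matrix.unitaryGroup (Fin n) ℂ := by
      rw [Matrix.mem_unitaryGroup_iff']
      exact hU1
    have hb := fun i j => entry_norm_bound_of_unitary hmem i j
    refine ⟨hb, ?_⟩
    show ∀ i j, ‖(((U⁻¹ : GL (Fin n) ℂ) : Matrix (Fin n) (Fin n) ℂ)) i j‖ ≤ 1
    intro i j
    rw [hinv, Matrix.conjTranspose_apply, norm_star]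
    exact hb j i

/-- upper triangular matrices in `GL` -/
def UT (n : ℕ) : Subgroup (GL (Fin n) ℂ) where
  carrier := {A | ∀ i j : Fin n, j < i → (A : Matrix (Fin n) (Fin n) ℂ) i j = 0}
  one_mem' := by
    intro i j hij
    simp [Matrix.one_apply, hij.ne']
  mul_mem' := by
    intro A B hA hB i j hij
    show (((A * B : GL (Fin n) ℂ)) : Matrix (Fin n) (Fin n) ℂ) i j = 0
    rw [Units.val_mul, Matrix.mul_apply]
    apply Finset.sum_eq_zero
    intro k _
    by_cases h : k < i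
    · rw [hA i k h, zero_mul]
    · rw [hB k j (lt_of_lt_of_le hij (not_lt.mp h)), mul_zero]
  inv_mem' := by
    intro A hA i j hij
    haveI : Invertible (A : Matrix (Fin n) (Fin n) ℂ) := Units.invertible A
    have hbt : (A : Matrix (Fin n) (Fin n) ℂ).BlockTriangular id := fun i j h => hA i j h
    have := Matrix.blockTriangular_inv_of_blockTriangular hbt
    have h2 := this (i := i) (j := j) hij
    rw [Matrix.coe_units_inv]
    exact h2

theorem UT_closed (n : ℕ) : IsClosed (UT n : Set (GL (Fin n) ℂ)) := by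
  have : (UT n : Set (GL (Fin n) ℂ)) = ⋂ i : Fin n, ⋂ j : Fin n, ⋂ (_ : j < i),
      {A : GL (Fin n) ℂ | (A : Matrix (Fin n) (Fin n) ℂ) i j = 0} := by
    ext A
    simp only [Set.mem_iInter]
    rfl
  rw [this]
  refine isClosed_iInter fun i => isClosed_iInter fun j => isClosed_iInter fun _ => ?_
  have hc : Continuous fun U : GL (Fin n) ℂ => (U : Matrix (Fin n) (Fin n) ℂ) i j :=
    (Units.continuous_val).matrix_elem i j
  exact isClosed_singleton.preimage hc

theorem QR (n : ℕ) (A : GL (Fin n) ℂ) : ∃ k ∈ UU n, ∃ b ∈ UT n, A = k * b := by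
  let f : Fin n → EuclideanSpace ℂ (Fin n) := fun i => WithLp.toLp 2 (fun k => (A : Matrix (Fin n) (Fin n) ℂ) k i)
  let e := InnerProductSpace.gramSchmidtOrthonormalBasis (𝕜 := ℂ) (finrank_euclideanSpace (𝕜 := ℂ) (ι := Fin n)) f
  let U : Matrix (Fin n) (Fin n) ℂ := Matrix.of fun i j => (e j) i
  have hinner : ∀ j (v : EuclideanSpace ℂ (Fin n)), (inner ℂ (e j) v : ℂ) = ∑ k, star (U k j) * v k := by
    intro j v
    rw [PiLp.inner_apply]
    apply Finset.sum_congr rfl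
    intro k _
    simp [U, mul_comm]
  have hU1 : Uᴴ * U = 1 := by
    ext i j
    rw [Matrix.mul_apply, Matrix.one_apply]
    have := e.orthonormal
    rw [orthonormal_iff_ite] at this
    rw [← this i j, hinner]
    rfl
  have hU2 : U * Uᴴ = 1 := mul_eq_one_comm.mp hU1
  let k : GL (Fin n) ℂ := ⟨U, Uᴴ, hU2, hU1⟩
  refine ⟨k, hU1, k⁻¹ * A, ?_, by group⟩
  intro i j hij
  show (((k⁻¹ * A : GL (Fin n) ℂ)) : Matrix (Fin n) (Fin n) ℂ) i j = 0
  rw [Units.val_mul]
  show (Uᴴ * (A : Matrix (Fin n) (Fin n) ℂ)) i j = 0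
  have := InnerProductSpace.gramSchmidtOrthonormalBasis_inv_triangular (𝕜 := ℂ)
    (finrank_euclideanSpace (𝕜 := ℂ) (ι := Fin n)) f hij
  rw [Matrix.mul_apply]
  rw [hinner] at this
  rw [← this]
  rfl

end H598R5
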