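import Mathlib
import Pool.Agent.H598R5.Coset
import Pool.Agent.H598R5.Topo
import Pool.Agent.H598R5.Tensor

open Matrix Filter Topology

namespace H598R5

variable {m n : ℕ}

abbrev Sig (m n : ℕ) : Type := (Fin m × Fin m) ⊕ ((Fin n × Fin n) ⊕ (Fin n × Fin n))

def A1 (y : Sig m n → ℂ) : Matrix (Fin m) (Fin m) ℂ := Matrix.of fun i j => y (Sum.inl (i, j))
def A2 (y : Sig m n → ℂ) : Matrix (Fin n) (Fin n) ℂ := Matrix.of fun i j => y (Sum.inr (Sum.inl (i, j)))
def A3 (y : Sig m n → ℂ) : Matrix (Fin n) (Fin n) ℂ := Matrix.of fun i j => y (Sum.inr (Sum.inr (i, j)))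

def packM (P : Matrix (Fin m) (Fin m) ℂ) (Q R : Matrix (Fin n) (Fin n) ℂ) : Sig m n → ℂ :=
  Sum.elim (fun p => P p.1 p.2) (Sum.elim (fun p => Q p.1 p.2) (fun p => R p.1 p.2))

theorem pack_eq (y : Sig m n → ℂ) : packM (A1 y) (A2 y) (A3 y) = y := by
  funext s
  rcases s with p | p | p <;> rfl

theorem IsPoly.det {τ : Type} {k : ℕ} {F : (τ → ℂ) → Matrix (Fin k) (Fin k) ℂ}
    (hF : ∀ i j, IsPoly (fun z => F z i j)) : IsPoly (fun z => (F z).det) := by
  have : (fun z => (F z).det) = fun z => ∑ σ : Equiv.Perm (Fin k),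
      (((Equiv.Perm.sign σ : ℤˣ) : ℤ) : ℂ) * ∏ i, F z (σ i) i := by
    funext z
    rw [Matrix.det_apply']
  rw [this]
  apply IsPoly.sum
  intro σ _
  apply (IsPoly.const _).mul
  apply IsPoly.prod
  intro i _
  exact hF _ _

theorem IsPoly.matmul {τ : Type} {k : ℕ} {F H : (τ → ℂ) → Matrix (Fin k) (Fin k) ℂ}
    (hF : ∀ i j, IsPoly (fun z => F z i j)) (hH : ∀ i j, IsPoly (fun z => H z i j)) (i j : Fin k) :
    IsPoly (fun z => (F z * H z) i j) := by
  simp only [Matrix.mul_apply]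
  apply IsPoly.sum
  intro l _
  exact (hF _ _).mul (hH _ _)

/-- coordinates on the triple product -/
noncomputable def KC (m n : ℕ) : Coord (GG m n) (Sig m n) where
  c g := packM (g.1 : Matrix (Fin m) (Fin m) ℂ) (g.2.1 : Matrix (Fin n) (Fin n) ℂ)
    (g.2.2 : Matrix (Fin n) (Fin n) ℂ)
  inj := by
    intro g h hgh
    refine Prod.ext ?_ (Prod.ext ?_ ?_)
    · apply Units.ext
      ext i j
      exact congrFun hgh (Sum.inl (i, j))
    · apply Units.ext
      ext i j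
      exact congrFun hgh (Sum.inr (Sum.inl (i, j)))
    · apply Units.ext
      ext i j
      exact congrFun hgh (Sum.inr (Sum.inr (i, j)))
  Δ y := (A1 y).det * ((A2 y).det * (A3 y).det)
  Δpoly := by
    apply IsPoly.mul
    · exact IsPoly.det (F := fun z => A1 z) fun i j => IsPoly.coord _
    · apply IsPoly.mul
      · exact IsPoly.det (F := fun z => A2 z) fun i j => IsPoly.coord _
      · exact IsPoly.det (F := fun z => A3 z) fun i j => IsPoly.coord _
  range := by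
    intro y
    constructor
    · intro h
      have h1 : (A1 y).det ≠ 0 := left_ne_zero_of_mul h
      have h2 : (A2 y).det ≠ 0 := left_ne_zero_of_mul (right_ne_zero_of_mul h)
      have h3 : (A3 y).det ≠ 0 := right_ne_zero_of_mul (right_ne_zero_of_mul h)
      refine ⟨(Matrix.GeneralLinearGroup.mkOfDetNeZero _ h1,
        Matrix.GeneralLinearGroup.mkOfDetNeZero _ h2,
        Matrix.GeneralLinearGroup.mkOfDetNeZero _ h3), ?_⟩
      conv_rhs => rw [← pack_eq y]
      rfl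
    · rintro ⟨g, rfl⟩
      have h1 : (A1 (packM (g.1 : Matrix (Fin m) (Fin m) ℂ) (g.2.1 : Matrix (Fin n) (Fin n) ℂ)
          (g.2.2 : Matrix (Fin n) (Fin n) ℂ))) = g.1 := rfl
      have h2 : (A2 (packM (g.1 : Matrix (Fin m) (Fin m) ℂ) (g.2.1 : Matrix (Fin n) (Fin n) ℂ)
          (g.2.2 : Matrix (Fin n) (Fin n) ℂ))) = g.2.1 := rfl
      have h3 : (A3 (packM (g.1 : Matrix (Fin m) (Fin m) ℂ) (g.2.1 : Matrix (Fin n) (Fin n) ℂ)
          (g.2.2 : Matrix (Fin n) (Fin n) ℂ))) = g.2.2 := rfl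
      rw [h1, h2, h3]
      refine mul_ne_zero ?_ (mul_ne_zero ?_ ?_)
      · exact (Matrix.isUnits_det_units g.1).ne_zero
      · exact (Matrix.isUnits_det_units g.2.1).ne_zero
      · exact (Matrix.isUnits_det_units g.2.2).ne_zero
  M y z := packM (A1 y * A1 z) (A2 y * A2 z) (A3 y * A3 z)
  Mpoly := by
    intro s
    rcases s with ⟨i, j⟩ | ⟨i, j⟩ | ⟨i, j⟩
    · exact IsPoly.matmul (F := fun z => A1 (fun a => z (Sum.inl a))) (H := fun z => A1 (fun a => z (Sum.inr a)))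
        (fun i j => IsPoly.coord _) (fun i j => IsPoly.coord _) i j
    · exact IsPoly.matmul (F := fun z => A2 (fun a => z (Sum.inl a))) (H := fun z => A2 (fun a => z (Sum.inr a)))
        (fun i j => IsPoly.coord _) (fun i j => IsPoly.coord _) i j
    · exact IsPoly.matmul (F := fun z => A3 (fun a => z (Sum.inl a))) (H := fun z => A3 (fun a => z (Sum.inr a)))
        (fun i j => IsPoly.coord _) (fun i j => IsPoly.coord _) i j
  mul := by
    intro g h
    rfl

theorem continuous_c : Continuous (KC m n).c := by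
  apply continuous_pi
  rintro (⟨i, j⟩ | ⟨i, j⟩ | ⟨i, j⟩)
  · exact ((Units.continuous_val).comp continuous_fst).matrix_elem i j
  · exact ((Units.continuous_val).comp (continuous_fst.comp continuous_snd)).matrix_elem i j
  · exact ((Units.continuous_val).comp (continuous_snd.comp continuous_snd)).matrix_elem i j

theorem closed_of_Closed {Y : Set (GG m n)} (h : (KC m n).Closed Y) : IsClosed Y := by
  obtain ⟨S, rfl⟩ := h
  have : {g : GG m n | ∀ p ∈ S, MvPolynomial.eval ((KC m n).c g) p = 0} =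
      ⋂ p ∈ S, {g | MvPolynomial.eval ((KC m n).c g) p = 0} := by
    ext g; simp
  rw [this]
  refine isClosed_biInter fun p _ => ?_
  exact isClosed_singleton.preimage ((MvPolynomial.continuous_eval p).comp continuous_c)

/-- upper triangular triples -/
def BB (m n : ℕ) : Subgroup (GG m n) := (UT m).prod ((UT n).prod (UT n))

theorem mem_BB {g : GG m n} : g ∈ BB m n ↔
    (∀ i j : Fin m, j < i → (g.1 : Matrix (Fin m) (Fin m) ℂ) i j = 0) ∧
    (∀ i j : Fin n, j < i → (g.2.1 : Matrix (Fin n) (Fin n) ℂ) i j = 0) ∧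
    (∀ i j : Fin n, j < i → (g.2.2 : Matrix (Fin n) (Fin n) ℂ) i j = 0) := Iff.rfl

theorem BB_Closed : (KC m n).Closed (BB m n : Set (GG m n)) := by
  refine ⟨{p | (∃ i j : Fin m, j < i ∧ p = MvPolynomial.X (Sum.inl (i, j))) ∨
    (∃ i j : Fin n, j < i ∧ p = MvPolynomial.X (Sum.inr (Sum.inl (i, j)))) ∨
    (∃ i j : Fin n, j < i ∧ p = MvPolynomial.X (Sum.inr (Sum.inr (i, j))))}, ?_⟩
  ext g
  constructor
  · intro hg
    obtain ⟨h1, h2, h3⟩ := mem_BB.mp hg
    rintro p (⟨i, j, hij, rfl⟩ | ⟨i, j, hij, rfl⟩ | ⟨i, j, hij, rfl⟩)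
    · rw [MvPolynomial.eval_X]; exact h1 i j hij
    · rw [MvPolynomial.eval_X]; exact h2 i j hij
    · rw [MvPolynomial.eval_X]; exact h3 i j hij
  · intro hg
    apply mem_BB.mpr
    refine ⟨fun i j hij => ?_, fun i j hij => ?_, fun i j hij => ?_⟩
    · have := hg _ (Or.inl ⟨i, j, hij, rfl⟩)
      rwa [MvPolynomial.eval_X] at this
    · have := hg _ (Or.inr (Or.inl ⟨i, j, hij, rfl⟩))
      rwa [MvPolynomial.eval_X] at this
    · have := hg _ (Or.inr (Or.inr ⟨i, j, hij, rfl⟩))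
      rwa [MvPolynomial.eval_X] at this

theorem key_D (G : Subgroup (GG m n)) (hG : (KC m n).Closed (G : Set (GG m n))) :
    ∃ (x : GG m n) (D : Set (GG m n)), IsCompact D ∧
      ∀ g ∈ G, ∃ d ∈ D, d ∈ G ∧ x⁻¹ * (d⁻¹ * g) * x ∈ BB m n := by
  obtain ⟨x, hx⟩ := closed_coset (KC m n) G (BB m n) hG BB_Closed
  refine ⟨x, ?_⟩
  apply lemmaT G (BB m n) (closed_of_Closed hG) (closed_of_Closed BB_Closed)
    (UU m ×ˢ (UU n ×ˢ UU n)) ((UU_compact m).prod ((UU_compact n).prod (UU_compact n))) _ x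
    (closed_of_Closed hx)
  rintro ⟨a1, a2, a3⟩
  obtain ⟨k1, hk1, b1, hb1, h1⟩ := QR m a1
  obtain ⟨k2, hk2, b2, hb2, h2⟩ := QR n a2
  obtain ⟨k3, hk3, b3, hb3, h3⟩ := QR n a3
  exact ⟨(k1, k2, k3), ⟨hk1, hk2, hk3⟩, (b1, b2, b3), ⟨hb1, hb2, hb3⟩, by
    rw [h1, h2, h3]; rfl⟩

/-- the positions of the test tensors -/
def SS (m n : ℕ) : Set (Idx m n) := {p | cond p.1 p.2.1 ∧ (p.1 : ℕ) + p.2.1 + p.2.2 = n}

theorem eps_SS {s : ℂ} {p : Idx m n} (hp : p ∈ SS m n) : eps m n s p = cf s p.1 p.2.1 := by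
  unfold eps; exact if_pos hp

theorem eps_not_SS {s : ℂ} {p : Idx m n} (hp : p ∉ SS m n) : eps m n s p = 0 := by
  unfold eps; exact if_neg hp

/-- the invariant subspace -/
def LL (m n : ℕ) : Submodule ℂ (Idx m n → ℂ) where
  carrier := {v | ∀ p : Idx m n, n ≤ (p.1 : ℕ) + p.2.1 + p.2.2 → p ∉ SS m n → v p = 0}
  add_mem' := by
    intro a b ha hb p h1 h2
    rw [Pi.add_apply, ha p h1 h2, hb p h1 h2, add_zero]
  zero_mem' := by intro p _ _; rfl
  smul_mem' := by
    intro c a ha p h1 h2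
    rw [Pi.smul_apply, ha p h1 h2, smul_zero]

theorem mem_LL {v : Idx m n → ℂ} : v ∈ LL m n ↔
    ∀ p : Idx m n, n ≤ (p.1 : ℕ) + p.2.1 + p.2.2 → p ∉ SS m n → v p = 0 := Iff.rfl

theorem T_top {b : GG m n} (hb : b ∈ BB m n) {v : Idx m n → ℂ} (hv : v ∈ LL m n) (s : Idx m n)
    (hs : n ≤ (s.1 : ℕ) + s.2.1 + s.2.2) : (T b *ᵥ v) s = T b s s * v s := by
  obtain ⟨h1, h2, h3⟩ := mem_BB.mp hb
  rw [Matrix.mulVec, dotProduct]
  apply Finset.sum_eq_single s
  · intro t _ hts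
    rw [T_apply]
    by_cases c1 : t.1 < s.1
    · rw [h1 _ _ c1]; ring
    by_cases c2 : t.2.1 < s.2.1
    · rw [h2 _ _ c2]; ring
    by_cases c3 : t.2.2 < s.2.2
    · rw [h3 _ _ c3]; ring
    have e1 : (s.1 : ℕ) ≤ t.1 := not_lt.mp c1
    have e2 : (s.2.1 : ℕ) ≤ t.2.1 := not_lt.mp c2
    have e3 : (s.2.2 : ℕ) ≤ t.2.2 := not_lt.mp c3
    have hne : (s.1 : ℕ) + s.2.1 + s.2.2 < (t.1 : ℕ) + t.2.1 + t.2.2 := by
      rcases lt_or_eq_of_le e1 with f1 | f1
      · omega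
      rcases lt_or_eq_of_le e2 with f2 | f2
      · omega
      rcases lt_or_eq_of_le e3 with f3 | f3
      · omega
      exfalso
      apply hts
      refine Prod.ext (Fin.ext f1.symm) (Prod.ext (Fin.ext f2.symm) (Fin.ext f3.symm))
    rw [hv t (by omega) (by rintro ⟨-, h⟩; omega), mul_zero]
  · intro h; exact absurd (Finset.mem_univ _) h

theorem eps_LL (s : ℂ) : eps m n s ∈ LL m n := fun _ _ h => eps_not_SS h

/-- **Main step.** If a Zariski closed subgroup of the triple product has null cone containing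
`SING`, then its null cone contains a nonsingular tuple. -/
theorem main0 (hm : 3 ≤ m) (hn : 3 ≤ n) (G : Subgroup (GG m n))
    (hG : (KC m n).Closed (G : Set (GG m n)))
    (hS : ∀ v ∈ SING m n, (0 : Idx m n → ℂ) ∈ closure {w | ∃ g ∈ G, w = T g *ᵥ v}) :
    ∃ v, v ∉ SING m n ∧ (0 : Idx m n → ℂ) ∈ closure {w | ∃ g ∈ G, w = T g *ᵥ v} := by
  classical
  obtain ⟨x, D, hD, hx⟩ := key_D G hG
  -- uniform bound for the entries
  have hcontT : ∀ s t : Idx m n, Continuous fun d : GG m n => T (x⁻¹ * d⁻¹) s t := by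
    intro s t
    simp only [T_apply]
    have hd : Continuous fun d : GG m n => x⁻¹ * d⁻¹ := continuous_const.mul continuous_inv
    refine Continuous.mul ?_ (Continuous.mul ?_ ?_)
    · exact ((Units.continuous_val).comp (continuous_fst.comp hd)).matrix_elem _ _
    · exact ((Units.continuous_val).comp (continuous_fst.comp (continuous_snd.comp hd))).matrix_elem _ _
    · exact ((Units.continuous_val).comp (continuous_snd.comp (continuous_snd.comp hd))).matrix_elem _ _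
  have hbd : ∃ C : ℝ, 0 < C ∧ ∀ d ∈ D, ∀ s t : Idx m n, ‖T (x⁻¹ * d⁻¹) s t‖ ≤ C := by
    have : ∀ s t : Idx m n, ∃ C : ℝ, ∀ d ∈ D, ‖T (x⁻¹ * d⁻¹) s t‖ ≤ C := by
      intro s t
      obtain ⟨C, hC⟩ := hD.exists_bound_of_continuousOn (hcontT s t).continuousOn
      exact ⟨C, hC⟩
    choose C hC using this
    refine ⟨∑ s, ∑ t, |C s t| + 1, by positivity, ?_⟩
    intro d hd s t
    have h1 := hC s t d hd
    have h2 : |C s t| ≤ ∑ t, |C s t| :=
      Finset.single_le_sum (f := fun t => |C s t|) (fun _ _ => abs_nonneg _) (Finset.mem_univ t)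
    have h3 : ∑ t, |C s t| ≤ ∑ s, ∑ t, |C s t| :=
      Finset.single_le_sum (f := fun s => ∑ t, |C s t|)
        (fun _ _ => Finset.sum_nonneg fun _ _ => abs_nonneg _) (Finset.mem_univ s)
    have h4 := le_abs_self (C s t)
    linarith
  obtain ⟨C, hC0, hC⟩ := hbd
  set v0 : Idx m n → ℂ := T x *ᵥ eps m n (-1) with hv0
  have hv0S : v0 ∈ SING m n := SING_T (eps_SING hm hn) x
  have hcl := hS v0 hv0S
  set K : ℝ := (Fintype.card (Idx m n) : ℝ) * C + 1 with hK
  have hK0 : 0 < K := by positivity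
  rw [Metric.mem_closure_iff] at hcl
  obtain ⟨w, ⟨g, hg, rfl⟩, hw⟩ := hcl (1 / (2 * K)) (by positivity)
  rw [dist_comm, dist_zero_right] at hw
  obtain ⟨d, hd, hdG, hb⟩ := hx g hg
  set b : GG m n := x⁻¹ * (d⁻¹ * g) * x with hbdef
  have hTb : T b *ᵥ eps m n (-1) = T (x⁻¹ * d⁻¹) *ᵥ (T g *ᵥ v0) := by
    rw [hv0, Matrix.mulVec_mulVec, Matrix.mulVec_mulVec, ← T_mul, ← T_mul]
    congr 2
    rw [hbdef]; group
  have hχ : ∀ s ∈ SS m n, ‖T b s s‖ < 1 := by
    intro s hs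
    have h1 : (T b *ᵥ eps m n (-1)) s = T b s s * eps m n (-1) s :=
      T_top hb (eps_LL _) s (le_of_eq hs.2.symm)
    have h2 : ‖eps m n (-1) s‖ = 1 := by
      rw [eps_SS hs]; unfold cf; split_ifs <;> simp
    have h3 : ‖T b s s‖ = ‖(T b *ᵥ eps m n (-1)) s‖ := by
      rw [h1, norm_mul, h2, mul_one]
    rw [h3, hTb, Matrix.mulVec, dotProduct]
    calc ‖∑ t, T (x⁻¹ * d⁻¹) s t * (T g *ᵥ v0) t‖
        ≤ ∑ t, ‖T (x⁻¹ * d⁻¹) s t * (T g *ᵥ v0) t‖ := norm_sum_le _ _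
      _ ≤ ∑ _t : Idx m n, C * (1 / (2 * K)) := by
          apply Finset.sum_le_sum
          intro t _
          rw [norm_mul]
          apply mul_le_mul (hC d hd s t) _ (norm_nonneg _) hC0.le
          exact (norm_le_pi_norm _ t).trans hw.le
      _ = (Fintype.card (Idx m n) : ℝ) * C * (1 / (2 * K)) := by
          rw [Finset.sum_const, Finset.card_univ, nsmul_eq_mul]; ring
      _ < 1 := by
          rw [mul_one_div, div_lt_one (by positivity)]
          nlinarith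
  obtain ⟨v1, hv1L, hv1S, hv1t⟩ := stable (Matrix.mulVecLin (T b)) (SS m n) (LL m n)
    (fun s => T b s s) (by
      intro v hv
      refine ⟨?_, ?_⟩
      · intro p hp1 hp2
        rw [Matrix.mulVecLin_apply, T_top hb hv p hp1, hv p hp1 hp2, mul_zero]
      · intro s hs
        rw [Matrix.mulVecLin_apply, T_top hb hv s (le_of_eq hs.2.symm)]) hχ (eps m n 1) (eps_LL 1)
  have hv1 : v1 ∉ SING m n := by
    apply top_nonsing hm hn
    intro p hp
    by_cases h : p ∈ SS m n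
    · exact hv1S p h
    · rw [hv1L p hp h, eps_not_SS h]
  refine ⟨T x *ᵥ v1, ?_, ?_⟩
  · rw [SING_T_iff]; exact hv1
  · have hh : d⁻¹ * g ∈ G := G.mul_mem (G.inv_mem hdG) hg
    have hpow : ∀ N : ℕ, T ((d⁻¹ * g) ^ N) *ᵥ (T x *ᵥ v1) =
        T x *ᵥ ((Matrix.mulVecLin (T b)) ^ N) v1 := by
      intro N
      induction N with
      | zero => simp [T_one]
      | succ N ih =>
        have e1 : (d⁻¹ * g) * x = x * b := by rw [hbdef]; group
        have e2 : ((Matrix.mulVecLin (T b)) ^ (N + 1)) v1 = T b *ᵥ ((Matrix.mulVecLin (T b)) ^ N) v1 := by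
          rw [pow_succ', Module.End.mul_apply]; rfl
        calc T ((d⁻¹ * g) ^ (N + 1)) *ᵥ (T x *ᵥ v1)
            = T (d⁻¹ * g) *ᵥ (T ((d⁻¹ * g) ^ N) *ᵥ (T x *ᵥ v1)) := by
              rw [Matrix.mulVec_mulVec (T x *ᵥ v1) (T (d⁻¹ * g)) (T ((d⁻¹ * g) ^ N)), ← T_mul,
                ← pow_succ']
          _ = T (d⁻¹ * g) *ᵥ (T x *ᵥ ((Matrix.mulVecLin (T b)) ^ N) v1) := by rw [ih]
          _ = T ((d⁻¹ * g) * x) *ᵥ ((Matrix.mulVecLin (T b)) ^ N) v1 := by
              rw [Matrix.mulVec_mulVec, ← T_mul]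
          _ = T x *ᵥ (T b *ᵥ ((Matrix.mulVecLin (T b)) ^ N) v1) := by
              rw [e1, T_mul, ← Matrix.mulVec_mulVec]
          _ = T x *ᵥ ((Matrix.mulVecLin (T b)) ^ (N + 1)) v1 := by rw [e2]
    have hlim : Tendsto (fun N : ℕ => T ((d⁻¹ * g) ^ N) *ᵥ (T x *ᵥ v1)) atTop (𝓝 0) := by
      simp only [hpow]
      have hc : Continuous fun u : Idx m n → ℂ => T x *ᵥ u := by
        exact Continuous.matrix_mulVec continuous_const continuous_id
      have := (hc.tendsto 0).comp hv1t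
      rw [Matrix.mulVec_zero] at this
      exact this
    apply mem_closure_of_tendsto hlim
    filter_upwards with N
    exact ⟨(d⁻¹ * g) ^ N, G.pow_mem hh N, rfl⟩

end H598R5
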