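import Mathlib

open Matrix Module

namespace H598R5

/-- product vector -/
def tens {α β : Type} (x : α → ℂ) (a : β → ℂ) : α × β → ℂ := fun p => x p.1 * a p.2

theorem split {α β : Type} [Fintype α] [Fintype β] [DecidableEq α] [DecidableEq β] [Nonempty α]
    [Nonempty β] (Ψ : (α × β → ℂ) →ₗ[ℂ] (α × β → ℂ)) (hinj : Function.Injective Ψ)
    (h : ∀ a : β → ℂ, a ≠ 0 → ∃ u : β → ℂ, ∀ x : α → ℂ, ∃ y : α → ℂ, Ψ (tens x a) = tens y u) :
    ∃ (Ψ1 : (α → ℂ) →ₗ[ℂ] (α → ℂ)) (R : Matrix β β ℂ), ∀ x a, Ψ (tens x a) = tens (Ψ1 x) (R *ᵥ a) := by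
  classical
  have htadd : ∀ (x y : α → ℂ) (a : β → ℂ), tens (x + y) a = tens x a + tens y a := by
    intro x y a; funext p; simp [tens, add_mul]
  have htsmul : ∀ (c : ℂ) (x : α → ℂ) (a : β → ℂ), tens (c • x) a = c • tens x a := by
    intro c x a; funext p; simp [tens, mul_assoc]
  have htadd' : ∀ (x : α → ℂ) (a b : β → ℂ), tens x (a + b) = tens x a + tens x b := by
    intro x y a; funext p; simp [tens, mul_add]
  have hnz : ∀ (x : α → ℂ) (a : β → ℂ), tens x a = 0 → a ≠ 0 → x = 0 := by
    intro x a h0 ha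
    obtain ⟨k, hk⟩ := Function.ne_iff.mp ha
    funext i
    have := congrFun h0 (i, k)
    simp only [tens, Pi.zero_apply] at this
    exact (mul_eq_zero.mp this).resolve_right hk
  have hex : ∃ x0 : α → ℂ, x0 ≠ 0 := by
    obtain ⟨i⟩ := ‹Nonempty α›
    exact ⟨Pi.single i 1, by intro h; have := congrFun h i; simp at this⟩
  obtain ⟨x0, hx0⟩ := hex
  have he : ∀ b : β, (Pi.single b 1 : β → ℂ) ≠ 0 := by
    intro b h; have := congrFun h b; simp at this
  choose r hr using fun b : β => h (Pi.single b 1) (he b)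
  have hr0 : ∀ b, r b ≠ 0 := by
    intro b h0
    obtain ⟨y, hy⟩ := hr b x0
    have : Ψ (tens x0 (Pi.single b 1)) = 0 := by
      rw [hy, h0]; funext p; simp [tens]
    have h2 := hinj (this.trans (map_zero Ψ).symm)
    exact hx0 (hnz _ _ h2 (he b))
  choose k hk using fun b : β => Function.ne_iff.mp (hr0 b)
  let G : β → (α → ℂ) →ₗ[ℂ] (α → ℂ) := fun b =>
    { toFun := fun x i => Ψ (tens x (Pi.single b 1)) (i, k b) / r b (k b)
      map_add' := by
        intro x y; funext i
        simp only [htadd, map_add, Pi.add_apply, add_div]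
      map_smul' := by
        intro c x; funext i
        simp only [htsmul, map_smul, Pi.smul_apply, smul_eq_mul, RingHom.id_apply, mul_div_assoc] }
  have hG : ∀ b x, Ψ (tens x (Pi.single b 1)) = tens (G b x) (r b) := by
    intro b x
    obtain ⟨y, hy⟩ := hr b x
    have hGy : G b x = y := by
      funext i
      show Ψ (tens x (Pi.single b 1)) (i, k b) / r b (k b) = y i
      rw [hy]
      simp only [tens]
      have hkb : r b (k b) ≠ 0 := hk b
      rw [mul_div_assoc, div_self hkb, mul_one]
    rw [hGy, hy]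
  have hGinj : ∀ b, Function.Injective (G b) := by
    intro b
    rw [injective_iff_map_eq_zero]
    intro x hx
    have h1 : Ψ (tens x (Pi.single b 1)) = 0 := by
      rw [hG, hx]; funext p; simp [tens]
    exact hnz _ _ (hinj (h1.trans (map_zero Ψ).symm)) (he b)
  have hGsurj : ∀ b, Function.Surjective (G b) := fun b => LinearMap.injective_iff_surjective.mp (hGinj b)
  have hind : ∀ b b', b ≠ b' → ∀ s t : ℂ, s • r b + t • r b' = 0 → s = 0 ∧ t = 0 := by
    intro b b' hbb s t hst
    obtain ⟨x, hx⟩ := hGsurj b (s • x0)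
    obtain ⟨x', hx'⟩ := hGsurj b' (t • x0)
    have h1 : Ψ (tens x (Pi.single b 1) + tens x' (Pi.single b' 1)) = 0 := by
      rw [map_add, hG, hG, hx, hx']
      funext p
      have := congrFun hst p.2
      simp only [Pi.add_apply, Pi.smul_apply, smul_eq_mul, Pi.zero_apply] at this
      simp only [tens, Pi.add_apply, Pi.smul_apply, smul_eq_mul, Pi.zero_apply]
      linear_combination x0 p.1 * this
    have h2 := hinj (h1.trans (map_zero Ψ).symm)
    have hx1 : x = 0 := by
      funext i
      have := congrFun h2 (i, b)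
      simp [tens, Pi.single_apply, hbb] at this
      exact this
    have hx2 : x' = 0 := by
      funext i
      have := congrFun h2 (i, b')
      simp [tens, Pi.single_apply, hbb.symm] at this
      exact this
    rw [hx1, map_zero] at hx
    rw [hx2, map_zero] at hx'
    exact ⟨(smul_eq_zero.mp hx.symm).resolve_right hx0, (smul_eq_zero.mp hx'.symm).resolve_right hx0⟩
  have hprop : ∀ b b', ∃ c : ℂ, ∀ x, G b' x = c • G b x := by
    intro b b'
    by_cases hbb : b = b'
    · exact ⟨1, fun x => by rw [hbb, one_smul]⟩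
    have hne : (Pi.single b 1 + Pi.single b' 1 : β → ℂ) ≠ 0 := by
      intro h0
      have := congrFun h0 b
      simp [Pi.single_apply, hbb] at this
    obtain ⟨u, hu⟩ := h _ hne
    have hrel : ∀ x, ∃ y : α → ℂ, ∀ i, y i • u = (G b x i) • r b + (G b' x i) • r b' := by
      intro x
      obtain ⟨y, hy⟩ := hu x
      refine ⟨y, fun i => ?_⟩
      rw [htadd', map_add, hG, hG] at hy
      funext l
      have := congrFun hy (i, l)
      simp only [tens, Pi.add_apply] at this
      simp only [Pi.smul_apply, Pi.add_apply, smul_eq_mul]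
      exact this.symm
    -- `u` is a combination with both coefficients nonzero
    have hcomb : ∃ lam mu : ℂ, lam ≠ 0 ∧ u = lam • r b + mu • r b' := by
      obtain ⟨x, hx⟩ := hGsurj b x0
      obtain ⟨i, hi⟩ := Function.ne_iff.mp hx0
      obtain ⟨y, hy⟩ := hrel x
      have hyi := hy i
      have hGi : G b x i ≠ 0 := by rw [hx]; exact hi
      have hyi0 : y i ≠ 0 := by
        intro h0
        rw [h0, zero_smul] at hyi
        exact hGi (hind b b' hbb _ _ hyi.symm).1
      refine ⟨G b x i / y i, G b' x i / y i, div_ne_zero hGi hyi0, ?_⟩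
      have : u = (y i)⁻¹ • (y i • u) := by rw [smul_smul, inv_mul_cancel₀ hyi0, one_smul]
      rw [this, hyi, smul_add, smul_smul, smul_smul, div_eq_inv_mul, div_eq_inv_mul]
    obtain ⟨lam, mu, hlam, hu2⟩ := hcomb
    refine ⟨mu / lam, fun x => ?_⟩
    funext i
    obtain ⟨y, hy⟩ := hrel x
    have hyi := hy i
    rw [hu2] at hyi
    have h3 : (G b x i - y i * lam) • r b + (G b' x i - y i * mu) • r b' = 0 := by
      rw [sub_smul, sub_smul]
      have : y i • (lam • r b + mu • r b') = (y i * lam) • r b + (y i * mu) • r b' := by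
        rw [smul_add, smul_smul, smul_smul]
      rw [this] at hyi
      have h4 : G b x i • r b + G b' x i • r b' - ((y i * lam) • r b + (y i * mu) • r b') = 0 := by
        rw [hyi, sub_self]
      rw [← h4]; abel
    obtain ⟨h5, h6⟩ := hind b b' hbb _ _ h3
    rw [Pi.smul_apply, smul_eq_mul]
    have h7 : G b x i = y i * lam := sub_eq_zero.mp h5
    have h8 : G b' x i = y i * mu := sub_eq_zero.mp h6
    rw [h7, h8]
    field_simp
  obtain ⟨b0⟩ := ‹Nonempty β›
  choose c hc using fun b => hprop b0 b
  refine ⟨G b0, Matrix.of fun l b => c b * r b l, ?_⟩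
  intro x a
  have h1 : tens x a = ∑ b, a b • tens x (Pi.single b 1) := by
    funext p
    rw [Finset.sum_apply, Finset.sum_eq_single p.2]
    · simp only [tens, Pi.smul_apply, smul_eq_mul, Pi.single_eq_same]; ring
    · intro b _ hb
      simp [tens, Pi.single_apply, hb.symm]
    · intro h'; exact absurd (Finset.mem_univ _) h'
  rw [h1, map_sum]
  funext p
  rw [Finset.sum_apply]
  have h2 : tens (G b0 x) (Matrix.of (fun l b => c b * r b l) *ᵥ a) p =
      ∑ b, (G b0 x) p.1 * (c b * r b p.2 * a b) := by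
    simp only [tens, Matrix.mulVec, dotProduct, Matrix.of_apply, Finset.mul_sum]
  rw [h2]
  apply Finset.sum_congr rfl
  intro b _
  rw [map_smul, hG, hc b x]
  simp only [tens, Pi.smul_apply, smul_eq_mul]
  ring

end H598R5
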