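import Mathlib
import Pool.Agent.H598R5.Dieu2
import Pool.Agent.H598R5.Tensor

open Matrix Filter Topology Module

namespace H598R5

variable {m n : ℕ}

/-- right evaluation -/
def evA (u : Fin n → ℂ) : (Idx m n → ℂ) →ₗ[ℂ] (Fin m × Fin n → ℂ) where
  toFun v := fun q => ∑ k, v (q.1, q.2, k) * u k
  map_add' := by intro a b; funext q; simp [add_mul, Finset.sum_add_distrib]
  map_smul' := by intro c a; funext q; simp [Finset.mul_sum, mul_assoc]

/-- left evaluation -/
def evB (w : Fin n → ℂ) : (Idx m n → ℂ) →ₗ[ℂ] (Fin m × Fin n → ℂ) where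
  toFun v := fun q => ∑ j, v (q.1, j, q.2) * w j
  map_add' := by intro a b; funext q; simp [add_mul, Finset.sum_add_distrib]
  map_smul' := by intro c a; funext q; simp [Finset.mul_sum, mul_assoc]

def AA (m : ℕ) {n : ℕ} (u : Fin n → ℂ) : Submodule ℂ (Idx m n → ℂ) := LinearMap.ker (evA u)
def BBs (m : ℕ) {n : ℕ} (w : Fin n → ℂ) : Submodule ℂ (Idx m n → ℂ) := LinearMap.ker (evB w)

theorem mem_AA {u : Fin n → ℂ} {v : Idx m n → ℂ} :
    v ∈ AA m u ↔ ∀ i j, ∑ k, v (i, j, k) * u k = 0 := by
  unfold AA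
  rw [LinearMap.mem_ker]
  constructor
  · intro h i j; exact congrFun h (i, j)
  · intro h; funext q; exact h q.1 q.2

theorem mem_BBs {w : Fin n → ℂ} {v : Idx m n → ℂ} :
    v ∈ BBs m w ↔ ∀ i k, ∑ j, v (i, j, k) * w j = 0 := by
  unfold BBs
  rw [LinearMap.mem_ker]
  constructor
  · intro h i j; exact congrFun h (i, j)
  · intro h; funext q; exact h q.1 q.2

theorem finrank_V : finrank ℂ (Idx m n → ℂ) = m * (n * n) := by
  rw [Module.finrank_fintype_fun_eq_card, Fintype.card_prod, Fintype.card_prod, Fintype.card_fin,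
    Fintype.card_fin]

theorem finrank_AA {u : Fin n → ℂ} (hu : u ≠ 0) : finrank ℂ (AA m u) = m * (n * n - n) := by
  obtain ⟨k0, hk0⟩ := Function.ne_iff.mp hu
  have hs : Function.Surjective (evA (m := m) u) := by
    intro y
    refine ⟨fun p => if p.2.2 = k0 then y (p.1, p.2.1) / u k0 else 0, ?_⟩
    funext q
    show ∑ k, (if k = k0 then y (q.1, q.2) / u k0 else 0) * u k = y q
    rw [Finset.sum_eq_single k0]
    · rw [if_pos rfl, div_mul_cancel₀]
      exact hk0
    · intro k _ hk; rw [if_neg hk, zero_mul]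
    · intro h; exact absurd (Finset.mem_univ _) h
  have h1 := LinearMap.finrank_range_add_finrank_ker (evA (m := m) u)
  rw [LinearMap.range_eq_top.mpr hs, finrank_top, Module.finrank_fintype_fun_eq_card,
    Fintype.card_prod, Fintype.card_fin, Fintype.card_fin, finrank_V] at h1
  show finrank ℂ (LinearMap.ker (evA u)) = _
  rw [Nat.mul_sub]
  omega

theorem finrank_BBs {u : Fin n → ℂ} (hu : u ≠ 0) : finrank ℂ (BBs m u) = m * (n * n - n) := by
  obtain ⟨k0, hk0⟩ := Function.ne_iff.mp hu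
  have hs : Function.Surjective (evB (m := m) u) := by
    intro y
    refine ⟨fun p => if p.2.1 = k0 then y (p.1, p.2.2) / u k0 else 0, ?_⟩
    funext q
    show ∑ k, (if k = k0 then y (q.1, q.2) / u k0 else 0) * u k = y q
    rw [Finset.sum_eq_single k0]
    · rw [if_pos rfl, div_mul_cancel₀]
      exact hk0
    · intro k _ hk; rw [if_neg hk, zero_mul]
    · intro h; exact absurd (Finset.mem_univ _) h
  have h1 := LinearMap.finrank_range_add_finrank_ker (evB (m := m) u)
  rw [LinearMap.range_eq_top.mpr hs, finrank_top, Module.finrank_fintype_fun_eq_card,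
    Fintype.card_prod, Fintype.card_fin, Fintype.card_fin, finrank_V] at h1
  show finrank ℂ (LinearMap.ker (evB u)) = _
  rw [Nat.mul_sub]
  omega

theorem AA_SING {u : Fin n → ℂ} (hu : u ≠ 0) {v : Idx m n → ℂ} (hv : v ∈ AA m u) : v ∈ SING m n := by
  intro c
  rw [← Matrix.exists_mulVec_eq_zero_iff]
  refine ⟨u, hu, ?_⟩
  funext j
  rw [mem_AA] at hv
  simp only [Matrix.mulVec, dotProduct, sl, Matrix.of_apply, Finset.sum_mul]
  rw [Finset.sum_comm]
  apply Finset.sum_eq_zero
  intro i _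
  have := hv i j
  simp only [mul_assoc]
  rw [← Finset.mul_sum, this, mul_zero]

theorem BBs_SING {w : Fin n → ℂ} (hw : w ≠ 0) {v : Idx m n → ℂ} (hv : v ∈ BBs m w) : v ∈ SING m n := by
  intro c
  rw [← Matrix.exists_vecMul_eq_zero_iff]
  refine ⟨w, hw, ?_⟩
  funext k
  rw [mem_BBs] at hv
  simp only [Matrix.vecMul, dotProduct, sl, Matrix.of_apply, Finset.mul_sum]
  rw [Finset.sum_comm]
  apply Finset.sum_eq_zero
  intro i _
  have := hv i k
  have h2 : ∀ j, w j * (c i * v (i, j, k)) = c i * (v (i, j, k) * w j) := fun j => by ring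
  simp only [h2]
  rw [← Finset.mul_sum, this, mul_zero]

/-- slices with coefficients, as a linear map -/
def slL (c : Fin m → ℂ) : (Idx m n → ℂ) →ₗ[ℂ] Matrix (Fin n) (Fin n) ℂ where
  toFun v := sl c v
  map_add' := by
    intro a b; ext j k
    simp [sl, mul_add, Finset.sum_add_distrib]
  map_smul' := by
    intro r a; ext j k
    simp only [sl, Matrix.of_apply, Pi.smul_apply, smul_eq_mul, RingHom.id_apply, Matrix.smul_apply,
      Finset.mul_sum]
    apply Finset.sum_congr rfl
    intro i _; ring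

theorem sl_single (i : Fin m) (v : Idx m n → ℂ) (j k : Fin n) :
    sl (Pi.single i 1) v j k = v (i, j, k) := by
  simp only [sl, Matrix.of_apply]
  rw [Finset.sum_eq_single i]
  · simp
  · intro b _ hb; simp [Pi.single_apply, hb]
  · intro h; exact absurd (Finset.mem_univ _) h

theorem tup (hm : 1 ≤ m) (hn : 1 ≤ n) (L : Submodule ℂ (Idx m n → ℂ)) (hL : ∀ v ∈ L, v ∈ SING m n)
    (hdim : m * (n * n - n) ≤ finrank ℂ L) :
    (∃ u : Fin n → ℂ, u ≠ 0 ∧ L = AA m u) ∨ (∃ w : Fin n → ℂ, w ≠ 0 ∧ L = BBs m w) := by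
  classical
  let Li : Fin m → Submodule ℂ (Matrix (Fin n) (Fin n) ℂ) := fun i => L.map (slL (Pi.single i 1))
  have hLi : ∀ i, ∀ X ∈ Li i, X.det = 0 := by
    rintro i _ ⟨v, hv, rfl⟩
    exact hL v hv _
  have hfr : ∀ i, finrank ℂ (Li i) ≤ n * n - n := fun i => (dieu hn (Li i) (hLi i)).1
  let ψ : L →ₗ[ℂ] (∀ i, Li i) := LinearMap.pi fun i =>
    ((slL (Pi.single i 1)).domRestrict L).codRestrict (Li i)
      (fun v => Submodule.mem_map_of_mem v.2)
  have hψ : ∀ (v : L) i, ((ψ v i : Li i) : Matrix (Fin n) (Fin n) ℂ) = sl (Pi.single i 1) v.1 :=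
    fun _ _ => rfl
  have hψinj : Function.Injective ψ := by
    rw [injective_iff_map_eq_zero]
    intro v hv
    apply Subtype.ext
    funext p
    obtain ⟨i, j, k⟩ := p
    have h1 : sl (Pi.single i 1) v.1 = 0 := by
      rw [← hψ, hv]; rfl
    rw [← sl_single i v.1 j k, h1]
    rfl
  have hle := LinearMap.finrank_le_finrank_of_injective hψinj
  rw [Module.finrank_pi_fintype] at hle
  have hsum : ∑ i, finrank ℂ (Li i) ≤ m * (n * n - n) := by
    calc ∑ i, finrank ℂ (Li i) ≤ ∑ _i : Fin m, (n * n - n) := Finset.sum_le_sum fun i _ => hfr i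
      _ = m * (n * n - n) := by simp
  have hsumeq : ∑ i, finrank ℂ (Li i) = ∑ _i : Fin m, (n * n - n) := by
    have : ∑ _i : Fin m, (n * n - n) = m * (n * n - n) := by simp
    omega
  have hfreq : ∀ i, finrank ℂ (Li i) = n * n - n := by
    intro i
    exact (Finset.sum_eq_sum_iff_of_le (fun i _ => hfr i)).mp hsumeq i (Finset.mem_univ i)
  have hψsurj : Function.Surjective ψ := by
    rw [← LinearMap.range_eq_top]
    apply Submodule.eq_top_of_finrank_eq
    rw [LinearMap.finrank_range_of_inj hψinj, Module.finrank_pi_fintype]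
    have : ∑ _i : Fin m, (n * n - n) = m * (n * n - n) := by simp
    omega
  -- all `Li` coincide
  have hone : ∀ i i', Li i' ≤ Li i := by
    intro i i'
    by_cases hii : i = i'
    · rw [hii]
    let M := L.map (slL (Pi.single i 1 + Pi.single i' 1 : Fin m → ℂ))
    have hM : ∀ X ∈ M, X.det = 0 := by
      rintro _ ⟨v, hv, rfl⟩
      exact hL v hv _
    have hMfr := (dieu hn M hM).1
    have hadd : ∀ v : Idx m n → ℂ, sl (Pi.single i 1 + Pi.single i' 1 : Fin m → ℂ) v =
        sl (Pi.single i 1) v + sl (Pi.single i' 1) v := by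
      intro v; ext j k
      simp [sl, add_mul, Finset.sum_add_distrib]
    have h1 : ∀ l, l = i ∨ l = i' → Li l ≤ M := by
      intro l hl X hX
      obtain ⟨v, hv⟩ := hψsurj (Pi.single l ⟨X, hX⟩)
      have hvl : ∀ l', sl (Pi.single l' 1) v.1 = ((Pi.single l ⟨X, hX⟩ : ∀ i, Li i) l' : Matrix _ _ ℂ) := by
        intro l'
        rw [← hψ, hv]
      refine ⟨v.1, v.2, ?_⟩
      show sl (Pi.single i 1 + Pi.single i' 1 : Fin m → ℂ) v.1 = X
      rw [hadd, hvl, hvl]
      rcases hl with rfl | rfl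
      · rw [Pi.single_eq_same, Pi.single_eq_of_ne (Ne.symm hii)]
        simp
      · rw [Pi.single_eq_same, Pi.single_eq_of_ne hii]
        simp
    have h2 : Li i = M := Submodule.eq_of_le_of_finrank_le (h1 i (Or.inl rfl)) (by rw [hfreq]; exact hMfr)
    rw [h2]
    exact h1 i' (Or.inr rfl)
  let i0 : Fin m := ⟨0, by omega⟩
  have hmem : ∀ v ∈ L, ∀ i, sl (Pi.single i 1) v ∈ Li i0 := by
    intro v hv i
    exact hone i0 i (Submodule.mem_map_of_mem (f := slL (Pi.single i 1)) hv)
  rcases (dieu hn (Li i0) (hLi i0)).2 (hfreq i0).ge with ⟨u, hu, h⟩ | ⟨w, hw, h⟩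
  · left
    refine ⟨u, hu, ?_⟩
    apply Submodule.eq_of_le_of_finrank_le
    · intro v hv
      rw [mem_AA]
      intro i j
      have := congrFun (h _ (hmem v hv i)) j
      simp only [Matrix.mulVec, dotProduct, sl_single] at this
      exact this
    · rw [finrank_AA hu]; exact hdim
  · right
    refine ⟨w, hw, ?_⟩
    apply Submodule.eq_of_le_of_finrank_le
    · intro v hv
      rw [mem_BBs]
      intro i k
      have := congrFun (h _ (hmem v hv i)) k
      simp only [Matrix.vecMul, dotProduct, sl_single] at this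
      refine Eq.trans ?_ this
      apply Finset.sum_congr rfl
      intro j _; ring
    · rw [finrank_BBs hw]; exact hdim

end H598R5
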