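import Mathlib
import Pool.Agent.H598R5.Sym1
import Pool.Agent.H598R5.Split

open Matrix Filter Topology Module

namespace H598R5

variable {m n : ℕ}

theorem perp_ex (hn : 2 ≤ n) (w : Fin n → ℂ) : ∃ x : Fin n → ℂ, x ≠ 0 ∧ ∑ j, x j * w j = 0 := by
  let j0 : Fin n := ⟨0, by omega⟩
  let j1 : Fin n := ⟨1, by omega⟩
  have h01 : j0 ≠ j1 := by intro h; have := congrArg Fin.val h; simp [j0, j1] at this
  by_cases hw : w j1 = 0
  · refine ⟨Pi.single j1 1, ?_, ?_⟩
    · intro h; have := congrFun h j1; simp at this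
    · rw [Finset.sum_eq_single j1]
      · simp [hw]
      · intro b _ hb; simp [Pi.single_apply, hb]
      · intro h; exact absurd (Finset.mem_univ _) h
  · refine ⟨w j1 • Pi.single j0 1 - w j0 • Pi.single j1 1, ?_, ?_⟩
    · intro h
      have := congrFun h j0
      simp [Pi.single_apply, h01] at this
      exact hw this
    · simp only [Pi.sub_apply, Pi.smul_apply, smul_eq_mul, sub_mul, Finset.sum_sub_distrib, mul_assoc,
        ← Finset.mul_sum]
      have e : ∀ a : Fin n, ∑ j, (Pi.single a 1 : Fin n → ℂ) j * w j = w a := by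
        intro a
        rw [Finset.sum_eq_single a]
        · simp
        · intro b _ hb; simp [Pi.single_apply, hb]
        · intro h; exact absurd (Finset.mem_univ _) h
      rw [e, e]; ring

theorem test_y (u : Fin n → ℂ) (a b : Fin n) (z : Fin n → ℂ) :
    ∑ k, (u a • (Pi.single b 1 : Fin n → ℂ) - u b • (Pi.single a 1 : Fin n → ℂ)) k * z k =
      u a * z b - u b * z a := by
  simp only [Pi.sub_apply, Pi.smul_apply, smul_eq_mul, sub_mul, Finset.sum_sub_distrib, mul_assoc,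
    ← Finset.mul_sum]
  have e : ∀ a : Fin n, ∑ j, (Pi.single a 1 : Fin n → ℂ) j * z j = z a := by
    intro a
    rw [Finset.sum_eq_single a]
    · simp
    · intro b _ hb; simp [Pi.single_apply, hb]
    · intro h; exact absurd (Finset.mem_univ _) h
  rw [e, e]

theorem factA (hm : 1 ≤ m) (hn : 2 ≤ n) (u u' w : Fin n → ℂ) (hu : u ≠ 0)
    (h : AA m u ⊓ BBs m w ≤ AA m u') : ∃ c : ℂ, u' = c • u := by
  obtain ⟨a, ha⟩ := Function.ne_iff.mp hu
  obtain ⟨x, hx0, hx⟩ := perp_ex hn w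
  obtain ⟨j, hj⟩ := Function.ne_iff.mp hx0
  have key : ∀ b, u a * u' b - u b * u' a = 0 := by
    intro b
    let y : Fin n → ℂ := u a • (Pi.single b 1 : Fin n → ℂ) - u b • (Pi.single a 1 : Fin n → ℂ)
    let v : Idx m n → ℂ := fun p => x p.2.1 * y p.2.2
    have hv1 : v ∈ AA m u := by
      rw [mem_AA]
      intro i j
      show ∑ k, (x j * y k) * u k = 0
      simp only [mul_assoc, ← Finset.mul_sum]
      rw [test_y]; ring
    have hv2 : v ∈ BBs m w := by
      rw [mem_BBs]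
      intro i k
      show ∑ j, (x j * y k) * w j = 0
      have : ∀ j, (x j * y k) * w j = y k * (x j * w j) := fun j => by ring
      simp only [this, ← Finset.mul_sum]
      rw [hx, mul_zero]
    have hv3 := h ⟨hv1, hv2⟩
    rw [mem_AA] at hv3
    have h4 : ∑ k, (x j * y k) * u' k = 0 := hv3 ⟨0, by omega⟩ j
    simp only [mul_assoc, ← Finset.mul_sum] at h4
    rw [test_y] at h4
    exact (mul_eq_zero.mp h4).resolve_left hj
  refine ⟨u' a / u a, ?_⟩
  funext b
  have ha' : u a ≠ 0 := ha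
  rw [Pi.smul_apply, smul_eq_mul]
  field_simp
  linear_combination key b

theorem factB (hm : 1 ≤ m) (hn : 2 ≤ n) (u w w' : Fin n → ℂ) (hw : w ≠ 0)
    (h : AA m u ⊓ BBs m w ≤ BBs m w') : ∃ c : ℂ, w' = c • w := by
  obtain ⟨a, ha⟩ := Function.ne_iff.mp hw
  obtain ⟨x, hx0, hx⟩ := perp_ex hn u
  obtain ⟨j, hj⟩ := Function.ne_iff.mp hx0
  have key : ∀ b, w a * w' b - w b * w' a = 0 := by
    intro b
    let y : Fin n → ℂ := w a • (Pi.single b 1 : Fin n → ℂ) - w b • (Pi.single a 1 : Fin n → ℂ)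
    let v : Idx m n → ℂ := fun p => x p.2.2 * y p.2.1
    have hv1 : v ∈ BBs m w := by
      rw [mem_BBs]
      intro i k
      show ∑ j, (x k * y j) * w j = 0
      simp only [mul_assoc, ← Finset.mul_sum]
      rw [test_y]; ring
    have hv2 : v ∈ AA m u := by
      rw [mem_AA]
      intro i j
      show ∑ k, (x k * y j) * u k = 0
      have : ∀ k, (x k * y j) * u k = y j * (x k * u k) := fun j => by ring
      simp only [this, ← Finset.mul_sum]
      rw [hx, mul_zero]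
    have hv3 := h ⟨hv2, hv1⟩
    rw [mem_BBs] at hv3
    have h4 : ∑ k, (x j * y k) * w' k = 0 := hv3 ⟨0, by omega⟩ j
    simp only [mul_assoc, ← Finset.mul_sum] at h4
    rw [test_y] at h4
    exact (mul_eq_zero.mp h4).resolve_left hj
  refine ⟨w' a / w a, ?_⟩
  funext b
  have ha' : w a ≠ 0 := ha
  rw [Pi.smul_apply, smul_eq_mul]
  field_simp
  linear_combination key b

theorem AA_smul {c : ℂ} (hc : c ≠ 0) (u : Fin n → ℂ) : AA m (c • u) = AA m u := by
  ext v
  rw [mem_AA, mem_AA]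
  apply forall_congr'; intro i; apply forall_congr'; intro j
  have : ∑ k, v (i, j, k) * (c • u) k = c * ∑ k, v (i, j, k) * u k := by
    rw [Finset.mul_sum]; apply Finset.sum_congr rfl; intro k _
    rw [Pi.smul_apply, smul_eq_mul]; ring
  rw [this]
  constructor
  · intro h; exact (mul_eq_zero.mp h).resolve_left hc
  · intro h; rw [h, mul_zero]

theorem BBs_smul {c : ℂ} (hc : c ≠ 0) (u : Fin n → ℂ) : BBs m (c • u) = BBs m u := by
  ext v
  rw [mem_BBs, mem_BBs]
  apply forall_congr'; intro i; apply forall_congr'; intro j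
  have : ∑ k, v (i, k, j) * (c • u) k = c * ∑ k, v (i, k, j) * u k := by
    rw [Finset.mul_sum]; apply Finset.sum_congr rfl; intro k _
    rw [Pi.smul_apply, smul_eq_mul]; ring
  rw [this]
  constructor
  · intro h; exact (mul_eq_zero.mp h).resolve_left hc
  · intro h; rw [h, mul_zero]

theorem AA_ne_BBs (hm : 1 ≤ m) (hn : 2 ≤ n) (u w : Fin n → ℂ) (hw : w ≠ 0) :
    AA m u ≠ BBs m w := by
  intro h
  let j0 : Fin n := ⟨0, by omega⟩
  let j1 : Fin n := ⟨1, by omega⟩
  have h01 : j0 ≠ j1 := by intro h; have := congrArg Fin.val h; simp [j0, j1] at this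
  have he : ∀ j : Fin n, (Pi.single j 1 : Fin n → ℂ) ≠ 0 := by
    intro j h; have := congrFun h j; simp at this
  obtain ⟨c, hc⟩ := factB hm hn u (Pi.single j0 1) w (he j0) (by rw [← h]; exact inf_le_left)
  obtain ⟨c', hc'⟩ := factB hm hn u (Pi.single j1 1) w (he j1) (by rw [← h]; exact inf_le_left)
  apply hw
  funext b
  by_cases hb : b = j0
  · rw [hc', hb]; simp [Pi.single_apply, h01]
  · rw [hc]; simp [Pi.single_apply, hb]

def IsA (M : Submodule ℂ (Idx m n → ℂ)) : Prop := ∃ u : Fin n → ℂ, u ≠ 0 ∧ M = AA m u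
def IsB (M : Submodule ℂ (Idx m n → ℂ)) : Prop := ∃ u : Fin n → ℂ, u ≠ 0 ∧ M = BBs m u

abbrev VV (m n : ℕ) : Type := Idx m n → ℂ

def mp (φ : VV m n ≃ₗ[ℂ] VV m n) (M : Submodule ℂ (VV m n)) : Submodule ℂ (VV m n) :=
  M.map (φ : VV m n →ₗ[ℂ] VV m n)

theorem mp_symm (φ : VV m n ≃ₗ[ℂ] VV m n) (M : Submodule ℂ (VV m n)) : mp φ.symm (mp φ M) = M := by
  unfold mp
  rw [← Submodule.map_comp]
  simp

theorem mp_symm' (φ : VV m n ≃ₗ[ℂ] VV m n) (M : Submodule ℂ (VV m n)) : mp φ (mp φ.symm M) = M := by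
  have := mp_symm φ.symm M
  simpa using this

theorem mp_inf_le (φ : VV m n ≃ₗ[ℂ] VV m n) {M N P : Submodule ℂ (VV m n)} (h : M ⊓ N ≤ P) :
    mp φ M ⊓ mp φ N ≤ mp φ P := by
  rintro _ ⟨⟨v, hv, rfl⟩, ⟨v', hv', hvv⟩⟩
  have : v' = v := φ.injective hvv
  rw [this] at hv'
  exact ⟨v, h ⟨hv, hv'⟩, rfl⟩

theorem mp_type (hm : 1 ≤ m) (hn : 1 ≤ n) (φ : VV m n ≃ₗ[ℂ] VV m n)
    (h : ∀ v, φ v ∈ SING m n ↔ v ∈ SING m n) (M : Submodule ℂ (VV m n)) (hM : IsA M ∨ IsB M) :
    IsA (mp φ M) ∨ IsB (mp φ M) := by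
  apply tup hm hn
  · rintro _ ⟨v, hv, rfl⟩
    rw [LinearEquiv.coe_coe, h]
    rcases hM with ⟨u, hu, rfl⟩ | ⟨u, hu, rfl⟩
    · exact AA_SING hu hv
    · exact BBs_SING hu hv
  · have : finrank ℂ (mp φ M) = finrank ℂ M := LinearEquiv.finrank_map_eq φ M
    rw [this]
    rcases hM with ⟨u, hu, rfl⟩ | ⟨u, hu, rfl⟩
    · rw [finrank_AA hu]
    · rw [finrank_BBs hu]

theorem mixed (hm : 1 ≤ m) (hn : 2 ≤ n) (φ : VV m n ≃ₗ[ℂ] VV m n)
    (h : ∀ v, φ v ∈ SING m n ↔ v ∈ SING m n) (u u' a b : Fin n → ℂ) (hu : u ≠ 0) (hu' : u' ≠ 0)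
    (ha : a ≠ 0) (hb : b ≠ 0) (h1 : mp φ (AA m u) = AA m a) (h2 : mp φ (AA m u') = BBs m b) : False := by
  have hinj : ∀ M N, mp φ M = mp φ N → M = N := by
    intro M N hMN
    rw [← mp_symm φ M, hMN, mp_symm]
  have hpar : ∀ c : ℂ, u' ≠ c • u := by
    intro c hc
    have hc0 : c ≠ 0 := by rintro rfl; rw [zero_smul] at hc; exact hu' hc
    have : AA m u' = AA m u := by rw [hc, AA_smul hc0]
    rw [this, h1] at h2
    exact AA_ne_BBs hm hn _ _ hb h2
  have hsum : u + u' ≠ 0 := by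
    intro h0
    apply hpar (-1)
    rw [neg_one_smul]; exact (neg_eq_of_add_eq_zero_right h0).symm
  have hle : AA m u ⊓ AA m u' ≤ AA m (u + u') := by
    rintro v ⟨hv1, hv2⟩
    rw [SetLike.mem_coe, mem_AA] at hv1 hv2
    rw [mem_AA]
    intro i j
    simp only [Pi.add_apply, mul_add, Finset.sum_add_distrib]
    rw [hv1, hv2, add_zero]
  have hle2 := mp_inf_le φ hle
  rw [h1, h2] at hle2
  rcases mp_type hm (by omega) φ h (AA m (u + u')) (Or.inl ⟨_, hsum, rfl⟩) with ⟨a', ha', h3⟩ | ⟨b', hb', h3⟩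
  · rw [h3] at hle2
    obtain ⟨c, hc⟩ := factA hm hn a a' b ha hle2
    have hc0 : c ≠ 0 := by rintro rfl; rw [zero_smul] at hc; exact ha' hc
    rw [hc, AA_smul hc0, ← h1] at h3
    have h4 := hinj _ _ h3
    obtain ⟨d, hd⟩ := factA hm hn u (u + u') b hu (by rw [h4]; exact inf_le_left)
    apply hpar (d - 1)
    rw [sub_smul, one_smul, ← hd]; abel
  · rw [h3] at hle2
    obtain ⟨c, hc⟩ := factB hm hn a b b' hb hle2
    have hc0 : c ≠ 0 := by rintro rfl; rw [zero_smul] at hc; exact hb' hc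
    rw [hc, BBs_smul hc0, ← h2] at h3
    have h4 := hinj _ _ h3
    obtain ⟨d, hd⟩ := factA hm hn u' (u + u') b hu' (by rw [h4]; exact inf_le_left)
    have hd1 : d - 1 ≠ 0 := by
      intro h0
      have : d = 1 := sub_eq_zero.mp h0
      rw [this, one_smul] at hd
      exact hu (by simpa using hd)
    have h5 : u = (d - 1) • u' := by rw [sub_smul, one_smul, ← hd]; abel
    apply hpar (d - 1)⁻¹
    conv_rhs => rw [h5]
    rw [smul_smul, inv_mul_cancel₀ hd1, one_smul]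

theorem mixed' (hm : 1 ≤ m) (hn : 2 ≤ n) (φ : VV m n ≃ₗ[ℂ] VV m n)
    (h : ∀ v, φ v ∈ SING m n ↔ v ∈ SING m n) (u w a a1 : Fin n → ℂ) (hu : u ≠ 0) (hw : w ≠ 0)
    (ha : a ≠ 0) (ha1 : a1 ≠ 0) (h1 : mp φ (AA m u) = AA m a) (h2 : mp φ (BBs m w) = AA m a1) : False := by
  refine mixed hm hn φ.symm ?_ a a1 u w ha ha1 hu hw ?_ ?_
  · intro v
    rw [← h (φ.symm v), LinearEquiv.apply_symm_apply]
  · rw [← h1, mp_symm]
  · rw [← h2, mp_symm]

/-- annihilator of `AA u` -/
theorem annA (u : Fin n → ℂ) (hu : u ≠ 0) (ψ : VV m n) (hψ : ∀ v ∈ AA m u, ψ ⬝ᵥ v = 0) :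
    ∃ y : Fin m × Fin n → ℂ, ∀ i j k, ψ (i, j, k) = y (i, j) * u k := by
  obtain ⟨a, ha⟩ := Function.ne_iff.mp hu
  have ha' : u a ≠ 0 := ha
  refine ⟨fun q => ψ (q.1, q.2, a) / u a, ?_⟩
  intro i j k
  let y : Fin n → ℂ := u a • (Pi.single k 1 : Fin n → ℂ) - u k • (Pi.single a 1 : Fin n → ℂ)
  let v : VV m n := fun p => if p.1 = i ∧ p.2.1 = j then y p.2.2 else 0
  have hv : v ∈ AA m u := by
    rw [mem_AA]
    intro i' j'
    show ∑ l, (if i' = i ∧ j' = j then y l else 0) * u l = 0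
    by_cases hh : i' = i ∧ j' = j
    · simp only [if_pos hh]
      rw [test_y]; ring
    · simp only [if_neg hh, zero_mul, Finset.sum_const_zero]
  have h1 := hψ v hv
  have h2 : ψ ⬝ᵥ v = ∑ l, y l * ψ (i, j, l) := by
    rw [dotProduct, Fintype.sum_prod_type, Finset.sum_eq_single i]
    · rw [Fintype.sum_prod_type, Finset.sum_eq_single j]
      · apply Finset.sum_congr rfl
        intro l _
        show ψ (i, j, l) * (if i = i ∧ j = j then y l else 0) = _
        rw [if_pos ⟨rfl, rfl⟩]; ring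
      · intro j' _ hj'
        apply Finset.sum_eq_zero
        intro l _
        show ψ (i, j', l) * (if i = i ∧ j' = j then y l else 0) = _
        rw [if_neg (fun hh => hj' hh.2), mul_zero]
      · intro hh; exact absurd (Finset.mem_univ _) hh
    · intro i' _ hi'
      apply Finset.sum_eq_zero
      intro q _
      show ψ (i', q) * (if i' = i ∧ q.1 = j then y q.2 else 0) = _
      rw [if_neg (fun hh => hi' hh.1), mul_zero]
    · intro hh; exact absurd (Finset.mem_univ _) hh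
  rw [h2, test_y] at h1
  show ψ (i, j, k) = ψ (i, j, a) / u a * u k
  field_simp
  linear_combination h1

theorem annB (u : Fin n → ℂ) (hu : u ≠ 0) (ψ : VV m n) (hψ : ∀ v ∈ BBs m u, ψ ⬝ᵥ v = 0) :
    ∃ y : Fin m × Fin n → ℂ, ∀ i j k, ψ (i, j, k) = y (i, k) * u j := by
  obtain ⟨a, ha⟩ := Function.ne_iff.mp hu
  have ha' : u a ≠ 0 := ha
  refine ⟨fun q => ψ (q.1, a, q.2) / u a, ?_⟩
  intro i j k
  let y : Fin n → ℂ := u a • (Pi.single j 1 : Fin n → ℂ) - u j • (Pi.single a 1 : Fin n → ℂ)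
  let v : VV m n := fun p => if p.1 = i ∧ p.2.2 = k then y p.2.1 else 0
  have hv : v ∈ BBs m u := by
    rw [mem_BBs]
    intro i' k'
    show ∑ l, (if i' = i ∧ k' = k then y l else 0) * u l = 0
    by_cases hh : i' = i ∧ k' = k
    · simp only [if_pos hh]
      rw [test_y]; ring
    · simp only [if_neg hh, zero_mul, Finset.sum_const_zero]
  have h1 := hψ v hv
  have h2 : ψ ⬝ᵥ v = ∑ l, y l * ψ (i, l, k) := by
    rw [dotProduct, Fintype.sum_prod_type, Finset.sum_eq_single i]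
    · rw [Fintype.sum_prod_type]
      apply Finset.sum_congr rfl
      intro l _
      rw [Finset.sum_eq_single k]
      · show ψ (i, l, k) * (if i = i ∧ k = k then y l else 0) = _
        rw [if_pos ⟨rfl, rfl⟩]; ring
      · intro k' _ hk'
        show ψ (i, l, k') * (if i = i ∧ k' = k then y l else 0) = _
        rw [if_neg (fun hh => hk' hh.2), mul_zero]
      · intro hh; exact absurd (Finset.mem_univ _) hh
    · intro i' _ hi'
      apply Finset.sum_eq_zero
      intro q _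
      show ψ (i', q) * (if i' = i ∧ q.2 = k then y q.1 else 0) = _
      rw [if_neg (fun hh => hi' hh.1), mul_zero]
    · intro hh; exact absurd (Finset.mem_univ _) hh
  rw [h2, test_y] at h1
  show ψ (i, j, k) = ψ (i, a, k) / u a * u j
  field_simp
  linear_combination h1

end H598R5
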