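import Mathlib
import Pool.Agent.H598R5.Sym2

open Matrix Filter Topology Module
open scoped Kronecker

namespace H598R5

variable {m n : ℕ}

theorem classI (hm : 1 ≤ m) (hn : 2 ≤ n) (φ : VV m n ≃ₗ[ℂ] VV m n)
    (h : ∀ v, φ v ∈ SING m n ↔ v ∈ SING m n)
    (hA : ∀ u : Fin n → ℂ, u ≠ 0 → IsA (mp φ (AA m u)))
    (hB : ∀ u : Fin n → ℂ, u ≠ 0 → IsB (mp φ (BBs m u))) :
    ∃ g : GG m n, ∀ v, φ v = T g *ᵥ v := by
  classical
  haveI : Nonempty (Fin m) := ⟨⟨0, by omega⟩⟩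
  haveI : Nonempty (Fin n) := ⟨⟨0, by omega⟩⟩
  have hsymm : ∀ v, φ.symm v ∈ SING m n ↔ v ∈ SING m n := by
    intro v
    rw [← h (φ.symm v), LinearEquiv.apply_symm_apply]
  have hA' : ∀ a : Fin n → ℂ, a ≠ 0 → ∃ u : Fin n → ℂ, u ≠ 0 ∧ mp φ (AA m u) = AA m a := by
    intro a ha
    rcases mp_type hm (by omega) φ.symm hsymm (AA m a) (Or.inl ⟨a, ha, rfl⟩) with ⟨u, hu, h1⟩ | ⟨w, hw, h1⟩
    · exact ⟨u, hu, by rw [← h1, mp_symm']⟩
    · exfalso
      obtain ⟨b, hb, h2⟩ := hB w hw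
      rw [← h1, mp_symm'] at h2
      exact AA_ne_BBs hm hn _ _ hb h2
  have hB' : ∀ a : Fin n → ℂ, a ≠ 0 → ∃ u : Fin n → ℂ, u ≠ 0 ∧ mp φ (BBs m u) = BBs m a := by
    intro a ha
    rcases mp_type hm (by omega) φ.symm hsymm (BBs m a) (Or.inr ⟨a, ha, rfl⟩) with ⟨u, hu, h1⟩ | ⟨w, hw, h1⟩
    · exfalso
      obtain ⟨b, hb, h2⟩ := hA u hu
      rw [← h1, mp_symm'] at h2
      exact AA_ne_BBs hm hn _ _ ha h2.symm
    · exact ⟨w, hw, by rw [← h1, mp_symm']⟩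
  set F : Matrix (Idx m n) (Idx m n) ℂ := LinearMap.toMatrix' (φ : VV m n →ₗ[ℂ] VV m n) with hF
  have hFv : ∀ v, F *ᵥ v = φ v := by
    intro v
    rw [hF, LinearMap.toMatrix'_mulVec]; rfl
  let Ψ0 : VV m n →ₗ[ℂ] VV m n := Matrix.mulVecLin Fᵀ
  have hΨ0 : ∀ ψ v : VV m n, (Ψ0 ψ) ⬝ᵥ v = ψ ⬝ᵥ φ v := by
    intro ψ v
    show (Fᵀ *ᵥ ψ) ⬝ᵥ v = _
    rw [← hFv, Matrix.dotProduct_mulVec, Matrix.mulVec_transpose]
  have hΨ0inj : Function.Injective Ψ0 := by
    rw [injective_iff_map_eq_zero]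
    intro ψ hψ
    funext p
    have h1 := hΨ0 ψ (φ.symm (Pi.single p 1))
    rw [hψ, zero_dotProduct, LinearEquiv.apply_symm_apply, dotProduct_single_one] at h1
    exact h1.symm
  let ε : Idx m n ≃ (Fin m × Fin n) × Fin n := (Equiv.prodAssoc _ _ _).symm
  let Ψ' : ((Fin m × Fin n) × Fin n → ℂ) →ₗ[ℂ] ((Fin m × Fin n) × Fin n → ℂ) :=
    (LinearMap.funLeft ℂ ℂ ε.symm).comp (Ψ0.comp (LinearMap.funLeft ℂ ℂ ε))
  have hΨ' : ∀ f i j k, Ψ' f ((i, j), k) = Ψ0 (fun p => f (ε p)) (i, j, k) := fun _ _ _ _ => rfl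
  have hΨ'inj : Function.Injective Ψ' := by
    rw [injective_iff_map_eq_zero]
    intro f hf
    have h1 : Ψ0 (fun p => f (ε p)) = 0 := by
      funext p
      obtain ⟨i, j, k⟩ := p
      have := congrFun hf ((i, j), k)
      rw [hΨ'] at this
      exact this
    have h2 := hΨ0inj (h1.trans (map_zero Ψ0).symm)
    funext q
    have := congrFun h2 (ε.symm q)
    simpa using this
  have hS : ∀ a : Fin n → ℂ, a ≠ 0 → ∃ u : Fin n → ℂ, ∀ x : Fin m × Fin n → ℂ,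
      ∃ y : Fin m × Fin n → ℂ, Ψ' (tens x a) = tens y u := by
    intro a ha
    obtain ⟨u, hu, hua⟩ := hA' a ha
    refine ⟨u, fun x => ?_⟩
    obtain ⟨y, hy⟩ := annA u hu (Ψ0 (fun p => tens x a (ε p))) (by
      intro v hv
      rw [hΨ0]
      have h1 : φ v ∈ AA m a := by rw [← hua]; exact ⟨v, hv, rfl⟩
      rw [mem_AA] at h1
      rw [dotProduct, Fintype.sum_prod_type]
      apply Finset.sum_eq_zero
      intro i _
      rw [Fintype.sum_prod_type]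
      apply Finset.sum_eq_zero
      intro j _
      show ∑ k, (x (i, j) * a k) * φ v (i, j, k) = 0
      have : ∀ k, (x (i, j) * a k) * φ v (i, j, k) = x (i, j) * (φ v (i, j, k) * a k) := fun k => by ring
      simp only [this, ← Finset.mul_sum]
      rw [h1, mul_zero])
    refine ⟨y, ?_⟩
    funext q
    obtain ⟨⟨i, j⟩, k⟩ := q
    rw [hΨ', hy]
    rfl
  obtain ⟨Ψ1, R, hR⟩ := split Ψ' hΨ'inj hS
  -- nonvanishing of `R a0`
  let a0 : Fin n → ℂ := Pi.single ⟨0, by omega⟩ 1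
  have ha0 : a0 ≠ 0 := by intro h0; have := congrFun h0 ⟨0, by omega⟩; simp [a0] at this
  have htens0 : ∀ (x : Fin m × Fin n → ℂ), tens x a0 = 0 → x = 0 := by
    intro x hx
    funext q
    have := congrFun hx (q, ⟨0, by omega⟩)
    simpa [tens, a0] using this
  have hRa0 : R *ᵥ a0 ≠ 0 := by
    intro h0
    let x1 : Fin m × Fin n → ℂ := fun _ => 1
    have h1 : Ψ' (tens x1 a0) = 0 := by
      rw [hR, h0]; funext q; simp [tens]
    have h2 := htens0 _ (hΨ'inj (h1.trans (map_zero Ψ').symm))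
    have := congrFun h2 (⟨0, by omega⟩, ⟨0, by omega⟩)
    simp [x1] at this
  obtain ⟨k1, hk1⟩ := Function.ne_iff.mp hRa0
  have hΨ1inj : Function.Injective Ψ1 := by
    rw [injective_iff_map_eq_zero]
    intro x hx
    have h1 : Ψ' (tens x a0) = 0 := by
      rw [hR, hx]; funext q; simp [tens]
    exact htens0 _ (hΨ'inj (h1.trans (map_zero Ψ').symm))
  have hS1 : ∀ b : Fin n → ℂ, b ≠ 0 → ∃ w : Fin n → ℂ, ∀ x : Fin m → ℂ,
      ∃ y : Fin m → ℂ, Ψ1 (tens x b) = tens y w := by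
    intro b hb
    obtain ⟨w, hw, hwb⟩ := hB' b hb
    refine ⟨w, fun x => ?_⟩
    obtain ⟨y, hy⟩ := annB w hw (Ψ0 (fun p => tens (tens x b) a0 (ε p))) (by
      intro v hv
      rw [hΨ0]
      have h1 : φ v ∈ BBs m b := by rw [← hwb]; exact ⟨v, hv, rfl⟩
      rw [mem_BBs] at h1
      rw [dotProduct, Fintype.sum_prod_type]
      apply Finset.sum_eq_zero
      intro i _
      rw [Fintype.sum_prod_type_right]
      apply Finset.sum_eq_zero
      intro k _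
      show ∑ j, ((x i * b j) * a0 k) * φ v (i, j, k) = 0
      have : ∀ j, ((x i * b j) * a0 k) * φ v (i, j, k) = (x i * a0 k) * (φ v (i, j, k) * b j) :=
        fun k => by ring
      simp only [this, ← Finset.mul_sum]
      rw [h1, mul_zero])
    refine ⟨fun i => y (i, k1) / (R *ᵥ a0) k1, ?_⟩
    funext q
    obtain ⟨i, j⟩ := q
    have h3 : Ψ' (tens (tens x b) a0) ((i, j), k1) = y (i, k1) * w j := by
      rw [hΨ', hy]
    rw [hR] at h3
    have h4 : Ψ1 (tens x b) (i, j) * (R *ᵥ a0) k1 = y (i, k1) * w j := h3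
    have hk1' : (R *ᵥ a0) k1 ≠ 0 := hk1
    show Ψ1 (tens x b) (i, j) = y (i, k1) / (R *ᵥ a0) k1 * w j
    field_simp
    exact h4
  obtain ⟨Ψ2, Q, hQ⟩ := split Ψ1 hΨ1inj hS1
  set P : Matrix (Fin m) (Fin m) ℂ := LinearMap.toMatrix' Ψ2 with hP
  have hPv : ∀ x, Ψ2 x = P *ᵥ x := by
    intro x; rw [hP, LinearMap.toMatrix'_mulVec]
  have hFT : Fᵀ = P ⊗ₖ (Q ⊗ₖ R) := by
    ext s t
    have h1 : Fᵀ s t = Ψ0 (Pi.single t 1) s := by
      show _ = (Fᵀ *ᵥ (Pi.single t 1 : VV m n)) s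
      rw [Matrix.mulVec_single_one]; rfl
    have h2 : (Pi.single t 1 : VV m n) = fun p => tens (tens (Pi.single t.1 1 : Fin m → ℂ)
        (Pi.single t.2.1 1 : Fin n → ℂ)) (Pi.single t.2.2 1 : Fin n → ℂ) (ε p) := by
      funext p
      show (Pi.single t 1 : VV m n) p = (Pi.single t.1 1 : Fin m → ℂ) p.1 *
        (Pi.single t.2.1 1 : Fin n → ℂ) p.2.1 * (Pi.single t.2.2 1 : Fin n → ℂ) p.2.2
      simp only [Pi.single_apply]
      by_cases h1 : p.1 = t.1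
      · by_cases h2 : p.2.1 = t.2.1
        · by_cases h3 : p.2.2 = t.2.2
          · rw [if_pos (Prod.ext h1 (Prod.ext h2 h3)), if_pos h1, if_pos h2, if_pos h3]; ring
          · rw [if_neg (fun hh => h3 (by rw [hh])), if_neg h3]; ring
        · rw [if_neg (fun hh => h2 (by rw [hh])), if_neg h2]; ring
      · rw [if_neg (fun hh => h1 (by rw [hh])), if_neg h1]; ring
    rw [h1, h2]
    obtain ⟨i, j, k⟩ := s
    have h3 := hΨ' (tens (tens (Pi.single t.1 1 : Fin m → ℂ)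
        (Pi.single t.2.1 1 : Fin n → ℂ)) (Pi.single t.2.2 1 : Fin n → ℂ)) i j k
    rw [← h3, hR, hQ, hPv]
    show (P *ᵥ Pi.single t.1 1) i * (Q *ᵥ Pi.single t.2.1 1) j * (R *ᵥ Pi.single t.2.2 1) k = _
    rw [Matrix.mulVec_single_one, Matrix.mulVec_single_one, Matrix.mulVec_single_one]
    show P i t.1 * Q j t.2.1 * R k t.2.2 = P i t.1 * (Q j t.2.1 * R k t.2.2)
    ring
  have hFdet : Fᵀ.det ≠ 0 := by
    rw [Matrix.det_transpose]
    intro h0
    obtain ⟨v, hv, hv0⟩ := Matrix.exists_mulVec_eq_zero_iff.mpr h0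
    rw [hFv] at hv0
    exact hv (φ.injective (hv0.trans (map_zero φ).symm))
  rw [hFT, Matrix.det_kronecker, Matrix.det_kronecker] at hFdet
  have hc1 : Fintype.card (Fin n × Fin n) ≠ 0 := Fintype.card_ne_zero
  have hc2 : Fintype.card (Fin m) ≠ 0 := Fintype.card_ne_zero
  have hc3 : Fintype.card (Fin n) ≠ 0 := Fintype.card_ne_zero
  have hPd : P.det ≠ 0 := by
    intro h0; rw [h0, zero_pow hc1, zero_mul] at hFdet; exact hFdet rfl
  have hQd : Q.det ≠ 0 := by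
    intro h0; rw [h0, zero_pow hc3, zero_mul, zero_pow hc2, mul_zero] at hFdet; exact hFdet rfl
  have hRd : R.det ≠ 0 := by
    intro h0; rw [h0, zero_pow hc3, mul_zero, zero_pow hc2, mul_zero] at hFdet; exact hFdet rfl
  refine ⟨(Matrix.GeneralLinearGroup.mkOfDetNeZero Pᵀ (by rwa [Matrix.det_transpose]),
    Matrix.GeneralLinearGroup.mkOfDetNeZero Qᵀ (by rwa [Matrix.det_transpose]),
    Matrix.GeneralLinearGroup.mkOfDetNeZero Rᵀ (by rwa [Matrix.det_transpose])), ?_⟩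
  intro v
  rw [← hFv]
  congr 1
  have : F = (P ⊗ₖ (Q ⊗ₖ R))ᵀ := by rw [← hFT, Matrix.transpose_transpose]
  rw [this]
  ext s t
  rfl

/-- transposition of the slices -/
def tau (m n : ℕ) : VV m n ≃ₗ[ℂ] VV m n :=
  LinearEquiv.funCongrLeft ℂ ℂ (Equiv.prodCongr (Equiv.refl (Fin m)) (Equiv.prodComm (Fin n) (Fin n)))

theorem tau_apply (v : VV m n) (i : Fin m) (j k : Fin n) : tau m n v (i, j, k) = v (i, k, j) := rfl

theorem tau_tau (v : VV m n) : tau m n (tau m n v) = v := by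
  funext p; rfl

theorem tau_SING (v : VV m n) : tau m n v ∈ SING m n ↔ v ∈ SING m n := by
  have : ∀ c, (sl c (tau m n v)).det = (sl c v).det := by
    intro c
    rw [← Matrix.det_transpose]
    rfl
  unfold SING
  simp only [Set.mem_setOf_eq]
  constructor
  · intro h c; rw [← this]; exact h c
  · intro h c; rw [this]; exact h c

theorem tau_BBs (w : Fin n → ℂ) : mp (tau m n) (BBs m w) = AA m w := by
  ext v
  constructor
  · rintro ⟨v', hv', rfl⟩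
    rw [SetLike.mem_coe, mem_BBs] at hv'
    rw [mem_AA]
    intro i j
    exact hv' i j
  · intro hv
    refine ⟨tau m n v, ?_, tau_tau v⟩
    rw [SetLike.mem_coe, mem_BBs]
    rw [mem_AA] at hv
    intro i k
    exact hv i k

/-- **Symmetries of `SING`** (Makam–Wigderson). -/
theorem classify (hm : 1 ≤ m) (hn : 2 ≤ n) (φ : VV m n ≃ₗ[ℂ] VV m n)
    (h : ∀ v, φ v ∈ SING m n ↔ v ∈ SING m n) :
    ∃ g : GG m n, (∀ v, φ v = T g *ᵥ v) ∨ (∀ v, φ v = tau m n (T g *ᵥ v)) := by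
  have main : ∀ (φ : VV m n ≃ₗ[ℂ] VV m n), (∀ v, φ v ∈ SING m n ↔ v ∈ SING m n) →
      (∃ u0 : Fin n → ℂ, u0 ≠ 0 ∧ IsA (mp φ (AA m u0))) → ∃ g : GG m n, ∀ v, φ v = T g *ᵥ v := by
    intro φ h ⟨u0, hu0, a0, ha0, h0⟩
    apply classI hm hn φ h
    · intro u hu
      rcases mp_type hm (by omega) φ h (AA m u) (Or.inl ⟨u, hu, rfl⟩) with h1 | ⟨b, hb, h1⟩
      · exact h1
      · exact (mixed hm hn φ h u0 u a0 b hu0 hu ha0 hb h0 h1).elim
    · intro w hw
      rcases mp_type hm (by omega) φ h (BBs m w) (Or.inr ⟨w, hw, rfl⟩) with ⟨b, hb, h1⟩ | h1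
      · exact (mixed' hm hn φ h u0 w a0 b hu0 hw ha0 hb h0 h1).elim
      · exact h1
  let u0 : Fin n → ℂ := Pi.single ⟨0, by omega⟩ 1
  have hu0 : u0 ≠ 0 := by intro h0; have := congrFun h0 ⟨0, by omega⟩; simp [u0] at this
  rcases mp_type hm (by omega) φ h (AA m u0) (Or.inl ⟨u0, hu0, rfl⟩) with h1 | ⟨b, hb, h1⟩
  · obtain ⟨g, hg⟩ := main φ h ⟨u0, hu0, h1⟩
    exact ⟨g, Or.inl hg⟩
  · obtain ⟨g, hg⟩ := main (φ.trans (tau m n)) (by
      intro v
      rw [LinearEquiv.trans_apply, tau_SING, h]) ⟨u0, hu0, b, hb, by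
        have : mp (φ.trans (tau m n)) (AA m u0) = mp (tau m n) (mp φ (AA m u0)) := by
          unfold mp
          rw [← Submodule.map_comp]
          rfl
        rw [this, h1, tau_BBs]⟩
    refine ⟨g, Or.inr ?_⟩
    intro v
    rw [← hg, LinearEquiv.trans_apply, tau_tau]

end H598R5
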