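import Mathlib
import Pool.Agent.H598R5.Main0
import Pool.Agent.H598R5.Sym3

open Matrix Filter Topology Module

namespace H598R5

variable {m n : ℕ}

/-- the homomorphism to `GL(V)` -/
noncomputable def TG (m n : ℕ) : GG m n →* (Matrix (Idx m n) (Idx m n) ℂ)ˣ where
  toFun g := ⟨T g, T g⁻¹, by rw [← T_mul, mul_inv_cancel, T_one], by
    rw [← T_mul, inv_mul_cancel, T_one]⟩
  map_one' := by apply Units.ext; exact T_one
  map_mul' := by intro g h; apply Units.ext; exact T_mul g h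

theorem TG_val (g : GG m n) : ((TG m n g : (Matrix (Idx m n) (Idx m n) ℂ)ˣ) :
    Matrix (Idx m n) (Idx m n) ℂ) = T g := rfl

/-- a unit matrix as a linear equivalence -/
noncomputable def toEq (g : (Matrix (Idx m n) (Idx m n) ℂ)ˣ) : VV m n ≃ₗ[ℂ] VV m n :=
  LinearEquiv.ofLinear (Matrix.mulVecLin (g : Matrix (Idx m n) (Idx m n) ℂ))
    (Matrix.mulVecLin ((g⁻¹ : (Matrix (Idx m n) (Idx m n) ℂ)ˣ) : Matrix (Idx m n) (Idx m n) ℂ))
    (by
      rw [← Matrix.mulVecLin_mul, ← Units.val_mul, mul_inv_cancel, Units.val_one]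
      exact Matrix.mulVecLin_one)
    (by
      rw [← Matrix.mulVecLin_mul, ← Units.val_mul, inv_mul_cancel, Units.val_one]
      exact Matrix.mulVecLin_one)

theorem toEq_apply (g : (Matrix (Idx m n) (Idx m n) ℂ)ˣ) (v : VV m n) :
    toEq g v = (g : Matrix (Idx m n) (Idx m n) ℂ) *ᵥ v := rfl

/-- Zariski closed subsets of the matrix group -/
def ZC (R : Set (Matrix (Idx m n) (Idx m n) ℂ)ˣ) : Prop :=
  ∃ S : Set (MvPolynomial (Idx m n × Idx m n) ℂ), ∀ g : (Matrix (Idx m n) (Idx m n) ℂ)ˣ,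
    g ∈ R ↔ ∀ p ∈ S, MvPolynomial.eval (fun q => (g : Matrix (Idx m n) (Idx m n) ℂ) q.1 q.2) p = 0

theorem comap_Closed (R : Subgroup (Matrix (Idx m n) (Idx m n) ℂ)ˣ)
    (hR : ZC (R : Set (Matrix (Idx m n) (Idx m n) ℂ)ˣ)) :
    (KC m n).Closed (R.comap (TG m n) : Set (GG m n)) := by
  obtain ⟨S, hS⟩ := hR
  have hp : ∀ p : MvPolynomial (Idx m n × Idx m n) ℂ, ∃ q : MvPolynomial (Sig m n) ℂ,
      ∀ g : GG m n, MvPolynomial.eval ((KC m n).c g) q =
        MvPolynomial.eval (fun q => T g q.1 q.2) p := by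
    intro p
    have h0 : IsPoly (fun w : Idx m n × Idx m n → ℂ => MvPolynomial.eval w p) := ⟨p, fun _ => rfl⟩
    have h1 := h0.comp (Φ := fun (y : Sig m n → ℂ) (s : Idx m n × Idx m n) =>
      A1 y s.1.1 s.2.1 * (A2 y s.1.2.1 s.2.2.1 * A3 y s.1.2.2 s.2.2.2)) (by
        intro s
        exact (IsPoly.coord _).mul ((IsPoly.coord _).mul (IsPoly.coord _)))
    obtain ⟨q, hq⟩ := h1
    exact ⟨q, fun g => by rw [hq]; rfl⟩
  choose f hf using hp
  refine ⟨f '' S, ?_⟩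
  ext g
  rw [SetLike.mem_coe, Subgroup.mem_comap, ← SetLike.mem_coe, hS]
  constructor
  · rintro h _ ⟨p, hpS, rfl⟩
    rw [hf]; exact h p hpS
  · intro h p hpS
    have := h _ ⟨p, hpS, rfl⟩
    rw [hf] at this
    exact this

/-- Main theorem for Zariski closed subgroups of `GL(V)`. -/
theorem main1 (hm : 3 ≤ m) (hn : 3 ≤ n) (R : Subgroup (Matrix (Idx m n) (Idx m n) ℂ)ˣ)
    (hR : ZC (R : Set (Matrix (Idx m n) (Idx m n) ℂ)ˣ)) :
    {v : VV m n | (0 : VV m n) ∈ closure {w | ∃ g ∈ R,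
      w = (g : Matrix (Idx m n) (Idx m n) ℂ) *ᵥ v}} ≠ SING m n := by
  intro heq
  have hmem : ∀ v : VV m n, (0 : VV m n) ∈ closure {w | ∃ g ∈ R,
      w = (g : Matrix (Idx m n) (Idx m n) ℂ) *ᵥ v} ↔ v ∈ SING m n := by
    intro v
    rw [← heq]; rfl
  have hpres : ∀ g ∈ R, ∀ v, toEq g v ∈ SING m n ↔ v ∈ SING m n := by
    intro g hg v
    rw [← hmem, ← hmem, toEq_apply]
    have : {w | ∃ g' ∈ R, w = (g' : Matrix (Idx m n) (Idx m n) ℂ) *ᵥ
        ((g : Matrix (Idx m n) (Idx m n) ℂ) *ᵥ v)} =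
        {w | ∃ g' ∈ R, w = (g' : Matrix (Idx m n) (Idx m n) ℂ) *ᵥ v} := by
      ext w
      constructor
      · rintro ⟨g', hg', rfl⟩
        exact ⟨g' * g, R.mul_mem hg' hg, by rw [Matrix.mulVec_mulVec, Units.val_mul]⟩
      · rintro ⟨g', hg', rfl⟩
        refine ⟨g' * g⁻¹, R.mul_mem hg' (R.inv_mem hg), ?_⟩
        rw [Matrix.mulVec_mulVec, ← Units.val_mul]
        congr 2
        group
    rw [this]
  have hcl : ∀ g ∈ R, ∃ h : GG m n, (∀ v, (g : Matrix (Idx m n) (Idx m n) ℂ) *ᵥ v = T h *ᵥ v) ∨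
      (∀ v, (g : Matrix (Idx m n) (Idx m n) ℂ) *ᵥ v = tau m n (T h *ᵥ v)) := by
    intro g hg
    exact classify (by omega) (by omega) (toEq g) (hpres g hg)
  have hTG : ∀ (g : (Matrix (Idx m n) (Idx m n) ℂ)ˣ) (h : GG m n),
      (∀ v, (g : Matrix (Idx m n) (Idx m n) ℂ) *ᵥ v = T h *ᵥ v) → g = TG m n h := by
    intro g h hgh
    apply Units.ext
    rw [TG_val]
    ext s t
    have := congrFun (hgh (Pi.single t 1)) s
    rw [Matrix.mulVec_single_one, Matrix.mulVec_single_one] at this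
    exact this
  set G' := R.comap (TG m n) with hG'
  have hS : ∀ v ∈ SING m n, (0 : Idx m n → ℂ) ∈ closure {w | ∃ g ∈ G', w = T g *ᵥ v} := by
    intro v hv
    have h0 := (hmem v).mpr hv
    set A : Set (VV m n) := {w | ∃ g ∈ G', w = T g *ᵥ v} with hA
    set B : Set (VV m n) := {w | ∃ g ∈ R, ∃ h : GG m n,
      (∀ v, (g : Matrix (Idx m n) (Idx m n) ℂ) *ᵥ v = tau m n (T h *ᵥ v)) ∧
      w = (g : Matrix (Idx m n) (Idx m n) ℂ) *ᵥ v} with hB
    have hsub : {w | ∃ g ∈ R, w = (g : Matrix (Idx m n) (Idx m n) ℂ) *ᵥ v} ⊆ A ∪ B := by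
      rintro w ⟨g, hg, rfl⟩
      obtain ⟨h, h1 | h1⟩ := hcl g hg
      · left
        refine ⟨h, ?_, h1 v⟩
        rw [hG', Subgroup.mem_comap, ← hTG g h h1]
        exact hg
      · right
        exact ⟨g, hg, h, h1, rfl⟩
    have h1 := closure_mono hsub h0
    rw [closure_union] at h1
    rcases h1 with h1 | h1
    · exact h1
    · obtain ⟨b, g0, hg0, h0', hgh0, -⟩ : B.Nonempty := by
        rw [← closure_nonempty_iff]; exact ⟨_, h1⟩
      have hcont : Continuous fun w : VV m n =>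
          ((g0⁻¹ : (Matrix (Idx m n) (Idx m n) ℂ)ˣ) : Matrix (Idx m n) (Idx m n) ℂ) *ᵥ w :=
        Continuous.matrix_mulVec continuous_const continuous_id
      have hmaps : Set.MapsTo (fun w : VV m n =>
          ((g0⁻¹ : (Matrix (Idx m n) (Idx m n) ℂ)ˣ) : Matrix (Idx m n) (Idx m n) ℂ) *ᵥ w) B A := by
        rintro w ⟨g, hg, h, hgh, rfl⟩
        have key : ∀ v', ((g0⁻¹ * g : (Matrix (Idx m n) (Idx m n) ℂ)ˣ) :
            Matrix (Idx m n) (Idx m n) ℂ) *ᵥ v' = T (h0'⁻¹ * h) *ᵥ v' := by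
          intro v'
          have e1 : (g0 : Matrix (Idx m n) (Idx m n) ℂ) *ᵥ (T (h0'⁻¹ * h) *ᵥ v') =
              (g : Matrix (Idx m n) (Idx m n) ℂ) *ᵥ v' := by
            rw [hgh0, hgh, Matrix.mulVec_mulVec, ← T_mul, mul_inv_cancel_left]
          rw [Units.val_mul, ← Matrix.mulVec_mulVec, ← e1, Matrix.mulVec_mulVec, ← Units.val_mul,
            inv_mul_cancel, Units.val_one, Matrix.one_mulVec]
        refine ⟨h0'⁻¹ * h, ?_, ?_⟩
        · rw [hG', Subgroup.mem_comap, ← hTG _ _ key]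
          exact R.mul_mem (R.inv_mem hg0) hg
        · rw [← key, Units.val_mul, ← Matrix.mulVec_mulVec]
      have h2 := map_mem_closure hcont h1 hmaps
      simpa using h2
  obtain ⟨v, hv, h0⟩ := main0 hm hn G' (comap_Closed R hR) hS
  apply hv
  rw [← hmem]
  apply closure_mono _ h0
  rintro w ⟨g, hg, rfl⟩
  exact ⟨TG m n g, hg, rfl⟩

end H598R5
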