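import Mathlib
import Pool.Agent.H598R5.Main1
import Pool.Agent.H598R5.Image

open Matrix Filter Topology Module

namespace H598R5

theorem IsPoly.det' {τ κ : Type} [Fintype κ] [DecidableEq κ] {F : (τ → ℂ) → Matrix κ κ ℂ}
    (hF : ∀ i j, IsPoly (fun z => F z i j)) : IsPoly (fun z => (F z).det) := by
  have : (fun z => (F z).det) = fun z => ∑ σ : Equiv.Perm κ,
      (((Equiv.Perm.sign σ : ℤˣ) : ℤ) : ℂ) * ∏ i, F z (σ i) i := by
    funext z
    rw [Matrix.det_apply']
  rw [this]
  apply IsPoly.sum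
  intro σ _
  apply (IsPoly.const _).mul
  apply IsPoly.prod
  intro i _
  exact hF _ _

/-- coordinates on a matrix group -/
noncomputable def KL (κ : Type) [Fintype κ] [DecidableEq κ] : Coord (Matrix κ κ ℂ)ˣ (κ × κ) where
  c g := fun q => (g : Matrix κ κ ℂ) q.1 q.2
  inj := by
    intro g h hgh
    apply Units.ext
    ext i j
    exact congrFun hgh (i, j)
  Δ y := (Matrix.of fun i j => y (i, j)).det
  Δpoly := IsPoly.det' (F := fun y => Matrix.of fun i j => y (i, j)) fun i j => IsPoly.coord _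
  range := by
    intro y
    constructor
    · intro h
      exact ⟨Matrix.GeneralLinearGroup.mkOfDetNeZero _ h, rfl⟩
    · rintro ⟨g, rfl⟩
      exact (Matrix.isUnits_det_units g).ne_zero
  M y z := fun q => ((Matrix.of fun i j => y (i, j)) * (Matrix.of fun i j => z (i, j))) q.1 q.2
  Mpoly := by
    intro s
    simp only [Matrix.mul_apply, Matrix.of_apply]
    apply IsPoly.sum
    intro l _
    exact (IsPoly.coord _).mul (IsPoly.coord _)
  mul := by
    intro g h
    rfl

/-- `m`-tuples of matrices as vectors -/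
def eT (m n : ℕ) : (Fin m → Matrix (Fin n) (Fin n) ℂ) ≃ₗ[ℂ] VV m n where
  toFun X := fun p => X p.1 p.2.1 p.2.2
  invFun v := fun i => Matrix.of fun j k => v (i, j, k)
  map_add' _ _ := rfl
  map_smul' _ _ := rfl
  left_inv _ := rfl
  right_inv _ := rfl

theorem final {m n N : ℕ} (hm : 3 ≤ m) (hn : 3 ≤ n) (G : Subgroup (GL (Fin N) ℂ))
    (hG : ∃ S : Set (MvPolynomial (Fin N × Fin N) ℂ), ∀ g : GL (Fin N) ℂ, g ∈ G ↔
      ∀ p ∈ S, MvPolynomial.eval (fun q => (g : Matrix (Fin N) (Fin N) ℂ) q.1 q.2) p = 0)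
    (ρ : G →* ((Fin m → Matrix (Fin n) (Fin n) ℂ) ≃ₗ[ℂ] (Fin m → Matrix (Fin n) (Fin n) ℂ)))
    (hρ : ∀ (X : Fin m → Matrix (Fin n) (Fin n) ℂ) (i : Fin m) (j k : Fin n),
      ∃ p : MvPolynomial (Option (Fin N × Fin N)) ℂ, ∀ g : G, ρ g X i j k =
        MvPolynomial.eval (fun o => Option.elim o
          (((g : GL (Fin N) ℂ) : Matrix (Fin N) (Fin N) ℂ).det)⁻¹
          (fun q => ((g : GL (Fin N) ℂ) : Matrix (Fin N) (Fin N) ℂ) q.1 q.2)) p) :
    {X : Fin m → Matrix (Fin n) (Fin n) ℂ |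
      (0 : Fin m → Matrix (Fin n) (Fin n) ℂ) ∈ closure (Set.range fun g : G => ρ g X)} ≠
    {X | ∀ c : Fin m → ℂ, (∑ i, c i • X i).det = 0} := by
  classical
  let e := eT m n
  let Mt : ((Fin m → Matrix (Fin n) (Fin n) ℂ) ≃ₗ[ℂ] (Fin m → Matrix (Fin n) (Fin n) ℂ)) →
      Matrix (Idx m n) (Idx m n) ℂ := fun φ =>
    LinearMap.toMatrix' (((e.symm.trans φ).trans e : VV m n ≃ₗ[ℂ] VV m n) :
      (Idx m n → ℂ) →ₗ[ℂ] (Idx m n → ℂ))
  have hMt : ∀ φ v, Mt φ *ᵥ v = e (φ (e.symm v)) := by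
    intro φ v
    rw [LinearMap.toMatrix'_mulVec]; rfl
  have hext : ∀ A B : Matrix (Idx m n) (Idx m n) ℂ, (∀ v, A *ᵥ v = B *ᵥ v) → A = B := by
    intro A B h
    ext s t
    have := congrFun (h (Pi.single t 1)) s
    rw [Matrix.mulVec_single_one, Matrix.mulVec_single_one] at this
    exact this
  have hmul : ∀ φ ψ, Mt (φ * ψ) = Mt φ * Mt ψ := by
    intro φ ψ
    apply hext
    intro v
    rw [← Matrix.mulVec_mulVec, hMt, hMt, hMt, LinearEquiv.symm_apply_apply]
    rfl
  have hone : Mt 1 = 1 := by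
    apply hext
    intro v
    rw [hMt, Matrix.one_mulVec]
    rfl
  let ρ' : G →* (Matrix (Idx m n) (Idx m n) ℂ)ˣ :=
    { toFun := fun g => ⟨Mt (ρ g), Mt (ρ g⁻¹), by
        rw [← hmul, ← map_mul, mul_inv_cancel, map_one, hone], by
        rw [← hmul, ← map_mul, inv_mul_cancel, map_one, hone]⟩
      map_one' := by
        apply Units.ext
        show Mt (ρ 1) = 1
        rw [map_one, hone]
      map_mul' := by
        intro g h
        apply Units.ext
        show Mt (ρ (g * h)) = Mt (ρ g) * Mt (ρ h)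
        rw [map_mul, hmul] }
  have hρ' : ∀ g v, ((ρ' g : (Matrix (Idx m n) (Idx m n) ℂ)ˣ) : Matrix (Idx m n) (Idx m n) ℂ) *ᵥ v =
      e (ρ g (e.symm v)) := fun g v => hMt (ρ g) v
  obtain ⟨S, hS⟩ := hG
  choose P hP using fun s : Idx m n × Idx m n =>
    hρ (e.symm (Pi.single s.2 1)) s.1.1 s.1.2.1 s.1.2.2
  -- the image is Zariski closed
  have hclosed : (KL (Idx m n)).Closed (ρ'.range : Set (Matrix (Idx m n) (Idx m n) ℂ)ˣ) := by
    let τ := Option (Fin N × Fin N)
    let a : (τ → ℂ) → Matrix (Fin N) (Fin N) ℂ := fun z => Matrix.of fun i j => z (some (i, j))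
    let E : (S ⊕ Unit) → (τ → ℂ) → ℂ := fun i => match i with
      | Sum.inl p => fun z => MvPolynomial.eval (fun q => a z q.1 q.2) p.1
      | Sum.inr _ => fun z => z none * (a z).det - 1
    have hc : ∀ g : G, (KL (Idx m n)).c (ρ' g) = fun s =>
        MvPolynomial.eval (fun o => Option.elim o
          (((g : GL (Fin N) ℂ) : Matrix (Fin N) (Fin N) ℂ).det)⁻¹
          (fun q => ((g : GL (Fin N) ℂ) : Matrix (Fin N) (Fin N) ℂ) q.1 q.2)) (P s) := by
      intro g
      funext s
      rw [← hP s g]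
      show ((ρ' g : (Matrix (Idx m n) (Idx m n) ℂ)ˣ) : Matrix (Idx m n) (Idx m n) ℂ) s.1 s.2 = _
      have := congrFun (hρ' g (Pi.single s.2 1)) s.1
      rw [Matrix.mulVec_single_one] at this
      exact this
    apply image_closed (KL (Idx m n)) E (κ := S ⊕ Unit) ?_
      (fun z s => MvPolynomial.eval z (P s)) (fun s => ⟨P s, fun _ => rfl⟩)
    · intro z hz
      have h2 := hz (Sum.inr ())
      simp only [E] at h2
      have hd : (a z).det ≠ 0 := by
        intro h0; rw [h0] at h2; simp at h2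
      let g : GL (Fin N) ℂ := Matrix.GeneralLinearGroup.mkOfDetNeZero (a z) hd
      have hg : g ∈ G := by
        rw [hS]
        intro p hp
        exact hz (Sum.inl ⟨p, hp⟩)
      refine ⟨ρ' ⟨g, hg⟩, ⟨⟨g, hg⟩, rfl⟩, ?_⟩
      rw [hc]
      funext s
      congr 2
      funext o
      rcases o with _ | q
      · show z none = ((a z).det)⁻¹
        have : z none * (a z).det = 1 := sub_eq_zero.mp h2
        exact eq_inv_of_mul_eq_one_left this
      · rfl
    · rintro _ ⟨g, rfl⟩
      refine ⟨fun o => Option.elim o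
          (((g : GL (Fin N) ℂ) : Matrix (Fin N) (Fin N) ℂ).det)⁻¹
          (fun q => ((g : GL (Fin N) ℂ) : Matrix (Fin N) (Fin N) ℂ) q.1 q.2), ?_, ?_⟩
      · rintro (p | p)
        · have := (hS (g : GL (Fin N) ℂ)).mp g.2 p.1 p.2
          exact this
        · show (((g : GL (Fin N) ℂ) : Matrix (Fin N) (Fin N) ℂ).det)⁻¹ *
            ((g : GL (Fin N) ℂ) : Matrix (Fin N) (Fin N) ℂ).det - 1 = 0
          have : ((g : GL (Fin N) ℂ) : Matrix (Fin N) (Fin N) ℂ).det ≠ 0 :=
            (Matrix.isUnits_det_units (g : GL (Fin N) ℂ)).ne_zero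
          rw [inv_mul_cancel₀ this, sub_self]
      · rw [hc]
    · rintro (p | p)
      · exact IsPoly.comp (F := fun w => MvPolynomial.eval w p.1) ⟨p.1, fun _ => rfl⟩
          (fun q => IsPoly.coord _)
      · exact ((IsPoly.coord _).mul (IsPoly.det' (F := a) fun i j => IsPoly.coord _)).sub
          (IsPoly.const 1)
  have hZC : ZC (ρ'.range : Set (Matrix (Idx m n) (Idx m n) ℂ)ˣ) := by
    obtain ⟨S', hS'⟩ := hclosed
    refine ⟨S', fun g => ?_⟩
    rw [hS']
    rfl
  intro heq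
  apply main1 hm hn ρ'.range hZC
  have hcont : Continuous e := by
    apply continuous_pi
    intro p
    exact (continuous_apply p.1).matrix_elem p.2.1 p.2.2
  have hcont' : Continuous e.symm := by
    apply continuous_pi
    intro i
    apply continuous_matrix
    intro j k
    exact continuous_apply (i, j, k)
  ext v
  have h1 : v ∈ SING m n ↔ e.symm v ∈ {X : Fin m → Matrix (Fin n) (Fin n) ℂ |
      ∀ c : Fin m → ℂ, (∑ i, c i • X i).det = 0} := by
    have h2 : ∀ c : Fin m → ℂ, (∑ i, c i • (e.symm v) i) = sl c v := by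
      intro c
      ext j k
      rw [Matrix.sum_apply]
      rfl
    constructor
    · intro h c
      rw [h2]; exact h c
    · intro h c
      rw [← h2]; exact h c
  rw [h1, ← heq]
  constructor
  · intro h
    have := map_mem_closure hcont' h (t := Set.range fun g : G => ρ g (e.symm v)) (by
      rintro _ ⟨_, ⟨g, rfl⟩, rfl⟩
      exact ⟨g, by rw [hρ', LinearEquiv.symm_apply_apply]⟩)
    rw [map_zero] at this
    exact this
  · intro h
    have := map_mem_closure hcont h (t := {w | ∃ g ∈ ρ'.range,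
        w = (g : Matrix (Idx m n) (Idx m n) ℂ) *ᵥ v}) (by
      rintro _ ⟨g, rfl⟩
      exact ⟨ρ' g, ⟨g, rfl⟩, by rw [hρ']⟩)
    rw [map_zero] at this
    exact this

end H598R5
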