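import Pool.Agent.H972ST.Stmts

set_option autoImplicit false

/-! Tasks SER2 and SER3 of the project H972-ST. -/

namespace Pool.Agent.H598R5.STSer

open Pool.Agent.H972ST

/-- coefficients of a polynomial given by a list -/
lemma coeff_list (P : Polynomial ℤ) (l : List ℤ) (hl : l.length = 10)
    (hP : P = ∑ j ∈ Finset.range 10, Polynomial.C (l.getD j 0) * Polynomial.X ^ j) (n : ℕ) :
    P.coeff n = l.getD n 0 := by
  rw [hP, Polynomial.finsetSum_coeff]
  simp only [Polynomial.coeff_C_mul, Polynomial.coeff_X_pow, mul_ite, mul_one, mul_zero]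
  rw [Finset.sum_ite_eq]
  split_ifs with h
  · rfl
  · rw [Finset.mem_range, not_lt] at h
    rw [List.getD_eq_default _ _ (by omega)]

lemma tail (l : List ℤ) (hl : l.length = 10) (c : ℕ → ℤ) (s : ℕ) :
    ∑ j ∈ Finset.range (s + 9 + 1), l.getD j 0 * c (s + 9 - j) =
      ∑ j ∈ Finset.range 10, l.getD j 0 * c (s + 9 - j) := by
  symm
  apply Finset.sum_subset
  · intro j hj
    rw [Finset.mem_range] at hj ⊢
    omega
  · intro j _ hj
    rw [Finset.mem_range, not_lt] at hj
    rw [List.getD_eq_default _ _ (by omega), zero_mul]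

lemma P2_eq : ((1 - Polynomial.X) ^ 5 * (1 + Polynomial.X) ^ 4 : Polynomial ℤ) =
    ∑ j ∈ Finset.range 10,
      Polynomial.C (([1, -1, -4, 4, 6, -6, -4, 4, 1, -1] : List ℤ).getD j 0) *
        Polynomial.X ^ j := by
  simp [Finset.sum_range_succ]
  ring

lemma P3_eq : ((1 - Polynomial.X) ^ 3 * (1 + Polynomial.X) ^ 2 * (1 + Polynomial.X ^ 2) ^ 2 :
    Polynomial ℤ) =
    ∑ j ∈ Finset.range 10,
      Polynomial.C (([1, -1, 0, 0, -2, 2, 0, 0, 1, -1] : List ℤ).getD j 0) *
        Polynomial.X ^ j := by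
  simp [Finset.sum_range_succ]
  ring

lemma P4_eq : ((1 - Polynomial.X) ^ 2 * (1 + Polynomial.X) ^ 3 * (1 + Polynomial.X ^ 2) ^ 2 :
    Polynomial ℤ) =
    ∑ j ∈ Finset.range 10,
      Polynomial.C (([1, 1, 0, 0, -2, -2, 0, 0, 1, 1] : List ℤ).getD j 0) *
        Polynomial.X ^ j := by
  simp [Finset.sum_range_succ]
  ring

theorem tSer2 : TSer2 := by
  intro c hc i
  simp only [coeff_list _ _ (by rfl) P2_eq]
  rcases Nat.lt_or_ge i 9 with hi | hi
  · apply Int.cast_injective (α := ℚ)
    interval_cases i <;> simp [Finset.sum_range_succ, hc, HA] <;> norm_num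
  · obtain ⟨s, rfl⟩ : ∃ s, i = s + 9 := ⟨i - 9, by omega⟩
    rw [tail _ (by rfl)]
    have hA : HA (s + 9) = 0 := by
      unfold HA
      rw [List.getD_eq_default _ _ (by simp)]
    rw [hA]
    apply Int.cast_injective (α := ℚ)
    have e0 : s + 9 - 0 = s + 9 := rfl
    have e1 : s + 9 - 1 = s + 8 := rfl
    have e2 : s + 9 - 2 = s + 7 := rfl
    have e3 : s + 9 - 3 = s + 6 := rfl
    have e4 : s + 9 - 4 = s + 5 := rfl
    have e5 : s + 9 - 5 = s + 4 := rfl
    have e6 : s + 9 - 6 = s + 3 := rfl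
    have e7 : s + 9 - 7 = s + 2 := rfl
    have e8 : s + 9 - 8 = s + 1 := rfl
    have e9 : s + 9 - 9 = s := rfl
    simp only [Finset.sum_range_succ, Finset.sum_range_zero, e0, e1, e2, e3, e4, e5, e6, e7, e8,
      e9]
    push_cast
    simp only [hc]
    simp
    ring

theorem tSer3 : TSer3 := by
  intro i
  constructor
  · simp only [coeff_list _ _ (by rfl) P3_eq]
    rcases Nat.lt_or_ge i 9 with hi | hi
    · interval_cases i <;> simp [Finset.sum_range_succ, E00, HB]
    · obtain ⟨s, rfl⟩ : ∃ s, i = s + 9 := ⟨i - 9, by omega⟩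
      rw [tail _ (by rfl) (fun m => (E00 m : ℤ))]
      have hA : HB (s + 9) = 0 := by
        unfold HB
        rw [List.getD_eq_default _ _ (by simp)]
      rw [hA]
      have e0 : s + 9 - 0 = s + 9 := rfl
      have e1 : s + 9 - 1 = s + 8 := rfl
      have e2 : s + 9 - 2 = s + 7 := rfl
      have e3 : s + 9 - 3 = s + 6 := rfl
      have e4 : s + 9 - 4 = s + 5 := rfl
      have e5 : s + 9 - 5 = s + 4 := rfl
      have e6 : s + 9 - 6 = s + 3 := rfl
      have e7 : s + 9 - 7 = s + 2 := rfl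
      have e8 : s + 9 - 8 = s + 1 := rfl
      have e9 : s + 9 - 9 = s := rfl
      simp only [Finset.sum_range_succ, Finset.sum_range_zero, e0, e1, e2, e3, e4, e5, e6, e7, e8,
        e9]
      unfold E00
      obtain ⟨t, rfl | rfl⟩ : ∃ t, s = 2 * t ∨ s = 2 * t + 1 := ⟨s / 2, by omega⟩
      · rw [show (2 * t + 9) / 2 = t + 4 by omega, show (2 * t + 8) / 2 = t + 4 by omega,
          show (2 * t + 5) / 2 = t + 2 by omega, show (2 * t + 4) / 2 = t + 2 by omega,
          show (2 * t + 1) / 2 = t by omega, show (2 * t) / 2 = t by omega]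
        push_cast
        simp
      · rw [show (2 * t + 1 + 9) / 2 = t + 5 by omega, show (2 * t + 1 + 8) / 2 = t + 4 by omega,
          show (2 * t + 1 + 5) / 2 = t + 3 by omega, show (2 * t + 1 + 4) / 2 = t + 2 by omega,
          show (2 * t + 1 + 1) / 2 = t + 1 by omega, show (2 * t + 1) / 2 = t by omega]
        push_cast
        simp
        ring
  · simp only [coeff_list _ _ (by rfl) P4_eq]
    rcases Nat.lt_or_ge i 9 with hi | hi
    · interval_cases i <;> simp [Finset.sum_range_succ, HA]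
    · obtain ⟨s, rfl⟩ : ∃ s, i = s + 9 := ⟨i - 9, by omega⟩
      rw [tail _ (by rfl) (fun m => ((2 * m + 1 : ℕ) : ℤ))]
      have hA : HA (s + 9) = 0 := by
        unfold HA
        rw [List.getD_eq_default _ _ (by simp)]
      rw [hA]
      have e0 : s + 9 - 0 = s + 9 := rfl
      have e1 : s + 9 - 1 = s + 8 := rfl
      have e2 : s + 9 - 2 = s + 7 := rfl
      have e3 : s + 9 - 3 = s + 6 := rfl
      have e4 : s + 9 - 4 = s + 5 := rfl
      have e5 : s + 9 - 5 = s + 4 := rfl
      have e6 : s + 9 - 6 = s + 3 := rfl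
      have e7 : s + 9 - 7 = s + 2 := rfl
      have e8 : s + 9 - 8 = s + 1 := rfl
      have e9 : s + 9 - 9 = s := rfl
      simp only [Finset.sum_range_succ, Finset.sum_range_zero, e0, e1, e2, e3, e4, e5, e6, e7, e8,
        e9]
      push_cast
      simp
      ring

end Pool.Agent.H598R5.STSer
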